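import Pool.Agent.W36.GU.GU2

/-! The additive energy of the large spectrum. -/

set_option autoImplicit false

namespace Pool.Agent.W36.GU

open Finset

variable {p : ℕ} [NeZero p]

theorem shift_big {G : ℤ → ℂ} {X : ℕ} (hG : ∀ n, G n ≠ 0 → 1 ≤ n ∧ n ≤ X) {t : ℤ} (ht : |t| ≤ X) :
    ∑ n ∈ Icc (-(X : ℤ)) (2 * X), G (n + t) = ∑ n ∈ Icc (1 : ℤ) X, G n := by
  rw [abs_le] at ht
  have h1 : ∑ n ∈ Icc (-(X : ℤ)) (2 * X), G (n + t) = ∑ n ∈ (Icc (-(X : ℤ)) (2 * X)).map (addRightEmbedding t), G n := by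
    rw [sum_map]; rfl
  rw [h1]
  symm
  apply sum_subset
  · intro n hn
    rw [mem_Icc] at hn
    rw [mem_map]
    exact ⟨n - t, by rw [mem_Icc]; omega, by simp⟩
  · intro n _ hn
    by_contra h
    exact hn (by rw [mem_Icc]; exact hG n h)

/-- the inner sum after the first Cauchy-Schwarz step -/
noncomputable def Z (p : ℕ) [NeZero p] (g : ℤ → ℝ) (Q : ℤ) (I : Finset ℤ) (φ : ℤ → ZMod p) (n n' : ℤ) : ℂ :=
  ∑ α ∈ I, ((g (n + Q * α) * g (n' + Q * α) : ℝ) : ℂ) * psi p (φ α * (n - n' : ℤ))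

/-- the inner sum after the second step -/
noncomputable def Y (p : ℕ) [NeZero p] (I : Finset ℤ) (φ : ℤ → ZMod p) (k : ℤ) (y : ZMod p) : ℂ :=
  ∑ q ∈ (I ×ˢ I).filter (fun q => q.2 - q.1 = k), psi p (y * (φ q.1 - φ q.2))

theorem norm_sq_A (g : ℤ → ℝ) (X : ℕ) (h : ℤ) (ξ : ZMod p) :
    ((‖A p g X h ξ‖ ^ 2 : ℝ) : ℂ) = ∑ n ∈ Icc (1 : ℤ) X, ∑ n' ∈ Icc (1 : ℤ) X,
      ((g n * g n' : ℝ) : ℂ) * (((g (n + h) * g (n' + h) : ℝ) : ℂ) * psi p (ξ * (n - n' : ℤ))) := by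
  rw [norm_sq_c]
  unfold A
  rw [map_sum, sum_mul_sum]
  apply sum_congr rfl; intro n _
  apply sum_congr rfl; intro n' _
  rw [map_mul, psi_conj, Complex.conj_ofReal]
  have e : psi p (ξ * (n - n' : ℤ)) = psi p (ξ * n) * psi p (-(ξ * n')) := by
    rw [← psi_add]; congr 1; push_cast; ring
  rw [e]
  push_cast
  ring

theorem first_cs {g : ℤ → ℝ} (hg : ∀ n, |g n| ≤ 1) (X : ℕ) (Q : ℤ) (I : Finset ℤ) (φ : ℤ → ZMod p) :
    (∑ α ∈ I, ‖A p g X (Q * α) (φ α)‖ ^ 2) ^ 2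
      ≤ (X : ℝ) ^ 2 * ∑ q ∈ (Icc (-(X : ℤ)) (2 * X)) ×ˢ (Icc (-(X : ℤ)) (2 * X)), ‖Z p g Q I φ q.1 q.2‖ ^ 2 := by
  have h1 : ∑ α ∈ I, ‖A p g X (Q * α) (φ α)‖ ^ 2 ≤ ∑ q ∈ (Icc (1 : ℤ) X) ×ˢ (Icc (1 : ℤ) X), ‖Z p g Q I φ q.1 q.2‖ := by
    have e : ((∑ α ∈ I, ‖A p g X (Q * α) (φ α)‖ ^ 2 : ℝ) : ℂ)
        = ∑ q ∈ (Icc (1 : ℤ) X) ×ˢ (Icc (1 : ℤ) X), ((g q.1 * g q.2 : ℝ) : ℂ) * Z p g Q I φ q.1 q.2 := by
      rw [Complex.ofReal_sum]
      simp only [norm_sq_A]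
      rw [sum_comm, sum_product]
      apply sum_congr rfl; intro n _
      rw [sum_comm]
      apply sum_congr rfl; intro n' _
      unfold Z
      rw [mul_sum]
    have h0 : 0 ≤ ∑ α ∈ I, ‖A p g X (Q * α) (φ α)‖ ^ 2 := sum_nonneg fun _ _ => sq_nonneg _
    have e2 : ∑ α ∈ I, ‖A p g X (Q * α) (φ α)‖ ^ 2 = ‖((∑ α ∈ I, ‖A p g X (Q * α) (φ α)‖ ^ 2 : ℝ) : ℂ)‖ := by
      rw [Complex.norm_real, Real.norm_eq_abs, abs_of_nonneg h0]
    rw [e2, e]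
    refine (norm_sum_le _ _).trans ?_
    apply sum_le_sum
    intro q _
    rw [norm_mul, Complex.norm_real, Real.norm_eq_abs, abs_mul]
    exact mul_le_of_le_one_left (norm_nonneg _) (mul_le_one₀ (hg _) (abs_nonneg _) (hg _))
  have h0 : 0 ≤ ∑ α ∈ I, ‖A p g X (Q * α) (φ α)‖ ^ 2 := sum_nonneg fun _ _ => sq_nonneg _
  refine (pow_le_pow_left₀ h0 h1 2).trans ?_
  refine sq_sum_le_card_mul_sum_sq.trans ?_
  have hc : (((Icc (1 : ℤ) X) ×ˢ (Icc (1 : ℤ) X)).card : ℝ) = (X : ℝ) ^ 2 := by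
    rw [card_product, Int.card_Icc]
    have : ((X : ℤ) + 1 - 1).toNat = X := by omega
    rw [this]; push_cast; ring
  rw [hc]
  apply mul_le_mul_of_nonneg_left _ (sq_nonneg _)
  apply sum_le_sum_of_subset_of_nonneg
  · intro q hq
    rw [mem_product, mem_Icc, mem_Icc] at hq ⊢
    constructor <;> constructor <;> omega
  · intro _ _ _; exact sq_nonneg _

theorem second {g : ℤ → ℝ} (hg : ∀ n, |g n| ≤ 1) {X : ℕ} (hs : Sup g X) {Q : ℕ} (hQ : 1 ≤ Q) (I : Finset ℤ)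
    (hI : ∀ α ∈ I, |(Q : ℤ) * α| ≤ X) (φ : ℤ → ZMod p) :
    ∑ q ∈ (Icc (-(X : ℤ)) (2 * X)) ×ˢ (Icc (-(X : ℤ)) (2 * X)), ‖Z p g Q I φ q.1 q.2‖ ^ 2
      ≤ ∑ r ∈ ((Icc (1 : ℤ) X) ×ˢ (Icc (1 : ℤ) X)) ×ˢ (Icc (-((2 * X / Q : ℕ) : ℤ)) ((2 * X / Q : ℕ) : ℤ)),
        ‖Y p I φ r.2 ((r.1.1 - r.1.2 : ℤ) : ZMod p)‖ := by
  set J := Icc (-(X : ℤ)) (2 * X) with hJ
  set K := Icc (-((2 * X / Q : ℕ) : ℤ)) ((2 * X / Q : ℕ) : ℤ) with hK
  have e1 : ((∑ q ∈ J ×ˢ J, ‖Z p g Q I φ q.1 q.2‖ ^ 2 : ℝ) : ℂ)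
      = ∑ m ∈ Icc (1 : ℤ) X, ∑ m' ∈ Icc (1 : ℤ) X, ∑ q ∈ I ×ˢ I,
        ((g m * g m' * (g (m + Q * (q.2 - q.1)) * g (m' + Q * (q.2 - q.1))) : ℝ) : ℂ)
          * psi p ((m - m' : ℤ) * (φ q.1 - φ q.2)) := by
    rw [Complex.ofReal_sum]
    simp only [norm_sq_c]
    have e2 : ∀ q ∈ J ×ˢ J, Z p g Q I φ q.1 q.2 * starRingEnd ℂ (Z p g Q I φ q.1 q.2)
        = ∑ α ∈ I, ∑ β ∈ I, ((g (q.1 + Q * α) * g (q.2 + Q * α) * (g (q.1 + Q * β) * g (q.2 + Q * β)) : ℝ) : ℂ)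
          * psi p ((q.1 - q.2 : ℤ) * (φ α - φ β)) := by
      intro q _
      unfold Z
      rw [map_sum, sum_mul_sum]
      apply sum_congr rfl; intro α _
      apply sum_congr rfl; intro β _
      rw [map_mul, psi_conj, Complex.conj_ofReal]
      have e : psi p ((q.1 - q.2 : ℤ) * (φ α - φ β)) = psi p (φ α * (q.1 - q.2 : ℤ)) * psi p (-(φ β * (q.1 - q.2 : ℤ))) := by
        rw [← psi_add]; congr 1; ring
      rw [e]
      push_cast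
      ring
    rw [sum_congr rfl e2, sum_comm]
    have e3 : ∀ α ∈ I, ∑ q ∈ J ×ˢ J, ∑ β ∈ I, ((g (q.1 + Q * α) * g (q.2 + Q * α) * (g (q.1 + Q * β) * g (q.2 + Q * β)) : ℝ) : ℂ)
          * psi p ((q.1 - q.2 : ℤ) * (φ α - φ β))
        = ∑ β ∈ I, ∑ m ∈ Icc (1 : ℤ) X, ∑ m' ∈ Icc (1 : ℤ) X,
          ((g m * g m' * (g (m + Q * (β - α)) * g (m' + Q * (β - α))) : ℝ) : ℂ)
          * psi p ((m - m' : ℤ) * (φ α - φ β)) := by
      intro α hα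
      rw [sum_comm]
      apply sum_congr rfl; intro β _
      rw [sum_product]
      have e4 : ∀ n ∈ J, ∑ n' ∈ J, ((g (n + Q * α) * g (n' + Q * α) * (g (n + Q * β) * g (n' + Q * β)) : ℝ) : ℂ)
          * psi p ((n - n' : ℤ) * (φ α - φ β))
          = (fun m : ℤ => ∑ m' ∈ Icc (1 : ℤ) X, ((g m * g m' * (g (m + Q * (β - α)) * g (m' + Q * (β - α))) : ℝ) : ℂ)
          * psi p ((m - m' : ℤ) * (φ α - φ β))) (n + Q * α) := by
        intro n _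
        simp only
        rw [← shift_big (G := fun m' : ℤ => ((g (n + Q * α) * g m' * (g (n + Q * α + Q * (β - α)) * g (m' + Q * (β - α))) : ℝ) : ℂ)
          * psi p ((n + Q * α - m' : ℤ) * (φ α - φ β))) (X := X) (by
            intro m hm
            apply hs m
            intro h0
            apply hm
            rw [h0]; simp) (hI α hα)]
        apply sum_congr rfl
        intro n' _
        have a1 : n + Q * α + Q * (β - α) = n + Q * β := by ring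
        have a2 : n' + Q * α + Q * (β - α) = n' + Q * β := by ring
        have a3 : n + Q * α - (n' + Q * α) = n - n' := by ring
        rw [a1, a2, a3]
      rw [sum_congr rfl e4, shift_big (G := fun m : ℤ => ∑ m' ∈ Icc (1 : ℤ) X, ((g m * g m' * (g (m + Q * (β - α)) * g (m' + Q * (β - α))) : ℝ) : ℂ)
          * psi p ((m - m' : ℤ) * (φ α - φ β))) (X := X) (by
            intro m hm
            apply hs m
            intro h0
            apply hm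
            apply sum_eq_zero
            intro m' _
            rw [h0]; simp) (hI α hα)]
    rw [sum_congr rfl e3, ← sum_product']
    rw [sum_comm]
    apply sum_congr rfl; intro m _
    rw [sum_comm]
  have h0 : 0 ≤ ∑ q ∈ J ×ˢ J, ‖Z p g Q I φ q.1 q.2‖ ^ 2 := sum_nonneg fun _ _ => sq_nonneg _
  have e5 : ∑ q ∈ J ×ˢ J, ‖Z p g Q I φ q.1 q.2‖ ^ 2 = ‖((∑ q ∈ J ×ˢ J, ‖Z p g Q I φ q.1 q.2‖ ^ 2 : ℝ) : ℂ)‖ := by
    rw [Complex.norm_real, Real.norm_eq_abs, abs_of_nonneg h0]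
  rw [e5, e1, sum_product, sum_product]
  refine (norm_sum_le _ _).trans (sum_le_sum fun m _ => ?_)
  refine (norm_sum_le _ _).trans (sum_le_sum fun m' _ => ?_)
  have e6 : ∑ q ∈ I ×ˢ I, ((g m * g m' * (g (m + Q * (q.2 - q.1)) * g (m' + Q * (q.2 - q.1))) : ℝ) : ℂ)
          * psi p ((m - m' : ℤ) * (φ q.1 - φ q.2))
      = ∑ k ∈ K, ((g m * g m' * (g (m + Q * k) * g (m' + Q * k)) : ℝ) : ℂ) * Y p I φ k ((m - m' : ℤ) : ZMod p) := by
    rw [← sum_fiberwise_of_maps_to (s := I ×ˢ I) (t := K) (g := fun q => q.2 - q.1)]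
    · apply sum_congr rfl
      intro k _
      unfold Y
      rw [mul_sum]
      apply sum_congr rfl
      intro q hq
      rw [mem_filter] at hq
      rw [hq.2]
    · intro q hq
      rw [mem_product] at hq
      have a1 := hI _ hq.1
      have a2 := hI _ hq.2
      rw [abs_le] at a1 a2
      have hQ0 : (0 : ℤ) < Q := by exact_mod_cast hQ
      rw [hK, mem_Icc]
      have a3 : (Q : ℤ) * (q.2 - q.1) = Q * q.2 - Q * q.1 := by ring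
      push_cast
      constructor
      · have : -(q.2 - q.1) ≤ (2 * X : ℤ) / Q := by
          rw [Int.le_ediv_iff_mul_le hQ0]
          have : -(q.2 - q.1) * (Q : ℤ) = -((Q : ℤ) * (q.2 - q.1)) := by ring
          omega
        omega
      · rw [Int.le_ediv_iff_mul_le hQ0]
        have : (q.2 - q.1) * (Q : ℤ) = (Q : ℤ) * (q.2 - q.1) := by ring
        omega
  rw [e6]
  refine (norm_sum_le _ _).trans (sum_le_sum fun k _ => ?_)
  rw [norm_mul, Complex.norm_real, Real.norm_eq_abs]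
  apply mul_le_of_le_one_left (norm_nonneg _)
  rw [abs_mul, abs_mul, abs_mul]
  exact mul_le_one₀ (mul_le_one₀ (hg _) (abs_nonneg _) (hg _)) (by positivity) (mul_le_one₀ (hg _) (abs_nonneg _) (hg _))

open Classical in
theorem coinc (I : Finset ℤ) (φ : ℤ → ZMod p) (K : Finset ℤ) :
    ∑ k ∈ K, ((((I ×ˢ I).filter (fun q => q.2 - q.1 = k)) ×ˢ ((I ×ˢ I).filter (fun q => q.2 - q.1 = k))).filter
      (fun q => φ q.1.1 - φ q.1.2 = φ q.2.1 - φ q.2.2)).card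
      ≤ (I.image (fun α => (α, φ α))).addEnergy (I.image (fun α => (α, φ α))) := by
  rw [← card_sigma]
  unfold addEnergy
  apply card_le_card_of_injOn (fun w : (Σ _ : ℤ, (ℤ × ℤ) × (ℤ × ℤ)) =>
    (((w.2.1.1, φ w.2.1.1), (w.2.2.1, φ w.2.2.1)), ((w.2.2.2, φ w.2.2.2), (w.2.1.2, φ w.2.1.2))))
  · rintro ⟨k, ⟨⟨a, b⟩, ⟨c, d⟩⟩⟩ hw
    simp only [coe_sigma, Set.mem_sigma_iff, mem_coe, mem_filter, mem_product] at hw
    obtain ⟨-, ⟨⟨⟨ha, hb⟩, h1⟩, ⟨⟨hc, hd⟩, h2⟩⟩, h3⟩ := hw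
    simp only [mem_coe, mem_filter, mem_product]
    refine ⟨⟨⟨mem_image_of_mem _ ha, mem_image_of_mem _ hc⟩, ⟨mem_image_of_mem _ hd, mem_image_of_mem _ hb⟩⟩, ?_⟩
    rw [Prod.mk_add_mk, Prod.mk_add_mk, Prod.mk.injEq]
    constructor
    · omega
    · have : φ a - φ b + φ b + φ d = φ c - φ d + φ b + φ d := by rw [h3]
      calc φ a + φ d = φ a - φ b + φ b + φ d := by ring
        _ = φ c - φ d + φ b + φ d := this
        _ = φ c + φ b := by ring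
  · rintro ⟨k, ⟨⟨a, b⟩, ⟨c, d⟩⟩⟩ hw ⟨k', ⟨⟨a', b'⟩, ⟨c', d'⟩⟩⟩ hw' h
    simp only [coe_sigma, Set.mem_sigma_iff, mem_coe, mem_filter, mem_product] at hw hw'
    simp only [Prod.mk.injEq] at h
    obtain ⟨⟨⟨h1, -⟩, ⟨h2, -⟩⟩, ⟨h3, -⟩, ⟨h4, -⟩⟩ := h
    subst h1 h2 h3 h4
    have : k = k' := by
      rw [← hw.2.1.1.2, ← hw'.2.1.1.2]
    subst this
    rfl

theorem third {X : ℕ} (hp : X ≤ p) (I : Finset ℤ) (φ : ℤ → ZMod p) (K : Finset ℤ) :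
    (∑ r ∈ ((Icc (1 : ℤ) X) ×ˢ (Icc (1 : ℤ) X)) ×ˢ K, ‖Y p I φ r.2 ((r.1.1 - r.1.2 : ℤ) : ZMod p)‖) ^ 2
      ≤ ((X : ℝ) ^ 2 * K.card) * (X * p * ((I.image (fun α => (α, φ α))).addEnergy (I.image (fun α => (α, φ α))) : ℕ)) := by
  refine sq_sum_le_card_mul_sum_sq.trans ?_
  have hc : ((((Icc (1 : ℤ) X) ×ˢ (Icc (1 : ℤ) X)) ×ˢ K).card : ℝ) = (X : ℝ) ^ 2 * K.card := by
    rw [card_product, card_product, Int.card_Icc]
    have : ((X : ℤ) + 1 - 1).toNat = X := by omega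
    rw [this]; push_cast; ring
  rw [hc]
  apply mul_le_mul_of_nonneg_left _ (by positivity)
  rw [sum_product, sum_product, sum_comm]
  have h1 : ∀ m' ∈ Icc (1 : ℤ) X, ∑ m ∈ Icc (1 : ℤ) X, ∑ k ∈ K, ‖Y p I φ k ((m - m' : ℤ) : ZMod p)‖ ^ 2
      ≤ p * ((I.image (fun α => (α, φ α))).addEnergy (I.image (fun α => (α, φ α))) : ℕ) := by
    intro m' _
    rw [sum_comm]
    have h2 : ∀ k ∈ K, ∑ m ∈ Icc (1 : ℤ) X, ‖Y p I φ k ((m - m' : ℤ) : ZMod p)‖ ^ 2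
        ≤ p * (((((I ×ˢ I).filter (fun q => q.2 - q.1 = k)) ×ˢ ((I ×ˢ I).filter (fun q => q.2 - q.1 = k))).filter
      (fun q => φ q.1.1 - φ q.1.2 = φ q.2.1 - φ q.2.2)).card : ℝ) := by
      intro k _
      have h3 := moment_count (p := p) ((I ×ˢ I).filter (fun q => q.2 - q.1 = k)) (fun q => φ q.1 - φ q.2)
      rw [← h3]
      have h4 : ∑ m ∈ Icc (1 : ℤ) X, ‖Y p I φ k ((m - m' : ℤ) : ZMod p)‖ ^ 2
          = ∑ y ∈ (Icc (1 : ℤ) X).image (fun m : ℤ => ((m - m' : ℤ) : ZMod p)), ‖Y p I φ k y‖ ^ 2 := by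
        rw [sum_image]
        intro a ha b hb hab
        apply cast_inj hp ha hb
        simp only at hab ⊢
        push_cast at hab
        exact sub_left_injective hab
      rw [h4]
      exact sum_le_sum_of_subset_of_nonneg (subset_univ _) (fun _ _ _ => sq_nonneg _)
    refine (sum_le_sum h2).trans ?_
    rw [← mul_sum]
    apply mul_le_mul_of_nonneg_left _ (Nat.cast_nonneg _)
    exact_mod_cast coinc I φ K
  refine (sum_le_sum h1).trans ?_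
  rw [sum_const, Int.card_Icc, nsmul_eq_mul]
  have : ((X : ℤ) + 1 - 1).toNat = X := by omega
  rw [this]
  linarith

/-- the energy bound -/
theorem energy {g : ℤ → ℝ} (hg : ∀ n, |g n| ≤ 1) {X : ℕ} (hX : 1 ≤ X) (hs : Sup g X) (hp : X ≤ p) {Q : ℕ} (hQ : 1 ≤ Q)
    (hQX : Q ≤ X) (I : Finset ℤ) (hI : ∀ α ∈ I, |(Q : ℤ) * α| ≤ X) (φ : ℤ → ZMod p) {σ : ℝ} (hσ : 0 < σ)
    (hA : ∀ α ∈ I, σ * X ≤ ‖A p g X (Q * α) (φ α)‖) :
    σ ^ 8 * X * (I.card : ℝ) ^ 4 ≤ 5 * (X / Q) * p *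
      ((I.image (fun α => (α, φ α))).addEnergy (I.image (fun α => (α, φ α))) : ℕ) := by
  have hX0 : (1 : ℝ) ≤ X := by exact_mod_cast hX
  set S := ∑ α ∈ I, ‖A p g X (Q * α) (φ α)‖ ^ 2 with hS
  set K := Icc (-((2 * X / Q : ℕ) : ℤ)) ((2 * X / Q : ℕ) : ℤ) with hK
  set E : ℝ := (((I.image (fun α => (α, φ α))).addEnergy (I.image (fun α => (α, φ α))) : ℕ) : ℝ) with hE
  have h1 : σ ^ 2 * X ^ 2 * I.card ≤ S := by
    have : I.card • (σ ^ 2 * X ^ 2 : ℝ) ≤ S := by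
      apply card_nsmul_le_sum
      intro α hα
      have := pow_le_pow_left₀ (by positivity) (hA α hα) 2
      calc σ ^ 2 * (X : ℝ) ^ 2 = (σ * X) ^ 2 := by ring
        _ ≤ _ := this
    rw [nsmul_eq_mul] at this
    linarith
  have h2 := first_cs hg X (Q : ℤ) I φ
  have h3 := second hg hs hQ I hI φ
  have h4 := third hp I φ K
  have hKc : (K.card : ℝ) ≤ 5 * (X / Q) := by
    have e : K.card = 2 * (2 * X / Q) + 1 := by
      rw [hK, Int.card_Icc]; omega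
    rw [e]
    have hQ0 : (0 : ℝ) < Q := by exact_mod_cast hQ
    have a1 : ((2 * X / Q : ℕ) : ℝ) ≤ 2 * X / Q := by
      have := @Nat.cast_div_le ℝ _ _ _ (2 * X) Q
      push_cast at this
      exact this
    have a2 : (1 : ℝ) ≤ X / Q := by
      rw [le_div_iff₀ hQ0, one_mul]; exact_mod_cast hQX
    push_cast
    have a3 : 2 * (X : ℝ) / Q = 2 * (X / Q) := by ring
    rw [a3] at a1
    linarith
  set B2 := ∑ q ∈ (Icc (-(X : ℤ)) (2 * X)) ×ˢ (Icc (-(X : ℤ)) (2 * X)), ‖Z p g Q I φ q.1 q.2‖ ^ 2 with hB2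
  have hB0 : 0 ≤ B2 := sum_nonneg fun _ _ => sq_nonneg _
  have h5 : B2 ^ 2 ≤ ((X : ℝ) ^ 2 * K.card) * (X * p * E) := (pow_le_pow_left₀ hB0 h3 2).trans h4
  have hE0 : 0 ≤ E := Nat.cast_nonneg _
  have hS0 : 0 ≤ S := sum_nonneg fun _ _ => sq_nonneg _
  have h6 : S ^ 4 ≤ (X : ℝ) ^ 4 * (((X : ℝ) ^ 2 * K.card) * (X * p * E)) := by
    calc S ^ 4 = (S ^ 2) ^ 2 := by ring
      _ ≤ ((X : ℝ) ^ 2 * B2) ^ 2 := pow_le_pow_left₀ (sq_nonneg _) h2 2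
      _ = (X : ℝ) ^ 4 * B2 ^ 2 := by ring
      _ ≤ _ := mul_le_mul_of_nonneg_left h5 (by positivity)
  have h7 : (σ ^ 2 * X ^ 2 * I.card) ^ 4 ≤ S ^ 4 := pow_le_pow_left₀ (by positivity) h1 4
  have h8 : (X : ℝ) ^ 7 * (σ ^ 8 * X * (I.card : ℝ) ^ 4) ≤ (X : ℝ) ^ 7 * (K.card * p * E) := by
    calc (X : ℝ) ^ 7 * (σ ^ 8 * X * (I.card : ℝ) ^ 4) = (σ ^ 2 * X ^ 2 * I.card) ^ 4 := by ring
      _ ≤ _ := h7.trans h6
      _ = _ := by ring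
  have h9 := le_of_mul_le_mul_left h8 (by positivity)
  refine h9.trans ?_
  apply mul_le_mul_of_nonneg_right _ hE0
  exact mul_le_mul_of_nonneg_right hKc (Nat.cast_nonneg _)

end Pool.Agent.W36.GU
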