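import Pool.Agent.W36.GU.GU12
import Pool.Agent.W41.MU4
import Pool.Agent.W41.FU8

/-! The balanced indicator functions of the invariant sets satisfy the hypotheses. -/

set_option autoImplicit false

namespace Pool.Agent.W36.GU

open Finset Pool.Agent.H499R2.ND Pool.Agent.H499R2.CO Pool.Agent.W41.FU Pool.Agent.W41 Pool.Agent.W41.MU

theorem sum_cast {β : Type*} [AddCommMonoid β] (F : ℤ → β) (X : ℕ) :
    ∑ n ∈ Icc (1 : ℤ) X, F n = ∑ m ∈ Icc 1 X, F (m : ℕ) := by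
  have h1 : Icc (1 : ℤ) X = (Icc 1 X).image (fun m : ℕ => (m : ℤ)) := by
    ext n
    rw [mem_image, mem_Icc]
    constructor
    · intro h
      exact ⟨n.toNat, by rw [mem_Icc]; omega, by omega⟩
    · rintro ⟨m, hm, rfl⟩
      rw [mem_Icc] at hm
      omega
  rw [h1, sum_image]
  intro a _ b _ hab
  simpa using hab

/-- the balanced indicator functions of the invariant sets -/
def Bal (s : ℤ) : Set (ℤ → ℝ) := {f | ∃ S : Set ℤ, Inv 1 S ∧ ∃ δ : ℝ, HD s S δ ∧ f = bal s S δ}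

theorem Bal_same {s : ℤ} (hs : s = 1 ∨ s = -1) {f : ℤ → ℝ} (hf : f ∈ Bal s) : f ∈ SameT s := by
  obtain ⟨S, hS, δ, hδ, rfl⟩ := hf
  obtain ⟨d0, d1⟩ := HD_mem hs hδ
  exact bal_same hs hS d0 d1

theorem Bal_Tz {s : ℤ} (hs : s = 1 ∨ s = -1) {f : ℤ → ℝ} (hf : f ∈ Bal s) (x : ℤ) : f (Tz s x) = f x := by
  obtain ⟨S, hS, δ, hδ, rfl⟩ := hf
  unfold bal
  rw [ind_inv hs hS]

theorem Bal_two {s : ℤ} (hs : s = 1 ∨ s = -1) {f : ℤ → ℝ} (hf : f ∈ Bal s) (x : ℤ) : f (2 * x) = f x := by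
  rw [← Bal_Tz hs hf (2 * x)]
  unfold Tz
  rw [if_pos (by omega)]
  congr 1
  omega

theorem Bal_three {s : ℤ} (hs : s = 1 ∨ s = -1) {f : ℤ → ℝ} (hf : f ∈ Bal s) {x : ℤ} (hx : x % 2 = 1) :
    f (3 * x + s) = f x := by
  have h1 : 3 * x + s = 2 * Tz s x := by
    unfold Tz
    rw [if_neg (by omega)]
    rcases hs with rfl | rfl <;> omega
  rw [h1, Bal_two hs hf, Bal_Tz hs hf]

theorem Bal_abs {s : ℤ} (hs : s = 1 ∨ s = -1) {f : ℤ → ℝ} (hf : f ∈ Bal s) (n : ℤ) : |f n| ≤ 1 :=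
  (Bal_same hs hf).1 n

theorem Bal_loc {s : ℤ} (hs : s = 1 ∨ s = -1) {κ : ℝ} (hκ : 0 < κ) (j : ℕ) (c : ℤ) (hc : c % 2 = 1) (h : ℤ) (hh : |h| ≤ j) :
    ∃ X0 : ℕ, 1 ≤ X0 ∧ ∀ X : ℕ, X0 ≤ X → ∀ f ∈ Bal s, ∑ n ∈ Icc (1 : ℤ) X, |f (c * n + h) - f (c * n)| ≤ κ * X := by
  have hodd : Odd s := by rcases hs with rfl | rfl <;> decide
  have hss : s * s = 1 := by rcases hs with rfl | rfl <;> norm_num
  obtain ⟨θ, hθ, -, M0, hM0, H⟩ := lc hodd hss (show 0 < min κ 1 from lt_min hκ one_pos) (min_le_right _ _)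
  obtain ⟨M1, hM1⟩ := exists_nat_ge ((j : ℝ) ^ (1 / θ))
  refine ⟨M0 + M1, by omega, fun X hX f hf => ?_⟩
  have h1 : |(h : ℝ)| ≤ (X : ℝ) ^ θ := by
    have h2 : (j : ℝ) ^ (1 / θ) ≤ X := hM1.trans (by exact_mod_cast (by omega : M1 ≤ X))
    have h3 : ((j : ℝ) ^ (1 / θ)) ^ θ ≤ (X : ℝ) ^ θ := Real.rpow_le_rpow (by positivity) h2 hθ.le
    rw [← Real.rpow_mul (Nat.cast_nonneg _), one_div, inv_mul_cancel₀ hθ.ne', Real.rpow_one] at h3
    have h4 : |(h : ℝ)| ≤ j := by exact_mod_cast hh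
    linarith
  have h2 := H X (by omega) f (Bal_same hs hf) c hc 0 h h1
  rw [sum_cast]
  simp only [zero_add] at h2
  exact h2.trans (mul_le_mul_of_nonneg_right (min_le_left _ _) (Nat.cast_nonneg _))

theorem Bal_dil3 {s : ℤ} (hs : s = 1 ∨ s = -1) : Dil (Bal s) 3 := by
  intro κ hκ
  obtain ⟨X0, hX0, h1⟩ := Bal_loc hs (show 0 < κ / 4 by positivity) 1 3 (by norm_num) s (by rcases hs with rfl | rfl <;> simp)
  obtain ⟨X1, hX1⟩ := exists_nat_ge (4 * X0 / κ)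
  have key : ∀ X : ℕ, ∀ f ∈ Bal s, ∑ n ∈ Icc (1 : ℤ) X, |f ((3 : ℕ) * n) - f n| ≤ κ / 2 * X + 2 * X0 := by
    intro X
    induction X using Nat.strong_induction_on with
    | _ X ih =>
      intro f hf
      have hb : ∀ n : ℤ, |f ((3 : ℕ) * n) - f n| ≤ 2 := by
        intro n
        have a1 := abs_le.1 (Bal_abs hs hf ((3 : ℕ) * n))
        have a2 := abs_le.1 (Bal_abs hs hf n)
        rw [abs_le]; constructor <;> linarith [a1.1, a1.2, a2.1, a2.2]
      rcases Nat.lt_or_ge X X0 with hX | hX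
      · have h2 : ∑ n ∈ Icc (1 : ℤ) X, |f ((3 : ℕ) * n) - f n| ≤ 2 * X := by
          refine (sum_le_card_nsmul _ _ _ (fun n _ => hb n)).trans ?_
          rw [Int.card_Icc, nsmul_eq_mul, add_sub_cancel_right, Int.toNat_natCast]
          linarith
        have h3 : (X : ℝ) ≤ X0 := by exact_mod_cast hX.le
        have h4 : 0 ≤ κ / 2 * X := by positivity
        exact h2.trans (by linarith)
      · have h2 := h1 X hX f hf
        have h3 := ih (X / 2) (by omega) f hf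
        have h4 : ∑ n ∈ Icc (1 : ℤ) X, |f ((3 : ℕ) * n) - f n|
            ≤ ∑ n ∈ Icc (1 : ℤ) X, |f (3 * n + s) - f (3 * n)| + ∑ m ∈ Icc (1 : ℤ) ((X / 2 : ℕ) : ℤ), |f ((3 : ℕ) * m) - f m| := by
          have h5 : ∑ m ∈ Icc (1 : ℤ) ((X / 2 : ℕ) : ℤ), |f ((3 : ℕ) * m) - f m|
              = ∑ n ∈ (Icc (1 : ℤ) X).filter (fun n => n % 2 = 0), |f ((3 : ℕ) * n) - f n| := by
            have e1 : (Icc (1 : ℤ) X).filter (fun n => n % 2 = 0) = (Icc (1 : ℤ) ((X / 2 : ℕ) : ℤ)).image (fun m => 2 * m) := by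
              ext n
              rw [mem_filter, mem_Icc, mem_image]
              constructor
              · rintro ⟨⟨a1, a2⟩, a3⟩
                exact ⟨n / 2, by rw [mem_Icc]; omega, by omega⟩
              · rintro ⟨m, hm, rfl⟩
                rw [mem_Icc] at hm
                omega
            rw [e1, sum_image (by intro a _ b _ hab; simpa using hab)]
            apply sum_congr rfl
            intro m _
            have e2 : ((3 : ℕ) : ℤ) * (2 * m) = 2 * ((3 : ℕ) * m) := by ring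
            rw [e2, Bal_two hs hf, Bal_two hs hf]
          rw [h5, ← sum_filter_add_sum_filter_not (Icc (1 : ℤ) X) (fun n : ℤ => n % 2 = 0) (fun n => |f ((3 : ℕ) * n) - f n|)]
          have h6 : ∑ n ∈ (Icc (1 : ℤ) X).filter (fun n => ¬ n % 2 = 0), |f ((3 : ℕ) * n) - f n|
              ≤ ∑ n ∈ Icc (1 : ℤ) X, |f (3 * n + s) - f (3 * n)| := by
            have e3 : ∑ n ∈ (Icc (1 : ℤ) X).filter (fun n => ¬ n % 2 = 0), |f ((3 : ℕ) * n) - f n|
                = ∑ n ∈ (Icc (1 : ℤ) X).filter (fun n => ¬ n % 2 = 0), |f (3 * n + s) - f (3 * n)| := by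
              apply sum_congr rfl
              intro n hn
              rw [mem_filter] at hn
              rw [Bal_three hs hf (by omega), abs_sub_comm]
              push_cast
              rfl
            rw [e3]
            exact sum_le_sum_of_subset_of_nonneg (filter_subset _ _) fun _ _ _ => abs_nonneg _
          linarith
        have h5 : ((X / 2 : ℕ) : ℝ) ≤ X / 2 := by
          have := @Nat.cast_div_le ℝ _ _ _ X 2
          exact_mod_cast this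
        have h6 : κ / 2 * ((X / 2 : ℕ) : ℝ) ≤ κ / 2 * (X / 2) := mul_le_mul_of_nonneg_left h5 (by positivity)
        linarith
  refine ⟨X1, fun X hX f hf => (key X f hf).trans ?_⟩
  have h2 : 4 * (X0 : ℝ) / κ ≤ X := hX1.trans (by exact_mod_cast hX)
  rw [div_le_iff₀ hκ] at h2
  linarith

theorem pow_ne (k j : ℕ) (hk : 1 ≤ k) (_hj : 1 ≤ j) : (2 : ℕ) ^ k ≠ 3 ^ j := by
  intro h
  have h1 : Even ((2 : ℕ) ^ k) := Nat.even_pow.2 ⟨by decide, by omega⟩
  rw [h] at h1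
  have h2 : Odd ((3 : ℕ) ^ j) := Odd.pow (by decide)
  exact (Nat.not_even_iff_odd.2 h2) h1

theorem Bal_fou {s : ℤ} (hs : s = 1 ∨ s = -1) {κ : ℝ} (hκ : 0 < κ) : ∃ X0 : ℕ, ∀ X : ℕ, X0 ≤ X → ∀ f ∈ Bal s, ∀ M N : ℕ, M ≤ N → N ≤ X →
    ∀ (p : ℕ) [NeZero p] (ζ : ZMod p), ‖∑ n ∈ Icc (1 : ℤ) X, (win M N f n : ℂ) * psi p (ζ * n)‖ ≤ κ * X := by
  obtain ⟨N0, -, H⟩ := fourier_int hs (show 0 < min κ 1 from lt_min hκ one_pos) (min_le_right _ _)
  refine ⟨N0, fun X hX f hf M N hMN hN p hp ζ => ?_⟩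
  obtain ⟨S, hS, δ, hδ, rfl⟩ := hf
  have h1 := H S hS δ hδ X hX N hN M hMN ((ζ.val : ℝ) / p)
  have e1 : ∑ n ∈ Icc (1 : ℤ) X, (win M N (bal s S δ) n : ℂ) * psi p (ζ * n) = EE (res M N (bal s S δ)) X ((ζ.val : ℝ) / p) := by
    rw [sum_cast]
    unfold EE
    apply sum_congr rfl
    intro n _
    have e2 : psi p (ζ * ((n : ℕ) : ℤ)) = ee ((ζ.val : ℝ) / p) (n : ℕ) := by
      have e3 : ζ * (((n : ℕ) : ℤ) : ZMod p) = (((ζ.val : ℤ) * (n : ℕ) : ℤ) : ZMod p) := by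
        push_cast
        rw [ZMod.natCast_zmod_val]
      rw [e3, psi_int]
      unfold ee
      congr 1
      push_cast
      ring
    rw [e2]
    rfl
  rw [e1]
  exact h1.trans (mul_le_mul_of_nonneg_right (min_le_left _ _) (Nat.cast_nonneg _))

theorem Bal_hyp {s : ℤ} (hs : s = 1 ∨ s = -1) : Hyp (Bal s) 2 3 where
  abs := fun _ hf n => Bal_abs hs hf n
  loc := by
    intro κ hκ j
    obtain ⟨X0, -, h⟩ := Bal_loc hs hκ j 1 (by norm_num) j (by simp)
    refine ⟨X0, fun X hX f hf => ?_⟩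
    have := h X hX f hf
    simpa only [one_mul] using this
  dilA := by
    intro κ hκ
    refine ⟨0, fun X _ f hf => ?_⟩
    have : ∑ n ∈ Icc (1 : ℤ) X, |f ((2 : ℕ) * n) - f n| = 0 := by
      apply sum_eq_zero
      intro n _
      have e : ((2 : ℕ) : ℤ) * n = 2 * n := by push_cast; rfl
      rw [e, Bal_two hs hf]; simp
    rw [this]; positivity
  dilB := Bal_dil3 hs
  two_leA := le_rfl
  two_leB := by norm_num
  ind := pow_ne
  fou := fun _ hκ => Bal_fou hs hκ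

end Pool.Agent.W36.GU
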