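import Pool.Agent.W36.GU.GU6

/-! Ratios close to one and the hypotheses. -/

set_option autoImplicit false

namespace Pool.Agent.W36.GU

open Finset

/-- powers of two multiplicatively independent numbers whose ratio is close to one -/
theorem ratios {A B : ℕ} (hA : 2 ≤ A) (hB : 2 ≤ B) (hind : ∀ k j : ℕ, 1 ≤ k → 1 ≤ j → A ^ k ≠ B ^ j) (L : ℕ) {η : ℝ}
    (hη : 0 < η) : ∃ k j : ℕ, 1 ≤ k ∧ 1 ≤ j ∧ ∀ i ≤ L,
      1 - ((min (A ^ k) (B ^ j) ^ i : ℕ) : ℝ) / ((max (A ^ k) (B ^ j) ^ i : ℕ) : ℝ) ≤ η := by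
  have hA0 : (1 : ℝ) < A := by exact_mod_cast (by omega : 1 < A)
  have hB0 : (1 : ℝ) < B := by exact_mod_cast (by omega : 1 < B)
  have lA : 0 < Real.log A := Real.log_pos hA0
  have lB : 0 < Real.log B := Real.log_pos hB0
  set ξ := Real.log A / Real.log B with hξ
  have hξ0 : 0 < ξ := div_pos lA lB
  obtain ⟨n, hn⟩ := exists_nat_ge (L * Real.log B / η + 1 / ξ + 1)
  have hn1 : (1 : ℝ) ≤ n := by
    have h1 : 0 ≤ L * Real.log B / η := by positivity
    have h2 : 0 < 1 / ξ := by positivity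
    linarith
  have hn0 : 0 < n := by exact_mod_cast (by linarith : (0 : ℝ) < n)
  obtain ⟨j, k, hk0, hkn, hjk⟩ := Real.exists_int_int_abs_mul_sub_le ξ hn0
  have hn2 : (0 : ℝ) < n + 1 := by linarith
  have hd : |(k : ℝ) * Real.log A - j * Real.log B| ≤ Real.log B / (n + 1) := by
    have e : (k : ℝ) * Real.log A - j * Real.log B = (k * ξ - j) * Real.log B := by
      rw [hξ]; field_simp
    rw [e, abs_mul, abs_of_pos lB]
    calc |(k : ℝ) * ξ - j| * Real.log B ≤ 1 / (n + 1) * Real.log B := mul_le_mul_of_nonneg_right hjk lB.le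
      _ = _ := by ring
  have hj0 : 0 < j := by
    by_contra hcon
    push Not at hcon
    have h1 : (j : ℝ) ≤ 0 := by exact_mod_cast hcon
    have h2 : (1 : ℝ) ≤ k := by exact_mod_cast hk0
    have h3 : ξ ≤ k * ξ - j := by nlinarith
    have h4 : ξ ≤ 1 / (n + 1) := (h3.trans (le_abs_self _)).trans hjk
    have h5 : 1 / ξ < n + 1 := by
      have : 0 ≤ L * Real.log B / η := by positivity
      linarith
    have h6 : 1 / ((n : ℝ) + 1) < ξ := by
      rw [div_lt_iff₀ hn2]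
      rw [div_lt_iff₀ hξ0] at h5
      linarith
    linarith
  obtain ⟨k', rfl⟩ := Int.eq_ofNat_of_zero_le hk0.le
  obtain ⟨j', rfl⟩ := Int.eq_ofNat_of_zero_le hj0.le
  refine ⟨k', j', by omega, by omega, fun i hi => ?_⟩
  have hpos1 : (0 : ℝ) < ((A ^ k' : ℕ) : ℝ) := by positivity
  have hpos2 : (0 : ℝ) < ((B ^ j' : ℕ) : ℝ) := by positivity
  have lk : Real.log ((A ^ k' : ℕ) : ℝ) = k' * Real.log A := by push_cast; rw [Real.log_pow]
  have lj : Real.log ((B ^ j' : ℕ) : ℝ) = j' * Real.log B := by push_cast; rw [Real.log_pow]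
  have key : ∀ v u : ℕ, 0 < v → 0 < u → Real.log u - Real.log v ≤ Real.log B / (n + 1) →
      1 - ((v ^ i : ℕ) : ℝ) / ((u ^ i : ℕ) : ℝ) ≤ η := by
    intro v u hv hu hvu
    have hv0 : (0 : ℝ) < v := by exact_mod_cast hv
    have hu0 : (0 : ℝ) < u := by exact_mod_cast hu
    have e1 : ((v ^ i : ℕ) : ℝ) / ((u ^ i : ℕ) : ℝ) = Real.exp (-(i * (Real.log u - Real.log v))) := by
      rw [← Real.log_div hu0.ne' hv0.ne', ← mul_neg, ← Real.log_inv, inv_div, Real.exp_nat_mul, Real.exp_log (by positivity)]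
      push_cast
      rw [div_pow]
    rw [e1]
    have h1 := Real.add_one_le_exp (-(i * (Real.log u - Real.log v)))
    have h2 : (i : ℝ) * (Real.log u - Real.log v) ≤ η := by
      have hi0 : (0 : ℝ) ≤ i := Nat.cast_nonneg _
      have hiL : (i : ℝ) ≤ L := by exact_mod_cast hi
      have h3 : (i : ℝ) * (Real.log u - Real.log v) ≤ i * (Real.log B / (n + 1)) := mul_le_mul_of_nonneg_left hvu hi0
      have h4 : (i : ℝ) * (Real.log B / (n + 1)) ≤ L * (Real.log B / (n + 1)) := mul_le_mul_of_nonneg_right hiL (by positivity)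
      have h5 : (L : ℝ) * (Real.log B / (n + 1)) ≤ η := by
        rw [mul_div_assoc', div_le_iff₀ hn2]
        have h6 : L * Real.log B / η ≤ n + 1 := by
          have : 0 < 1 / ξ := by positivity
          linarith
        rw [div_le_iff₀ hη] at h6
        linarith
      linarith
    linarith
  rcases le_total (A ^ k') (B ^ j') with h | h
  · rw [min_eq_left h, max_eq_right h]
    apply key _ _ (by positivity) (by positivity)
    rw [lk, lj]
    have := abs_le.1 hd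
    push_cast at this
    linarith [this.1]
  · rw [min_eq_right h, max_eq_left h]
    apply key _ _ (by positivity) (by positivity)
    rw [lk, lj]
    have := abs_le.1 hd
    push_cast at this
    linarith [this.2]

/-- the mean change under multiplication by `a` is small, uniformly in the class -/
def Dil (F : Set (ℤ → ℝ)) (a : ℕ) : Prop :=
  ∀ κ : ℝ, 0 < κ → ∃ X0 : ℕ, ∀ X : ℕ, X0 ≤ X → ∀ f ∈ F, ∑ n ∈ Icc (1 : ℤ) X, |f (a * n) - f n| ≤ κ * X

theorem Dil.one (F : Set (ℤ → ℝ)) : Dil F 1 := by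
  intro κ hκ
  refine ⟨0, fun X _ f _ => ?_⟩
  simp only [Nat.cast_one, one_mul, sub_self, abs_zero, sum_const_zero]
  positivity

theorem Dil.mul {F : Set (ℤ → ℝ)} {a b : ℕ} (hb1 : 1 ≤ b) (ha : Dil F a) (hb : Dil F b) : Dil F (a * b) := by
  intro κ hκ
  have hb0 : (0 : ℝ) < b := by exact_mod_cast hb1
  obtain ⟨X1, h1⟩ := ha (κ / (2 * b)) (by positivity)
  obtain ⟨X2, h2⟩ := hb (κ / 2) (by positivity)
  refine ⟨X1 + X2, fun X hX f hf => ?_⟩
  have h3 := h1 (b * X) (by nlinarith) f hf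
  have h4 := h2 X (by omega) f hf
  have h5 : ∑ n ∈ Icc (1 : ℤ) X, |f (a * (b * n)) - f (b * n)| ≤ ∑ n ∈ Icc (1 : ℤ) (b * X : ℕ), |f (a * n) - f n| := by
    have e : ∑ n ∈ Icc (1 : ℤ) X, |f (a * (b * n)) - f (b * n)|
        = ∑ n ∈ (Icc (1 : ℤ) X).image (fun n => (b : ℤ) * n), |f (a * n) - f n| := by
      rw [sum_image]
      intro x _ y _ hxy
      exact mul_left_cancel₀ (by exact_mod_cast (by omega : b ≠ 0)) hxy
    rw [e]
    apply sum_le_sum_of_subset_of_nonneg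
    · intro y hy
      rw [mem_image] at hy
      obtain ⟨x, hx, rfl⟩ := hy
      rw [mem_Icc] at hx ⊢
      have hb2 : (1 : ℤ) ≤ b := by exact_mod_cast hb1
      constructor
      · nlinarith
      · push_cast
        nlinarith
    · intro _ _ _; exact abs_nonneg _
  have h6 : ∑ n ∈ Icc (1 : ℤ) X, |f ((a * b : ℕ) * n) - f n|
      ≤ ∑ n ∈ Icc (1 : ℤ) X, |f (a * (b * n)) - f (b * n)| + ∑ n ∈ Icc (1 : ℤ) X, |f (b * n) - f n| := by
    rw [← sum_add_distrib]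
    apply sum_le_sum
    intro n _
    have e : (((a * b : ℕ) : ℤ)) * n = a * (b * n) := by push_cast; ring
    rw [e]
    exact abs_sub_le _ _ _
  have h7 : κ / (2 * b) * ((b * X : ℕ) : ℝ) = κ / 2 * X := by push_cast; field_simp
  rw [h7] at h3
  linarith

theorem Dil.pow {F : Set (ℤ → ℝ)} {a : ℕ} (ha1 : 1 ≤ a) (ha : Dil F a) (m : ℕ) : Dil F (a ^ m) := by
  induction m with
  | zero => rw [pow_zero]; exact Dil.one F
  | succ m ih => rw [pow_succ]; exact Dil.mul ha1 ih ha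

/-- The hypotheses on a class of bounded functions: local constancy, approximate invariance under the dilations by
two multiplicatively independent integers, and small Fourier coefficients on all windows. -/
structure Hyp (F : Set (ℤ → ℝ)) (A B : ℕ) : Prop where
  abs : ∀ f ∈ F, ∀ n, |f n| ≤ 1
  loc : ∀ κ : ℝ, 0 < κ → ∀ j : ℕ, ∃ X0 : ℕ, ∀ X : ℕ, X0 ≤ X → ∀ f ∈ F, ∑ n ∈ Icc (1 : ℤ) X, |f (n + j) - f n| ≤ κ * X
  dilA : Dil F A
  dilB : Dil F B
  two_leA : 2 ≤ A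
  two_leB : 2 ≤ B
  ind : ∀ k j : ℕ, 1 ≤ k → 1 ≤ j → A ^ k ≠ B ^ j
  fou : ∀ κ : ℝ, 0 < κ → ∃ X0 : ℕ, ∀ X : ℕ, X0 ≤ X → ∀ f ∈ F, ∀ M N : ℕ, M ≤ N → N ≤ X →
    ∀ (p : ℕ) [NeZero p] (ζ : ZMod p), ‖∑ n ∈ Icc (1 : ℤ) X, (win M N f n : ℂ) * psi p (ζ * n)‖ ≤ κ * X

theorem Hyp.loc_all {F : Set (ℤ → ℝ)} {A B : ℕ} (H : Hyp F A B) {κ : ℝ} (hκ : 0 < κ) (J : ℕ) : ∃ X0 : ℕ, ∀ X : ℕ, X0 ≤ X →
    ∀ f ∈ F, ∀ j : ℕ, j ≤ J → ∑ n ∈ Icc (1 : ℤ) X, |f (n + j) - f n| ≤ κ * X := by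
  induction J with
  | zero =>
    obtain ⟨X0, h⟩ := H.loc κ hκ 0
    refine ⟨X0, fun X hX f hf j hj => ?_⟩
    obtain rfl : j = 0 := by omega
    exact h X hX f hf
  | succ J ih =>
    obtain ⟨X0, h⟩ := H.loc κ hκ (J + 1)
    obtain ⟨X1, h1⟩ := ih
    refine ⟨X0 + X1, fun X hX f hf j hj => ?_⟩
    rcases Nat.lt_or_ge j (J + 1) with h2 | h2
    · exact h1 X (by omega) f hf j (by omega)
    · obtain rfl : j = J + 1 := by omega
      exact h X (by omega) f hf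

theorem Dil.all {F : Set (ℤ → ℝ)} {a : ℕ} (ha1 : 1 ≤ a) (ha : Dil F a) {κ : ℝ} (hκ : 0 < κ) (L : ℕ) : ∃ X0 : ℕ, ∀ X : ℕ, X0 ≤ X →
    ∀ f ∈ F, ∀ i : ℕ, i ≤ L → ∑ n ∈ Icc (1 : ℤ) X, |f ((a ^ i : ℕ) * n) - f n| ≤ κ * X := by
  induction L with
  | zero =>
    obtain ⟨X0, h⟩ := ha.pow ha1 0 κ hκ
    refine ⟨X0, fun X hX f hf j hj => ?_⟩
    obtain rfl : j = 0 := by omega
    exact h X hX f hf
  | succ J ih =>
    obtain ⟨X0, h⟩ := ha.pow ha1 (J + 1) κ hκ
    obtain ⟨X1, h1⟩ := ih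
    refine ⟨X0 + X1, fun X hX f hf j hj => ?_⟩
    rcases Nat.lt_or_ge j (J + 1) with h2 | h2
    · exact h1 X (by omega) f hf j (by omega)
    · obtain rfl : j = J + 1 := by omega
      exact h X (by omega) f hf

end Pool.Agent.W36.GU
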