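import Pool.Agent.W36.GU.GU7

/-! The universe of large correlations, pigeonhole for dilations, arithmetic of collisions. -/

set_option autoImplicit false

namespace Pool.Agent.W36.GU

open Finset

variable {p : ℕ} [NeZero p]

theorem A_zero {g : ℤ → ℝ} {X : ℕ} (hs : Sup g X) {h : ℤ} (hh : (X : ℤ) ≤ |h|) (ξ : ZMod p) : A p g X h ξ = 0 := by
  unfold A
  apply sum_eq_zero
  intro n _
  have h0 : g n * g (n + h) = 0 := by
    by_contra hne
    have h1 := hs n (left_ne_zero_of_mul hne)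
    have h2 := hs (n + h) (right_ne_zero_of_mul hne)
    rw [le_abs] at hh
    omega
  rw [h0]; simp

theorem A_pos {g : ℤ → ℝ} {X : ℕ} (hs : Sup g X) {h : ℤ} {ξ : ZMod p} {σ : ℝ} (hσ : 0 < σ) (hX : 1 ≤ X)
    (hA : σ * X ≤ ‖A p g X h ξ‖) : |h| < X := by
  by_contra hcon
  push Not at hcon
  rw [A_zero hs hcon, norm_zero] at hA
  have : (0 : ℝ) < X := by exact_mod_cast hX
  have := mul_pos hσ this
  linarith

/-- the mean square of the correlations at a fixed frequency -/
theorem upper {g : ℤ → ℝ} (hg : ∀ n, |g n| ≤ 1) {X : ℕ} (hs : Sup g X) (hp : 2 * X < p) {S : ℝ}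
    (hS : ∀ ζ : ZMod p, ‖∑ n ∈ Icc (1 : ℤ) X, (g n : ℂ) * psi p (ζ * n)‖ ≤ S) (ξ : ZMod p) :
    ∑ h ∈ Icc (-(X : ℤ)) X, ‖A p g X h ξ‖ ^ 2 ≤ S ^ 2 * X := by
  have hp0 : (0 : ℝ) < p := by exact_mod_cast NeZero.pos p
  have hinj : Set.InjOn (fun n : ℤ => (n : ZMod p)) (Icc (-(X : ℤ)) X : Finset ℤ) := by
    intro a ha b hb hab
    simp only [coe_Icc, Set.mem_Icc] at ha hb
    simp only at hab
    rw [ZMod.intCast_eq_intCast_iff_dvd_sub] at hab
    obtain ⟨k, hk⟩ := hab
    have hp1 : (2 * (X : ℤ)) < p := by exact_mod_cast hp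
    have hk0 : k = 0 := by
      by_contra hne
      rcases lt_or_gt_of_ne hne with h5 | h5
      · have : (p : ℤ) * k ≤ (p : ℤ) * (-1) := mul_le_mul_of_nonneg_left (by omega) (by omega)
        omega
      · have : (p : ℤ) * 1 ≤ (p : ℤ) * k := mul_le_mul_of_nonneg_left (by omega) (by omega)
        omega
    rw [hk0] at hk
    omega
  have h1 := parseval_inj (p := p) (Icc (-(X : ℤ)) X) (fun n : ℤ => (n : ZMod p)) hinj (fun h => A p g X h ξ)
  have h2 : ∀ ζ : ZMod p, ∑ h ∈ Icc (-(X : ℤ)) X, A p g X h ξ * psi p (ζ * h)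
      = (∑ n ∈ Icc (1 : ℤ) X, (g n : ℂ) * psi p ((ξ - ζ) * n)) * ∑ m ∈ Icc (1 : ℤ) X, (g m : ℂ) * psi p (ζ * m) := by
    intro ζ
    unfold A
    simp only [sum_mul]
    rw [sum_comm]
    apply sum_congr rfl
    intro n hn
    rw [mem_Icc] at hn
    have h3 : ∑ m ∈ Icc (1 : ℤ) X, (g m : ℂ) * psi p (ζ * m) = ∑ h ∈ Icc (-(X : ℤ)) X, (g (n + h) : ℂ) * psi p (ζ * (n + h : ℤ)) := by
      have e1 : ∑ h ∈ Icc (-(X : ℤ)) X, (g (n + h) : ℂ) * psi p (ζ * (n + h : ℤ))
          = ∑ m ∈ (Icc (-(X : ℤ)) X).map (addLeftEmbedding n), (g m : ℂ) * psi p (ζ * m) := by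
        rw [sum_map]; rfl
      rw [e1]
      apply sum_subset
      · intro m hm
        rw [mem_Icc] at hm
        rw [mem_map]
        exact ⟨m - n, by rw [mem_Icc]; omega, by simp⟩
      · intro m _ hm
        have : g m = 0 := by
          by_contra h
          exact hm (by rw [mem_Icc]; exact hs m h)
        rw [this]; simp
    rw [h3, mul_sum]
    apply sum_congr rfl
    intro h _
    have e2 : psi p (ξ * n) * psi p (ζ * h) = psi p ((ξ - ζ) * n) * psi p (ζ * (n + h : ℤ)) := by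
      rw [← psi_add, ← psi_add]; congr 1; push_cast; ring
    push_cast at e2 ⊢
    linear_combination ((g n : ℂ) * g (n + h)) * e2
  have h3 : ∑ ζ : ZMod p, ‖∑ h ∈ Icc (-(X : ℤ)) X, A p g X h ξ * psi p (ζ * h)‖ ^ 2 ≤ S ^ 2 * (p * X) := by
    have h4 : ∀ ζ ∈ (univ : Finset (ZMod p)), ‖∑ h ∈ Icc (-(X : ℤ)) X, A p g X h ξ * psi p (ζ * h)‖ ^ 2
        ≤ S ^ 2 * ‖∑ m ∈ Icc (1 : ℤ) X, (g m : ℂ) * psi p (ζ * m)‖ ^ 2 := by
      intro ζ _
      rw [h2 ζ, norm_mul, mul_pow]
      apply mul_le_mul_of_nonneg_right _ (sq_nonneg _)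
      exact pow_le_pow_left₀ (norm_nonneg _) (hS _) 2
    refine (sum_le_sum h4).trans ?_
    rw [← mul_sum, parseval_inj (Icc (1 : ℤ) X) (fun n : ℤ => (n : ZMod p)) (cast_inj (by omega))]
    apply mul_le_mul_of_nonneg_left _ (sq_nonneg _)
    apply mul_le_mul_of_nonneg_left _ hp0.le
    have h5 : ∀ n ∈ Icc (1 : ℤ) X, ‖(g n : ℂ)‖ ^ 2 ≤ 1 := by
      intro n _
      rw [Complex.norm_real, Real.norm_eq_abs]
      exact pow_le_one₀ (abs_nonneg _) (hg n)
    refine (sum_le_sum h5).trans ?_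
    simp
  rw [h1] at h3
  have h4 : (p : ℝ) * ∑ h ∈ Icc (-(X : ℤ)) X, ‖A p g X h ξ‖ ^ 2 ≤ p * (S ^ 2 * X) := by linarith
  exact le_of_mul_le_mul_left h4 hp0

open Classical in
theorem card_U {g : ℤ → ℝ} (hg : ∀ n, |g n| ≤ 1) {X : ℕ} (hX : 1 ≤ X) (hp : X ≤ p) {Q : ℕ} (hQ : 1 ≤ Q) (hQX : Q ≤ X)
    {σ : ℝ} (hσ : 0 < σ) :
    ((((Icc (-((X / Q : ℕ) : ℤ)) ((X / Q : ℕ) : ℤ)) ×ˢ (univ : Finset (ZMod p))).filter
      (fun b => σ * X ≤ ‖A p g X (Q * b.1) b.2‖)).card : ℝ) ≤ (3 * (X / Q)) * (p / (σ ^ 2 * X)) := by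
  have hX0 : (0 : ℝ) < X := by exact_mod_cast hX
  have hQ0 : (0 : ℝ) < Q := by exact_mod_cast hQ
  have hp0 : (0 : ℝ) < p := by exact_mod_cast NeZero.pos p
  have h1 : ∀ α : ℤ, (((univ : Finset (ZMod p)).filter (fun ξ => σ * X ≤ ‖A p g X (Q * α) ξ‖)).card : ℝ) ≤ p / (σ ^ 2 * X) := by
    intro α
    have h2 := A_sq hg hp (Q * α)
    have h3 : (((univ : Finset (ZMod p)).filter (fun ξ => σ * X ≤ ‖A p g X (Q * α) ξ‖)).card : ℝ) * (σ * X) ^ 2
        ≤ ∑ ξ : ZMod p, ‖A p g X (Q * α) ξ‖ ^ 2 := by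
      rw [← nsmul_eq_mul]
      refine (card_nsmul_le_sum _ (fun ξ => ‖A p g X (Q * α) ξ‖ ^ 2) _ ?_).trans
        (sum_le_sum_of_subset_of_nonneg (filter_subset _ _) fun _ _ _ => sq_nonneg _)
      intro ξ hξ
      exact pow_le_pow_left₀ (by positivity) (mem_filter.1 hξ).2 2
    rw [le_div_iff₀ (by positivity)]
    have h4 := h3.trans h2
    have h5 : ((((univ : Finset (ZMod p)).filter (fun ξ => σ * X ≤ ‖A p g X (Q * α) ξ‖)).card : ℝ) * (σ ^ 2 * X)) * X ≤ p * X := by
      linarith [h4]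
    exact le_of_mul_le_mul_right h5 hX0
  have h2 : (((Icc (-((X / Q : ℕ) : ℤ)) ((X / Q : ℕ) : ℤ)) ×ˢ (univ : Finset (ZMod p))).filter
      (fun b => σ * X ≤ ‖A p g X (Q * b.1) b.2‖)).card
      = ∑ α ∈ Icc (-((X / Q : ℕ) : ℤ)) ((X / Q : ℕ) : ℤ), ((univ : Finset (ZMod p)).filter (fun ξ => σ * X ≤ ‖A p g X (Q * α) ξ‖)).card := by
    rw [card_filter, sum_product]
    apply sum_congr rfl
    intro α _
    rw [card_filter]
  rw [h2, Nat.cast_sum]
  refine (sum_le_card_nsmul _ _ _ (fun α _ => h1 α)).trans ?_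
  rw [nsmul_eq_mul]
  apply mul_le_mul_of_nonneg_right _ (by positivity)
  rw [Int.card_Icc]
  have h3 : (((X / Q : ℕ) : ℤ) + 1 - -((X / Q : ℕ) : ℤ)).toNat = 2 * (X / Q) + 1 := by
    generalize X / Q = Y
    omega
  rw [h3]
  have h4 : ((X / Q : ℕ) : ℝ) ≤ X / Q := Nat.cast_div_le
  have h5 : (1 : ℝ) ≤ X / Q := by rw [le_div_iff₀ hQ0, one_mul]; exact_mod_cast hQX
  push_cast
  linarith

/-- injective maps into a small set have large coincidences -/
theorem pigeon {β : Type*} [DecidableEq β] {B U : Finset β} (hB : B.Nonempty) {L : ℕ} (D : ℕ → β → β)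
    (hD : ∀ i < L, ∀ b ∈ B, D i b ∈ U) (hinj : ∀ i < L, Set.InjOn (D i) B) (hU : 2 * U.card ≤ L * B.card) (hL : 1 ≤ L) :
    ∃ i < L, ∃ j < L, i ≠ j ∧ B.card ≤ L * (B.filter (fun b => ∃ b' ∈ B, D i b = D j b')).card := by
  by_contra hcon
  push Not at hcon
  have hB0 : 1 ≤ B.card := hB.card_pos
  have key : ∀ k ≤ L, (L : ℤ) * (2 * k * B.card) ≤ L * (2 * ((range k).biUnion (fun i => B.image (D i))).card)
      + k * (k - 1) * ((B.card : ℤ) - 1) := by
    intro k
    induction k with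
    | zero => intro _; simp
    | succ k ih =>
      intro hk
      have ih1 := ih (by omega)
      rw [range_add_one, biUnion_insert]
      have h1 := card_union_add_card_inter (B.image (D k)) ((range k).biUnion (fun i => B.image (D i)))
      have h2 : (B.image (D k)).card = B.card := card_image_of_injOn (hinj k (by omega))
      have h3 : (L : ℤ) * ((B.image (D k)) ∩ ((range k).biUnion (fun i => B.image (D i)))).card ≤ k * ((B.card : ℤ) - 1) := by
        have h4 : ((B.image (D k)) ∩ ((range k).biUnion (fun i => B.image (D i)))).card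
            ≤ ∑ i ∈ range k, (B.filter (fun b => ∃ b' ∈ B, D k b = D i b')).card := by
          have h5 : (B.image (D k)) ∩ ((range k).biUnion (fun i => B.image (D i)))
              ⊆ (range k).biUnion (fun i => (B.filter (fun b => ∃ b' ∈ B, D k b = D i b')).image (D k)) := by
            intro y hy
            rw [mem_inter, mem_image, mem_biUnion] at hy
            obtain ⟨⟨b, hb, rfl⟩, i, hi, hy⟩ := hy
            rw [mem_image] at hy
            obtain ⟨b', hb', h6⟩ := hy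
            rw [mem_biUnion]
            refine ⟨i, hi, ?_⟩
            rw [mem_image]
            exact ⟨b, by rw [mem_filter]; exact ⟨hb, b', hb', h6.symm⟩, rfl⟩
          refine (card_le_card h5).trans (card_biUnion_le.trans ?_)
          apply sum_le_sum
          intro i _
          exact card_image_le
        have h5 : ∀ i ∈ range k, (L : ℤ) * (B.filter (fun b => ∃ b' ∈ B, D k b = D i b')).card ≤ (B.card : ℤ) - 1 := by
          intro i hi
          rw [mem_range] at hi
          have := hcon k (by omega) i (by omega) (by omega)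
          have h7 : ((L * (B.filter (fun b => ∃ b' ∈ B, D k b = D i b')).card : ℕ) : ℤ) < B.card := by exact_mod_cast this
          push_cast at h7
          omega
        calc (L : ℤ) * ((B.image (D k)) ∩ ((range k).biUnion (fun i => B.image (D i)))).card
            ≤ L * ((∑ i ∈ range k, (B.filter (fun b => ∃ b' ∈ B, D k b = D i b')).card : ℕ) : ℤ) := by
              apply mul_le_mul_of_nonneg_left _ (Int.natCast_nonneg _)
              exact_mod_cast h4
          _ = ∑ i ∈ range k, (L : ℤ) * (B.filter (fun b => ∃ b' ∈ B, D k b = D i b')).card := by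
              push_cast; rw [mul_sum]
          _ ≤ ∑ i ∈ range k, ((B.card : ℤ) - 1) := sum_le_sum h5
          _ = k * ((B.card : ℤ) - 1) := by rw [sum_const, card_range, nsmul_eq_mul]
      rw [h2] at h1
      have h6 : (((B.image (D k)) ∪ ((range k).biUnion (fun i => B.image (D i)))).card : ℤ)
          + ((B.image (D k)) ∩ ((range k).biUnion (fun i => B.image (D i)))).card
          = B.card + ((range k).biUnion (fun i => B.image (D i))).card := by exact_mod_cast h1
      have h7 : (((B.image (D k)) ∪ ((range k).biUnion (fun i => B.image (D i)))).card : ℤ)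
          = B.card + ((range k).biUnion (fun i => B.image (D i))).card
            - ((B.image (D k)) ∩ ((range k).biUnion (fun i => B.image (D i)))).card := by linarith
      rw [h7]
      push_cast
      nlinarith
  have h1 := key L le_rfl
  have h2 : ((range L).biUnion (fun i => B.image (D i))).card ≤ U.card := by
    apply card_le_card
    intro y hy
    rw [mem_biUnion] at hy
    obtain ⟨i, hi, hy⟩ := hy
    rw [mem_image] at hy
    obtain ⟨b, hb, rfl⟩ := hy
    exact hD i (mem_range.1 hi) b hb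
  have h3 : (2 * ((range L).biUnion (fun i => B.image (D i))).card : ℤ) ≤ L * B.card := by
    have : 2 * ((range L).biUnion (fun i => B.image (D i))).card ≤ L * B.card := by omega
    exact_mod_cast this
  have hL0 : (1 : ℤ) ≤ L := by exact_mod_cast hL
  have hB1 : (1 : ℤ) ≤ B.card := by exact_mod_cast hB0
  have h4 : (L : ℤ) * (2 * L * B.card) ≤ L * (L * B.card) + L * (L - 1) * ((B.card : ℤ) - 1) := by
    have := mul_le_mul_of_nonneg_left h3 (show (0 : ℤ) ≤ L by omega)
    linarith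
  nlinarith [mul_nonneg (show (0 : ℤ) ≤ (L : ℤ) - 1 by omega) (show (0 : ℤ) ≤ (B.card : ℤ) - 1 by omega),
    mul_pos (show (0 : ℤ) < L by omega) (show (0 : ℤ) < L by omega)]

end Pool.Agent.W36.GU
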