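import Pool.Agent.H217R3.AK.Bsg

/-! Small doubling: boundedly many elements of `m B - n B` over a given first coordinate. -/

set_option autoImplicit false

namespace Pool.Agent.W36.GU

open Finset
open scoped Pointwise

theorem fibre_le {p : ℕ} [NeZero p] {B : Finset (ℤ × ZMod p)} (hB : B.Nonempty)
    (hgr : ∀ b ∈ B, ∀ b' ∈ B, b.1 = b'.1 → b = b') {K1 : ℝ} (hK1 : ((B - B).card : ℝ) ≤ K1 * B.card)
    (m n : ℕ) (e : ℤ) :
    ((univ.filter (fun w : ZMod p => (e, w) ∈ m • B - n • B)).card : ℝ) ≤ K1 ^ (m + n + 1) := by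
  set V := univ.filter (fun w : ZMod p => (e, w) ∈ m • B - n • B) with hV
  have hB0 : (0 : ℝ) < B.card := by exact_mod_cast hB.card_pos
  have h1 : V.card * B.card ≤ ((m + 1) • B - n • B).card := by
    rw [← card_product]
    apply card_le_card_of_injOn (fun q : ZMod p × (ℤ × ZMod p) => q.2 + (e, q.1))
    · rintro ⟨w, b⟩ hq
      rw [mem_coe, mem_product, hV, mem_filter] at hq
      obtain ⟨⟨-, hw⟩, hb⟩ := hq
      simp only at hw hb ⊢
      obtain ⟨x, hx, y, hy, hxy⟩ := mem_sub.1 hw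
      rw [mem_coe, ← hxy]
      have e1 : b + (x - y) = (x + b) - y := by abel
      rw [e1]
      apply sub_mem_sub _ hy
      rw [succ_nsmul]
      exact add_mem_add hx hb
    · rintro ⟨w, b⟩ hq ⟨w', b'⟩ hq' h
      rw [mem_coe, mem_product, hV, mem_filter] at hq hq'
      simp only at h hq hq'
      have h1 : b.1 = b'.1 := by
        have := congrArg Prod.fst h
        simpa using this
      have h2 := hgr b hq.2 b' hq'.2 h1
      subst h2
      have h3 := add_left_cancel h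
      rw [Prod.mk.injEq] at h3
      rw [h3.2]
  have h2 := pluennecke_ruzsa_inequality_nsmul_sub_nsmul_sub hB B (m + 1) n
  have h3 : ((((m + 1) • B - n • B).card : ℕ) : ℝ) ≤ (((B - B).card : ℝ) / B.card) ^ (m + 1 + n) * B.card := by
    have h4 : (((((m + 1) • B - n • B).card : ℚ≥0)) : ℝ) ≤ ((((B - B).card / B.card : ℚ≥0) ^ (m + 1 + n) * B.card : ℚ≥0) : ℝ) :=
      NNRat.cast_le.2 h2
    push_cast at h4
    exact h4
  have h5 : ((B - B).card : ℝ) / B.card ≤ K1 := by rw [div_le_iff₀ hB0]; exact hK1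
  have h6 : (((B - B).card : ℝ) / B.card) ^ (m + 1 + n) ≤ K1 ^ (m + 1 + n) := pow_le_pow_left₀ (by positivity) h5 _
  have h7 : (V.card : ℝ) * B.card ≤ K1 ^ (m + n + 1) * B.card := by
    have h8 : ((V.card * B.card : ℕ) : ℝ) ≤ (((m + 1) • B - n • B).card : ℕ) := by exact_mod_cast h1
    push_cast at h8
    have e : m + n + 1 = m + 1 + n := by ring
    rw [e]
    exact (h8.trans h3).trans (mul_le_mul_of_nonneg_right h6 hB0.le)
  exact le_of_mul_le_mul_right h7 hB0

/-- a graph with large additive energy contains a large piece with boundedly many elements of `m B - n B` in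
each fibre -/
theorem structured {p : ℕ} [NeZero p] {Γ : Finset (ℤ × ZMod p)} (hne : Γ.Nonempty)
    (hgr : ∀ b ∈ Γ, ∀ b' ∈ Γ, b.1 = b'.1 → b = b') {K : ℝ} (hK : 0 < K)
    (hE : (Γ.card : ℝ) ^ 3 ≤ K * (Γ.addEnergy Γ : ℕ)) :
    ∃ B ⊆ Γ, B.Nonempty ∧ (Γ.card : ℝ) ≤ 8 * K * B.card ∧ ∀ (m n : ℕ) (e : ℤ),
      ((univ.filter (fun w : ZMod p => (e, w) ∈ m • B - n • B)).card : ℝ) ≤ (2 ^ 22 * K ^ 10) ^ (m + n + 1) := by
  obtain ⟨B, hBΓ, hB, h1, h2⟩ := Pool.Agent.H217R3.AK.bsg Γ hne K hK hE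
  exact ⟨B, hBΓ, hB, h1, fun m n e => fibre_le hB (fun b hb b' hb' => hgr b (hBΓ hb) b' (hBΓ hb')) h2 m n e⟩

end Pool.Agent.W36.GU
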