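import Pool.Agent.W36.GU.GU10
import Pool.Agent.W36.GU.GU4

/-! The contradiction. -/

set_option autoImplicit false

namespace Pool.Agent.W36.GU

open Finset
open scoped Pointwise

variable {p : ℕ} [NeZero p]

omit [NeZero p] in
theorem Dm_inj {B : Finset (ℤ × ZMod p)} (hgr : ∀ b ∈ B, ∀ b' ∈ B, b.1 = b'.1 → b = b') {u v : ℕ} (hv : 1 ≤ v) (hvu : v ≤ u) :
    Set.InjOn (Dm p u v) B := by
  intro b hb b' hb' h
  apply hgr b hb b' hb'
  unfold Dm at h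
  rw [Prod.mk.injEq] at h
  have h1 := h.1
  have hv0 : (0 : ℤ) < v := by exact_mod_cast hv
  have hvu0 : (v : ℤ) ≤ u := by exact_mod_cast hvu
  have key : ∀ α β : ℤ, α < β → (u * α) / (v : ℤ) < (u * β) / v := by
    intro α β hab
    have h2 : (u * α + v) / (v : ℤ) = (u * α) / (v : ℤ) + 1 := by
      rw [Int.add_ediv_of_dvd_right (dvd_refl _), Int.ediv_self hv0.ne']
    have h3 : (u * α + v) / (v : ℤ) ≤ (u * β) / v := by
      apply Int.ediv_le_ediv hv0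
      nlinarith
    omega
  by_contra hne
  rcases lt_or_gt_of_ne hne with h2 | h2
  · have := key _ _ h2; omega
  · have := key _ _ h2; omega

/-- many correlations at multiples of `Q` -/
theorem many_Q {f : ℤ → ℝ} (hf : ∀ n, |f n| ≤ 1) {M N X : ℕ} (hN : N ≤ X) (hX : 1 ≤ X)
    {ε σ κ : ℝ} {Q J : ℕ} (hσ : 0 < σ) (hσε : ε = 12 * σ) (hε1 : ε ≤ 1) (hQ1 : 1 ≤ Q) (hQJ : Q ≤ J)
    (hloc : ∀ j : ℕ, j ≤ J → ∑ n ∈ Icc (1 : ℤ) X, |f (n + j) - f n| ≤ κ * X)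
    (hnum : κ * X + 2 * Q ≤ σ * X) (hp : 2 * X ≤ p) (hU : ε * X ^ 4 < U3 (win M N f) X) :
    ∃ (I : Finset ℤ) (φ : ℤ → ZMod p), (∀ α ∈ I, σ * X ≤ ‖A p (win M N f) X (Q * α) (φ α)‖) ∧ ε * X ≤ 2 * Q * I.card := by
  classical
  set g := win M N f with hg
  have hs : Sup g X := win_sup f M hN
  have hτ : 6 * (2 * σ) ^ 2 ≤ ε := by rw [hσε] at hε1 ⊢; nlinarith
  have h1 := many_h (p := p) (ε := ε) (τ := 2 * σ) (by positivity) hτ hX hp (win_abs hf M N) hs hU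
  set H := (Icc (-(X : ℤ)) X).filter (fun h => ∃ ξ : ZMod p, 2 * σ * X ≤ ‖A p g X h ξ‖) with hH
  have hQ0 : (0 : ℤ) < Q := by exact_mod_cast hQ1
  have hex : ∀ α ∈ H.image (fun h => h / (Q : ℤ)), ∃ ξ : ZMod p, σ * X ≤ ‖A p g X (Q * α) ξ‖ := by
    intro α hα
    rw [mem_image] at hα
    obtain ⟨h, hh, rfl⟩ := hα
    rw [hH, mem_filter] at hh
    obtain ⟨-, ξ, hξ⟩ := hh
    refine ⟨ξ, ?_⟩
    have e1 := Int.emod_add_mul_ediv h (Q : ℤ)
    have e2 := Int.emod_nonneg h hQ0.ne'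
    have e3 := Int.emod_lt_of_pos h hQ0
    obtain ⟨r, hr⟩ := Int.eq_ofNat_of_zero_le e2
    rw [hr] at e1 e3
    have hrQ : r < Q := by exact_mod_cast e3
    have h2 := A_shift (p := p) hf (M := M) hN r (hloc _ (by omega)) (Q * (h / Q)) ξ
    have e4 : (Q : ℤ) * (h / Q) + (r : ℕ) = h := by rw [add_comm]; exact e1
    rw [e4] at h2
    have h3 : ‖A p g X h ξ‖ ≤ ‖A p g X (Q * (h / Q)) ξ‖ + (κ * X + 2 * r) := by
      have : A p g X h ξ = A p g X (Q * (h / Q)) ξ + (A p g X h ξ - A p g X (Q * (h / Q)) ξ) := by ring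
      rw [this]
      refine (norm_add_le _ _).trans ?_
      linarith
    have hrR : (r : ℝ) ≤ Q := by exact_mod_cast hrQ.le
    linarith
  choose! φ hφ using hex
  refine ⟨H.image (fun h => h / (Q : ℤ)), φ, hφ, ?_⟩
  have h2 : H.card ≤ Q * (H.image (fun h => h / (Q : ℤ))).card := by
    apply card_le_mul_card_image
    intro α _
    have h3 : (H.filter (fun h => h / (Q : ℤ) = α)) ⊆ Ico (Q * α) (Q * α + Q) := by
      intro h hh
      rw [mem_filter] at hh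
      rw [mem_Ico, ← hh.2]
      have e1 := Int.emod_add_mul_ediv h (Q : ℤ)
      have e2 := Int.emod_nonneg h hQ0.ne'
      have e3 := Int.emod_lt_of_pos h hQ0
      omega
    refine (card_le_card h3).trans ?_
    rw [Int.card_Ico]
    omega
  have h3 : (H.card : ℝ) ≤ Q * (H.image (fun h => h / (Q : ℤ))).card := by exact_mod_cast h2
  linarith

/-- the number of shifts with the same large frequency -/
theorem fibre_freq {g : ℤ → ℝ} (hg : ∀ n, |g n| ≤ 1) {X : ℕ} (hX : 1 ≤ X) (hs : Sup g X) (hp : 2 * X < p) {S σ : ℝ} (hσ : 0 < σ)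
    (hS : ∀ ζ : ZMod p, ‖∑ n ∈ Icc (1 : ℤ) X, (g n : ℂ) * psi p (ζ * n)‖ ≤ S * X) {Q : ℕ} (hQ : 1 ≤ Q)
    {B : Finset (ℤ × ZMod p)} (hgr : ∀ b ∈ B, ∀ b' ∈ B, b.1 = b'.1 → b = b')
    (hB : ∀ b ∈ B, σ * X ≤ ‖A p g X (Q * b.1) b.2‖) [DecidableEq (ZMod p)] (ξ : ZMod p) :
    ((B.filter (fun b => b.2 = ξ)).card : ℝ) * σ ^ 2 ≤ S ^ 2 * X := by
  have h1 := upper hg hs hp hS ξ
  have hX0 : (0 : ℝ) < X := by exact_mod_cast hX
  have hQ0 : (0 : ℤ) < Q := by exact_mod_cast hQ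
  have h2 : ((B.filter (fun b => b.2 = ξ)).card : ℝ) * (σ * X) ^ 2 ≤ ∑ h ∈ Icc (-(X : ℤ)) X, ‖A p g X h ξ‖ ^ 2 := by
    have h3 : ∑ b ∈ B.filter (fun b => b.2 = ξ), ‖A p g X (Q * b.1) ξ‖ ^ 2
        = ∑ h ∈ (B.filter (fun b => b.2 = ξ)).image (fun b => (Q : ℤ) * b.1), ‖A p g X h ξ‖ ^ 2 := by
      rw [sum_image]
      intro b hb b' hb' h
      rw [mem_coe, mem_filter] at hb hb'
      exact hgr b hb.1 b' hb'.1 (mul_left_cancel₀ hQ0.ne' h)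
    have h4 : ((B.filter (fun b => b.2 = ξ)).card : ℝ) * (σ * X) ^ 2 ≤ ∑ b ∈ B.filter (fun b => b.2 = ξ), ‖A p g X (Q * b.1) ξ‖ ^ 2 := by
      rw [← nsmul_eq_mul]
      apply card_nsmul_le_sum
      intro b hb
      rw [mem_filter] at hb
      have := hB b hb.1
      rw [hb.2] at this
      exact pow_le_pow_left₀ (by positivity) this 2
    rw [h3] at h4
    refine h4.trans (sum_le_sum_of_subset_of_nonneg ?_ fun _ _ _ => sq_nonneg _)
    intro h hh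
    rw [mem_image] at hh
    obtain ⟨b, hb, rfl⟩ := hh
    rw [mem_filter] at hb
    have := A_pos hs hσ hX (hB b hb.1)
    rw [abs_lt] at this
    rw [mem_Icc]
    constructor <;> linarith [this.1, this.2]
  have h3 := h2.trans h1
  have h4 : (((B.filter (fun b => b.2 = ξ)).card : ℝ) * σ ^ 2) * X ^ 2 ≤ (S ^ 2 * X) * X ^ 2 := by
    calc (((B.filter (fun b => b.2 = ξ)).card : ℝ) * σ ^ 2) * X ^ 2 = ((B.filter (fun b => b.2 = ξ)).card : ℝ) * (σ * X) ^ 2 := by ring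
      _ ≤ _ := h3
      _ = _ := by ring
  exact le_of_mul_le_mul_right h4 (by positivity)

theorem core {f : ℤ → ℝ} (hf : ∀ n, |f n| ≤ 1) {M N X : ℕ} (hMN : M ≤ N) (hN : N ≤ X) (hX : 2 ≤ X)
    {ε σ κ κ' K : ℝ} {C L Q R J : ℕ} (hσ : 0 < σ) (hσε : ε = 12 * σ) (hε1 : ε ≤ 1) (hκ : 0 ≤ κ)
    (hC : 160 ≤ σ * C) (hC1 : 4 ≤ C) (hp : p = C * X)
    (hL : 1 ≤ L) (u v : ℕ → ℕ) (hv : ∀ i < L, 1 ≤ v i) (hvu : ∀ i < L, v i ≤ u i) (huR : ∀ i < L, u i ≤ R)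
    (hvQ : ∀ i < L, v i ∣ Q) (hη : ∀ i < L, 1 - (v i : ℝ) / u i ≤ σ / 200)
    (hne : ∀ i < L, ∀ j < L, i ≠ j → u i * v j ≠ u j * v i)
    (hQ1 : 1 ≤ Q) (hQR : Q ≤ R) (hloc : ∀ j : ℕ, j ≤ J → ∑ n ∈ Icc (1 : ℤ) X, |f (n + j) - f n| ≤ κ * X)
    (hdu : ∀ i < L, ∑ n ∈ Icc (1 : ℤ) X, |f (u i * n) - f n| ≤ κ * X)
    (hdv : ∀ i < L, ∑ n ∈ Icc (1 : ℤ) X, |f (v i * n) - f n| ≤ κ * X)
    (hfou : ∀ ζ : ZMod p, ‖∑ n ∈ Icc (1 : ℤ) X, (win M N f n : ℂ) * psi p (ζ * n)‖ ≤ κ' * X)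
    (hκR : κ * (400 * R) ≤ σ) (hJ : 200 * (R : ℝ) ≤ σ * J) (hRJ : R ^ 2 < J) (hX1 : 700 * (R : ℝ) ^ 2 ≤ σ * X)
    (hJX : J ≤ X) (hJX1 : 8 * (J : ℝ) ≤ σ * X)
    (hK : K * (ε * σ ^ 8) = 10 * C) (hLL : 384 * C * K ≤ L * ε * σ ^ 2)
    (hfin : 16 * K * Q * L * ((2 * (R : ℝ) ^ 2 + 1) * (2 ^ 22 * K ^ 10) ^ (2 * R ^ 2 + 1) * (2 * (R : ℝ) ^ 4 + 1)) * κ' ^ 2 < σ ^ 2 * ε) :
    U3 (win M N f) X ≤ ε * X ^ 4 := by
  classical
  by_contra hcon
  push Not at hcon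
  set g := win M N f with hg
  have hga : ∀ n, |g n| ≤ 1 := win_abs hf M N
  have hs : Sup g X := win_sup f M hN
  have hε : 0 < ε := by rw [hσε]; positivity
  have hX1' : 1 ≤ X := by omega
  have hXR : (2 : ℝ) ≤ X := by exact_mod_cast hX
  have hpX : (p : ℝ) = C * X := by rw [hp]; push_cast; ring
  have hp4 : 4 * X ≤ p := by rw [hp]; exact Nat.mul_le_mul_right _ hC1
  have hR1 : 1 ≤ R := by omega
  have hRJ1 : R ≤ J := by nlinarith
  have hRR : (1 : ℝ) ≤ R := by exact_mod_cast hR1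
  have hQRR : (Q : ℝ) ≤ R := by exact_mod_cast hQR
  have hQR0 : (1 : ℝ) ≤ Q := by exact_mod_cast hQ1
  have hC0 : (4 : ℝ) ≤ C := by exact_mod_cast hC1
  have hK0 : 0 < K := by
    have h1 : 0 < ε * σ ^ 8 := by positivity
    by_contra h
    push Not at h
    have := mul_nonpos_of_nonpos_of_nonneg h h1.le
    linarith
  have hσ1 : σ ≤ 1 := by linarith
  have hK1 : (1 : ℝ) ≤ 2 ^ 22 * K ^ 10 := by
    have h1 : 1 ≤ K := by
      have h2 : ε * σ ^ 8 ≤ 1 := mul_le_one₀ hε1 (by positivity) (pow_le_one₀ hσ.le hσ1)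
      by_contra h
      push Not at h
      have h3 : K * (ε * σ ^ 8) ≤ 1 * 1 := mul_le_mul h.le h2 (by positivity) zero_le_one
      linarith
    have h2 : (1 : ℝ) ≤ K ^ 10 := one_le_pow₀ h1
    linarith
  -- many correlations
  have hκσ : 400 * κ ≤ σ := by nlinarith
  obtain ⟨I, φ, hI, hIc⟩ := many_Q (p := p) hf hN hX1' hσ hσε hε1 hQ1 (hQR.trans hRJ1) hloc (by nlinarith) (by omega) hcon
  have hIX : ∀ α ∈ I, |(Q : ℤ) * α| < X := fun α hα => A_pos hs hσ hX1' (hI α hα)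
  have hQX : Q ≤ X := by
    have h1 : (Q : ℝ) ≤ X := by nlinarith
    exact_mod_cast h1
  have hIpos : 0 < (I.card : ℝ) := by
    have h1 : 0 < ε * X := by positivity
    have h2 : 0 < 2 * (Q : ℝ) * I.card := lt_of_lt_of_le h1 hIc
    by_contra h
    push Not at h
    have := mul_nonpos_of_nonneg_of_nonpos (show (0 : ℝ) ≤ 2 * Q by positivity) h
    linarith
  -- energy
  have hen := energy hga hX1' hs (by omega) hQ1 hQX I (fun α hα => (hIX α hα).le) φ hσ hI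
  set Γ := I.image (fun α => (α, φ α)) with hΓ
  have hΓc : Γ.card = I.card := card_image_of_injective _ (fun a b h => (Prod.mk.injEq _ _ _ _ ▸ h).1)
  have hΓgr : ∀ b ∈ Γ, ∀ b' ∈ Γ, b.1 = b'.1 → b = b' := by
    intro b hb b' hb' h
    rw [hΓ, mem_image] at hb hb'
    obtain ⟨α, -, rfl⟩ := hb
    obtain ⟨β, -, rfl⟩ := hb'
    simp only at h
    rw [h]
  have hΓne : Γ.Nonempty := by
    rw [← card_pos, hΓc]
    exact_mod_cast hIpos
  have hE : (Γ.card : ℝ) ^ 3 ≤ K * (Γ.addEnergy Γ : ℕ) := by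
    rw [hΓc]
    have h1 : σ ^ 8 * X * (I.card : ℝ) ^ 3 * (ε * X) ≤ σ ^ 8 * X * (I.card : ℝ) ^ 3 * (2 * Q * I.card) :=
      mul_le_mul_of_nonneg_left hIc (by positivity)
    have h2 : σ ^ 8 * X * (I.card : ℝ) ^ 3 * (2 * Q * I.card) = 2 * Q * (σ ^ 8 * X * (I.card : ℝ) ^ 4) := by ring
    have h3 : 2 * (Q : ℝ) * (5 * (X / Q) * p * ((Γ.addEnergy Γ : ℕ) : ℝ)) = 10 * C * X ^ 2 * ((Γ.addEnergy Γ : ℕ) : ℝ) := by
      rw [hpX]; field_simp; ring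
    have h4 := mul_le_mul_of_nonneg_left hen (show (0 : ℝ) ≤ 2 * Q by positivity)
    rw [h3] at h4
    rw [h2] at h1
    have h5 := h1.trans h4
    have h6 : (ε * σ ^ 8 * X ^ 2) * (I.card : ℝ) ^ 3 ≤ (ε * σ ^ 8 * X ^ 2) * (K * ((Γ.addEnergy Γ : ℕ) : ℝ)) := by
      calc (ε * σ ^ 8 * X ^ 2) * (I.card : ℝ) ^ 3 = σ ^ 8 * X * (I.card : ℝ) ^ 3 * (ε * X) := by ring
        _ ≤ _ := h5
        _ = (K * (ε * σ ^ 8)) * X ^ 2 * ((Γ.addEnergy Γ : ℕ) : ℝ) := by rw [hK]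
        _ = _ := by ring
    exact le_of_mul_le_mul_left h6 (by positivity)
  obtain ⟨B, hBΓ, hBne, hBc, hBf⟩ := structured hΓne hΓgr hK0 hE
  have hBgr : ∀ b ∈ B, ∀ b' ∈ B, b.1 = b'.1 → b = b' := fun b hb b' hb' => hΓgr b (hBΓ hb) b' (hBΓ hb')
  have hBA : ∀ b ∈ B, σ * X ≤ ‖A p g X (Q * b.1) b.2‖ := by
    intro b hb
    have h1 := hBΓ hb
    rw [hΓ, mem_image] at h1
    obtain ⟨α, hα, rfl⟩ := h1
    exact hI α hα
  have hBX : ε * X ≤ 16 * K * Q * B.card := by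
    rw [hΓc] at hBc
    calc ε * X ≤ 2 * Q * I.card := hIc
      _ ≤ 2 * Q * (8 * K * B.card) := mul_le_mul_of_nonneg_left hBc (by positivity)
      _ = _ := by ring
  -- pigeonhole
  set U := ((Icc (-((X / Q : ℕ) : ℤ)) ((X / Q : ℕ) : ℤ)) ×ˢ (univ : Finset (ZMod p))).filter
      (fun b => σ / 2 * X ≤ ‖A p g X (Q * b.1) b.2‖) with hU
  have hUc := card_U (p := p) hga hX1' (by omega) hQ1 hQX (half_pos hσ)
  rw [← hU] at hUc
  have hstep : ∀ i < L, ∀ b ∈ B, Dm p (u i) (v i) b ∈ U := by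
    intro i hi b hb
    have h1 := step (p := p) hf hMN hN hX1' hσ hκ (hv i hi) (hvu i hi) (huR i hi) (hvQ i hi) (hη i hi) hQ1 hQR hloc
      (hdu i hi) (hdv i hi) hκR hJ hRJ1 hX1 hJX hJX1 hC hC1 hp (hBA b hb)
    rw [hU, mem_filter, mem_product, mem_Icc]
    have h2 := abs_le.1 h1.2
    exact ⟨⟨h2, mem_univ _⟩, h1.1⟩
  have hUL : 2 * U.card ≤ L * B.card := by
    have h1 : 2 * (U.card : ℝ) ≤ L * B.card := by
      have h2 : (3 * ((X : ℝ) / Q)) * (p / ((σ / 2) ^ 2 * X)) = 12 * C * X / (Q * σ ^ 2) := by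
        rw [hpX]; field_simp; ring
      rw [h2] at hUc
      have h3 : 24 * C * X / (Q * σ ^ 2) ≤ (L : ℝ) * B.card := by
        rw [div_le_iff₀ (by positivity)]
        have h4 : (L : ℝ) * σ ^ 2 * (ε * X) ≤ L * σ ^ 2 * (16 * K * Q * B.card) := mul_le_mul_of_nonneg_left hBX (by positivity)
        have h5 : 384 * C * K * X ≤ L * ε * σ ^ 2 * X := mul_le_mul_of_nonneg_right hLL (by positivity)
        have h6 : (16 * K) * (24 * C * X) ≤ (16 * K) * (L * B.card * (Q * σ ^ 2)) := by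
          calc (16 * K) * (24 * C * X) = 384 * C * K * X := by ring
            _ ≤ L * ε * σ ^ 2 * X := h5
            _ = (L : ℝ) * σ ^ 2 * (ε * X) := by ring
            _ ≤ _ := h4
            _ = _ := by ring
        exact le_of_mul_le_mul_left h6 (by positivity)
      calc 2 * (U.card : ℝ) ≤ 2 * (12 * C * X / (Q * σ ^ 2)) := mul_le_mul_of_nonneg_left hUc (by norm_num)
        _ = 24 * C * X / (Q * σ ^ 2) := by ring
        _ ≤ _ := h3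
    exact_mod_cast h1
  obtain ⟨i, hi, j, hj, hij, hB'c⟩ := pigeon hBne (fun i => Dm p (u i) (v i)) hstep
    (fun i hi => Dm_inj hBgr (hv i hi) (hvu i hi)) hUL hL
  set B' := B.filter (fun b => ∃ b' ∈ B, Dm p (u i) (v i) b = Dm p (u j) (v j) b') with hB'
  have hB'B : B' ⊆ B := filter_subset _ _
  -- few frequencies
  have hsm : ∀ q ∈ B, |((q.2.valMinAbs : ℤ) : ℝ)| * (4 * J) < p := by
    intro q hq
    exact freq_small (p := p) hf (M := M) hN (by omega) hJX hκ hloc (σ := σ) (by nlinarith) (hBA q hq)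
  have hfew := few (p := p) (K1 := 2 ^ 22 * K ^ 10) hK1 hBf hRJ (by omega) (hv i hi) (hvu i hi) (huR i hi) (hv j hj) (hvu j hj) (huR j hj)
    (hne i hi j hj hij) hB'B (fun q hq => (mem_filter.1 hq).2) hsm
  set K2 := (2 * (R : ℝ) ^ 2 + 1) * (2 ^ 22 * K ^ 10) ^ (2 * R ^ 2 + 1) * (2 * (R : ℝ) ^ 4 + 1) with hK2
  have hB'X : (B'.card : ℝ) * σ ^ 2 ≤ K2 * (κ' ^ 2 * X) := by
    have h1 := card_eq_sum_card_image (Prod.snd : ℤ × ZMod p → ZMod p) B'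
    have h2 : (B'.card : ℝ) * σ ^ 2 = ∑ ξ ∈ B'.image Prod.snd, ((B'.filter (fun b => b.2 = ξ)).card : ℝ) * σ ^ 2 := by
      rw [← sum_mul]
      congr 1
      exact_mod_cast h1
    rw [h2]
    have h3 : ∀ ξ ∈ B'.image Prod.snd, ((B'.filter (fun b => b.2 = ξ)).card : ℝ) * σ ^ 2 ≤ κ' ^ 2 * X := by
      intro ξ _
      exact fibre_freq (p := p) hga hX1' hs (by omega) hσ hfou hQ1 (fun b hb b' hb' => hBgr b (hB'B hb) b' (hB'B hb'))
        (fun b hb => hBA b (hB'B hb)) ξ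
    refine (sum_le_card_nsmul _ _ _ h3).trans ?_
    rw [nsmul_eq_mul]
    exact mul_le_mul_of_nonneg_right hfew (by positivity)
  have hB'c' : (B.card : ℝ) ≤ L * B'.card := by exact_mod_cast hB'c
  have hK2n : 0 ≤ K2 := by rw [hK2]; positivity
  have h1 : (ε * X) * σ ^ 2 ≤ (16 * K * Q * L * K2 * κ' ^ 2) * X := by
    calc (ε * X) * σ ^ 2 ≤ (16 * K * Q * B.card) * σ ^ 2 := mul_le_mul_of_nonneg_right hBX (by positivity)
      _ ≤ (16 * K * Q * (L * B'.card)) * σ ^ 2 := by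
          apply mul_le_mul_of_nonneg_right _ (by positivity)
          exact mul_le_mul_of_nonneg_left hB'c' (by positivity)
      _ = (16 * K * Q * L) * (B'.card * σ ^ 2) := by ring
      _ ≤ (16 * K * Q * L) * (K2 * (κ' ^ 2 * X)) := mul_le_mul_of_nonneg_left hB'X (by positivity)
      _ = _ := by ring
  have h2 : (16 * K * Q * L * K2 * κ' ^ 2) * X < (σ ^ 2 * ε) * X := mul_lt_mul_of_pos_right hfin (by positivity)
  linarith

end Pool.Agent.W36.GU
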