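import Mathlib

/-! Fourier analysis modulo `p` for finite families. -/

set_option autoImplicit false

namespace Pool.Agent.W36.GU

open Finset

/-- the standard character modulo `p` -/
noncomputable def psi (p : ℕ) [NeZero p] (x : ZMod p) : ℂ := ZMod.stdAddChar x

variable {p : ℕ} [NeZero p]

theorem psi_norm (x : ZMod p) : ‖psi p x‖ = 1 := AddChar.norm_apply _ _

theorem psi_zero : psi p 0 = 1 := AddChar.map_zero_eq_one _

theorem psi_add (x y : ZMod p) : psi p (x + y) = psi p x * psi p y := AddChar.map_add_eq_mul _ _ _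

theorem psi_conj (x : ZMod p) : starRingEnd ℂ (psi p x) = psi p (-x) := (AddChar.map_neg_eq_conj _ _).symm

theorem psi_int (j : ℤ) : psi p (j : ZMod p) = Complex.exp (2 * Real.pi * Complex.I * j / p) := ZMod.stdAddChar_coe j

theorem psi_orth (b : ZMod p) : ∑ x : ZMod p, psi p (x * b) = if b = 0 then (p : ℂ) else 0 := by
  unfold psi
  rw [AddChar.sum_mulShift b (ZMod.isPrimitive_stdAddChar p), ZMod.card]
  split_ifs <;> simp

theorem l2_gen {ι κ : Type*} (s : Finset ι) (t : Finset κ) (τ : ι → ZMod p) (σ : κ → ZMod p)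
    (a : ι → ℂ) (b : κ → ℂ) :
    ∑ ξ : ZMod p, (∑ i ∈ s, a i * psi p (ξ * τ i)) * starRingEnd ℂ (∑ j ∈ t, b j * psi p (ξ * σ j))
      = p * ∑ i ∈ s, ∑ j ∈ t, if τ i = σ j then a i * starRingEnd ℂ (b j) else 0 := by
  have e1 : ∀ ξ : ZMod p, (∑ i ∈ s, a i * psi p (ξ * τ i)) * starRingEnd ℂ (∑ j ∈ t, b j * psi p (ξ * σ j))
      = ∑ i ∈ s, ∑ j ∈ t, a i * starRingEnd ℂ (b j) * psi p (ξ * (τ i - σ j)) := by
    intro ξ
    rw [map_sum, sum_mul_sum]
    apply sum_congr rfl; intro i _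
    apply sum_congr rfl; intro j _
    rw [map_mul, psi_conj, mul_sub, sub_eq_add_neg, psi_add]
    ring
  simp only [e1]
  rw [sum_comm, mul_sum]
  apply sum_congr rfl; intro i _
  rw [sum_comm, mul_sum]
  apply sum_congr rfl; intro j _
  rw [← mul_sum, psi_orth]
  by_cases h : τ i = σ j
  · rw [if_pos (by rw [h, sub_self]), if_pos h]; ring
  · rw [if_neg (fun h2 => h (sub_eq_zero.1 h2)), if_neg h]; ring

theorem norm_sq_c (z : ℂ) : ((‖z‖ ^ 2 : ℝ) : ℂ) = z * starRingEnd ℂ z := by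
  rw [Complex.mul_conj, Complex.normSq_eq_norm_sq]

/-- Parseval for a family with distinct frequencies -/
theorem parseval_inj {ι : Type*} (s : Finset ι) (τ : ι → ZMod p) (hτ : Set.InjOn τ s) (a : ι → ℂ) :
    ∑ ξ : ZMod p, ‖∑ i ∈ s, a i * psi p (ξ * τ i)‖ ^ 2 = p * ∑ i ∈ s, ‖a i‖ ^ 2 := by
  have h : ((∑ ξ : ZMod p, ‖∑ i ∈ s, a i * psi p (ξ * τ i)‖ ^ 2 : ℝ) : ℂ) = ((p * ∑ i ∈ s, ‖a i‖ ^ 2 : ℝ) : ℂ) := by
    rw [Complex.ofReal_sum, Complex.ofReal_mul, Complex.ofReal_sum]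
    simp only [norm_sq_c]
    rw [l2_gen]
    congr 1
    apply sum_congr rfl
    intro i hi
    rw [sum_eq_single i]
    · rw [if_pos rfl]
    · intro j hj hji
      rw [if_neg (fun h => hji (hτ hi hj h).symm)]
    · intro h; exact absurd hi h
  exact_mod_cast h

/-- the second moment counts coincidences -/
theorem moment_count {ι : Type*} (s : Finset ι) (τ : ι → ZMod p) :
    ∑ ξ : ZMod p, ‖∑ i ∈ s, psi p (ξ * τ i)‖ ^ 2 = p * (((s ×ˢ s).filter (fun q => τ q.1 = τ q.2)).card : ℝ) := by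
  have h : ((∑ ξ : ZMod p, ‖∑ i ∈ s, psi p (ξ * τ i)‖ ^ 2 : ℝ) : ℂ)
      = ((p * (((s ×ˢ s).filter (fun q => τ q.1 = τ q.2)).card : ℝ) : ℝ) : ℂ) := by
    rw [Complex.ofReal_sum, Complex.ofReal_mul]
    simp only [norm_sq_c]
    have h1 := l2_gen s s τ τ (fun _ => 1) (fun _ => 1)
    simp only [one_mul] at h1
    rw [h1]
    congr 1
    rw [card_filter, sum_product]
    push_cast
    apply sum_congr rfl; intro i _
    apply sum_congr rfl; intro j _
    split_ifs <;> simp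
  exact_mod_cast h

/-- the fourth moment counts additive quadruples -/
theorem moment_four (s : Finset ℤ) (F : ℤ → ℝ) {L : ℤ} (hs : ∀ n ∈ s, 1 ≤ n ∧ n ≤ L) (hL : 2 * L ≤ p) :
    ∑ ξ : ZMod p, ‖∑ n ∈ s, (F n : ℂ) * psi p (ξ * n)‖ ^ 4
      = p * ∑ a ∈ s, ∑ b ∈ s, ∑ c ∈ s, ∑ d ∈ s, if a + b = c + d then F a * F b * (F c * F d) else 0 := by
  have h : ((∑ ξ : ZMod p, ‖∑ n ∈ s, (F n : ℂ) * psi p (ξ * n)‖ ^ 4 : ℝ) : ℂ)
      = ((p * ∑ a ∈ s, ∑ b ∈ s, ∑ c ∈ s, ∑ d ∈ s, if a + b = c + d then F a * F b * (F c * F d) else 0 : ℝ) : ℂ) := by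
    have e0 : ∀ ξ : ZMod p, ((‖∑ n ∈ s, (F n : ℂ) * psi p (ξ * n)‖ ^ 4 : ℝ) : ℂ)
        = (∑ q ∈ s ×ˢ s, ((F q.1 * F q.2 : ℝ) : ℂ) * psi p (ξ * ((q.1 + q.2 : ℤ) : ZMod p))) *
          starRingEnd ℂ (∑ q ∈ s ×ˢ s, ((F q.1 * F q.2 : ℝ) : ℂ) * psi p (ξ * ((q.1 + q.2 : ℤ) : ZMod p))) := by
      intro ξ
      have e1 : ∑ q ∈ s ×ˢ s, ((F q.1 * F q.2 : ℝ) : ℂ) * psi p (ξ * ((q.1 + q.2 : ℤ) : ZMod p))
          = (∑ n ∈ s, (F n : ℂ) * psi p (ξ * n)) * (∑ n ∈ s, (F n : ℂ) * psi p (ξ * n)) := by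
        rw [sum_product, sum_mul_sum]
        apply sum_congr rfl; intro i _
        apply sum_congr rfl; intro j _
        push_cast
        rw [mul_add, psi_add]
        ring
      rw [e1, ← norm_sq_c, norm_mul]
      congr 1
      ring
    rw [Complex.ofReal_sum]
    simp only [e0]
    rw [l2_gen, Complex.ofReal_mul]
    congr 1
    rw [sum_product]
    push_cast
    apply sum_congr rfl; intro a ha
    apply sum_congr rfl; intro b hb
    rw [sum_product]
    apply sum_congr rfl; intro c hc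
    apply sum_congr rfl; intro d hd
    have h1 := hs a ha
    have h2 := hs b hb
    have h3 := hs c hc
    have h4 := hs d hd
    have hiff : (((a + b : ℤ) : ZMod p) = ((c + d : ℤ) : ZMod p)) ↔ a + b = c + d := by
      constructor
      · intro h
        rw [ZMod.intCast_eq_intCast_iff_dvd_sub] at h
        obtain ⟨k, hk⟩ := h
        have hp : (0 : ℤ) < p := by exact_mod_cast NeZero.pos p
        have hk0 : k = 0 := by
          by_contra hne
          rcases lt_or_gt_of_ne hne with h5 | h5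
          · have : (p : ℤ) * k ≤ (p : ℤ) * (-1) := mul_le_mul_of_nonneg_left (by omega) hp.le
            omega
          · have : (p : ℤ) * 1 ≤ (p : ℤ) * k := mul_le_mul_of_nonneg_left (by omega) hp.le
            omega
        rw [hk0] at hk
        omega
      · intro h; rw [h]
    push_cast at hiff
    by_cases h : a + b = c + d
    · rw [if_pos (hiff.2 h), if_pos h]
      simp [Complex.conj_ofReal]
    · rw [if_neg (fun h5 => h (hiff.1 h5)), if_neg h]
      simp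
  exact_mod_cast h

end Pool.Agent.W36.GU
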