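import Pool.Agent.W36.GU.GU9

/-! The core of the proof. -/

set_option autoImplicit false

namespace Pool.Agent.W36.GU

open Finset
open scoped Pointwise

variable {p : ℕ} [NeZero p]

theorem psi_small {x : ℤ} {J R : ℕ} {ρ : ℝ} (hJ : 1 ≤ J) (hx : |(x : ℝ)| * (2 * J) ≤ p) (hρ : Real.pi * R ≤ J * ρ) :
    ∀ i < R, ‖psi p ((x * (i : ℕ) : ℤ) : ZMod p) - 1‖ ≤ ρ := by
  intro i hi
  refine (psi_sub_one _).trans ?_
  have hp0 : (0 : ℝ) < p := by exact_mod_cast NeZero.pos p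
  have hJ0 : (1 : ℝ) ≤ J := by exact_mod_cast hJ
  have hiR : (i : ℝ) ≤ R := by exact_mod_cast hi.le
  rw [div_le_iff₀ hp0]
  push_cast
  rw [abs_mul, abs_of_nonneg (show (0 : ℝ) ≤ i from Nat.cast_nonneg _)]
  have h1 : |(x : ℝ)| * i ≤ |(x : ℝ)| * R := mul_le_mul_of_nonneg_left hiR (abs_nonneg _)
  have h2 : (2 * Real.pi * (|(x : ℝ)| * R)) * J ≤ (ρ * p) * J := by
    have h3 : (|(x : ℝ)| * (2 * J)) * (Real.pi * R) ≤ p * (J * ρ) :=
      mul_le_mul hx hρ (by positivity) hp0.le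
    linarith
  have h3 := le_of_mul_le_mul_right h2 (by linarith)
  have h4 : 2 * Real.pi * (|(x : ℝ)| * i) ≤ 2 * Real.pi * (|(x : ℝ)| * R) := mul_le_mul_of_nonneg_left h1 (by positivity)
  linarith

/-- a dilation maps large correlations to large correlations -/
theorem step {f : ℤ → ℝ} (hf : ∀ n, |f n| ≤ 1) {M N X : ℕ} (hMN : M ≤ N) (hN : N ≤ X) (hX : 1 ≤ X)
    {σ κ : ℝ} {C Q R J u v : ℕ} (hσ : 0 < σ) (hκ : 0 ≤ κ)
    (hv : 1 ≤ v) (hvu : v ≤ u) (huR : u ≤ R) (hvQ : v ∣ Q) (hη : 1 - (v : ℝ) / u ≤ σ / 200) (hQ1 : 1 ≤ Q) (hQR : Q ≤ R)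
    (hloc : ∀ j : ℕ, j ≤ J → ∑ n ∈ Icc (1 : ℤ) X, |f (n + j) - f n| ≤ κ * X)
    (hdu : ∑ n ∈ Icc (1 : ℤ) X, |f (u * n) - f n| ≤ κ * X) (hdv : ∑ n ∈ Icc (1 : ℤ) X, |f (v * n) - f n| ≤ κ * X)
    (hκR : κ * (400 * R) ≤ σ) (hJ : 200 * (R : ℝ) ≤ σ * J) (hRJ : R ≤ J) (hX1 : 700 * (R : ℝ) ^ 2 ≤ σ * X)
    (hJX : J ≤ X) (hJX1 : 8 * (J : ℝ) ≤ σ * X) (hC : 160 ≤ σ * C) (hC1 : 4 ≤ C) (hp : p = C * X)
    {b : ℤ × ZMod p} (hb : σ * X ≤ ‖A p (win M N f) X (Q * b.1) b.2‖) :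
    σ / 2 * X ≤ ‖A p (win M N f) X (Q * (Dm p u v b).1) (Dm p u v b).2‖ ∧ |(Dm p u v b).1| ≤ ((X / Q : ℕ) : ℤ) := by
  obtain ⟨α, ξ⟩ := b
  simp only at hb
  unfold Dm
  simp only
  have hp0 : (0 : ℝ) < p := by exact_mod_cast NeZero.pos p
  have hR1 : 1 ≤ R := by omega
  have hJ1 : 1 ≤ J := by omega
  have hXR : (1 : ℝ) ≤ X := by exact_mod_cast hX
  have hRR : (1 : ℝ) ≤ R := by exact_mod_cast hR1
  have hJR : (1 : ℝ) ≤ J := by exact_mod_cast hJ1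
  have hκσ : 400 * κ ≤ σ := by nlinarith
  have hfs := freq_small (p := p) hf (M := M) hN hJ1 hJX hκ hloc (σ := σ) (by nlinarith) hb
  set x := ξ.valMinAbs with hx
  set x' := dfr u v x with hx'
  have hpX : (p : ℝ) = C * X := by rw [hp]; push_cast; ring
  have hpJ : 4 * (J : ℝ) ≤ p := by
    rw [hpX]
    have h1 : (4 : ℝ) ≤ C := by exact_mod_cast hC1
    have h2 : (J : ℝ) ≤ X := by exact_mod_cast hJX
    nlinarith
  have hρ : Real.pi * R ≤ J * (σ / 60) := by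
    have := Real.pi_lt_d2
    nlinarith
  have hr := psi_small (p := p) (x := x) (J := J) (R := R) (ρ := σ / 60) hJ1 (by
    have := abs_nonneg (x : ℝ)
    nlinarith) hρ
  have hx'1 : |(x' : ℝ)| ≤ |(x : ℝ)| + 1 := by
    have := dfr_abs (by omega : 1 ≤ u) hvu x
    have h2 : ((|dfr u v x| : ℤ) : ℝ) ≤ ((|x| + 1 : ℤ) : ℝ) := by exact_mod_cast this
    push_cast at h2
    exact h2
  have hr' := psi_small (p := p) (x := x') (J := J) (R := R) (ρ := σ / 60) hJ1 (by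
    have h1 : |(x' : ℝ)| * (2 * J) ≤ (|(x : ℝ)| + 1) * (2 * J) := mul_le_mul_of_nonneg_right hx'1 (by positivity)
    nlinarith) hρ
  obtain ⟨w, hw⟩ := hvQ
  have hd := dil (p := p) hf hMN hN hv hvu (κ := κ) (ρ := σ / 60) hκ (by positivity) (fun j hj => hloc j (by omega)) hdu hdv
    (w * α) x x' (dfr_spec (by omega) v x) (fun i hi => hr i (by omega)) (fun i hi => hr' i (by omega))
  have e1 : ((v : ℤ) * (w * α)) = Q * α := by rw [hw]; push_cast; ring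
  have e2 : ((x : ℤ) : ZMod p) = ξ := by rw [hx, ZMod.coe_valMinAbs]
  rw [e1, e2] at hd
  have hv0 : (0 : ℤ) < v := by exact_mod_cast hv
  set q := (u * α) / (v : ℤ) with hq
  set r := (u * α) % (v : ℤ) with hr0
  have hr1 := Int.emod_nonneg (u * α) (show (v : ℤ) ≠ 0 by omega)
  have hr2 := Int.emod_lt_of_pos (u * α) hv0
  have hr3 := Int.emod_add_mul_ediv (u * α) (v : ℤ)
  rw [← hr0] at hr1 hr2 hr3
  rw [← hq] at hr3
  obtain ⟨r', hr'⟩ := Int.eq_ofNat_of_zero_le hr1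
  have e3 : (u : ℤ) * (w * α) = Q * q + ((w * r' : ℕ) : ℤ) := by
    have : (u : ℤ) * (w * α) = w * (u * α) := by ring
    rw [this, ← hr3, hw, hr']
    push_cast
    ring
  have hr'v : r' < v := by rw [hr'] at hr2; exact_mod_cast hr2
  have hj : w * r' ≤ Q := by rw [hw, mul_comm v w]; exact Nat.mul_le_mul_left _ hr'v.le
  have hs := A_shift (p := p) hf (M := M) hN (w * r') (hloc _ (by omega)) (Q * q) ((x' : ℤ) : ZMod p)
  rw [← e3] at hs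
  have hs2 : ‖A p (win M N f) X (u * (w * α)) ((x' : ℤ) : ZMod p)‖ ≤ ‖A p (win M N f) X (Q * q) ((x' : ℤ) : ZMod p)‖
      + (κ * X + 2 * ((w * r' : ℕ) : ℝ)) := by
    have : A p (win M N f) X (u * (w * α)) ((x' : ℤ) : ZMod p) = A p (win M N f) X (Q * q) ((x' : ℤ) : ZMod p)
      + (A p (win M N f) X (u * (w * α)) ((x' : ℤ) : ZMod p) - A p (win M N f) X (Q * q) ((x' : ℤ) : ZMod p)) := by ring
    rw [this]
    refine (norm_add_le _ _).trans ?_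
    linarith
  have hjR : ((w * r' : ℕ) : ℝ) ≤ R := by exact_mod_cast hj.trans hQR
  have huRR : (u : ℝ) ≤ R := by exact_mod_cast huR
  have hu0 : (0 : ℝ) ≤ u := Nat.cast_nonneg _
  have hpi : Real.pi * X ^ 2 / p ≤ σ / 50 * X := by
    rw [div_le_iff₀ hp0, hpX]
    have h1 := Real.pi_lt_d2
    have h2 : Real.pi ≤ σ / 50 * C := by nlinarith
    have h3 := mul_le_mul_of_nonneg_right h2 (show (0 : ℝ) ≤ X ^ 2 by positivity)
    linarith
  have hκX : 0 ≤ κ * X := by positivity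
  have t1 : 8 * u * (κ * X) ≤ σ / 50 * X := by
    have h1 : 8 * u * (κ * X) ≤ 8 * R * (κ * X) := by nlinarith
    nlinarith
  have t2 : 12 * (u : ℝ) ^ 2 ≤ 12 * (R : ℝ) ^ 2 := by nlinarith
  have t3 : 4 * (X * (1 - (v : ℝ) / u)) ≤ σ / 50 * X := by nlinarith
  have t4 : 2 * (R : ℝ) ≤ 2 * (R : ℝ) ^ 2 := by nlinarith
  have main : σ / 2 * X ≤ ‖A p (win M N f) X (Q * q) ((x' : ℤ) : ZMod p)‖ := by
    nlinarith
  refine ⟨main, ?_⟩
  have h1 := A_pos (win_sup f M hN) (half_pos hσ) hX main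
  have hQp : (0 : ℤ) < Q := by exact_mod_cast hQ1
  rw [abs_mul, abs_of_pos hQp] at h1
  push_cast
  rw [Int.le_ediv_iff_mul_le hQp, mul_comm]
  exact h1.le

end Pool.Agent.W36.GU
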