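import Pool.Agent.W36.GU.GU11

/-! The Gowers norms of order three of the functions of the class are small, uniformly. -/

set_option autoImplicit false

namespace Pool.Agent.W36.GU

open Finset

theorem small_aux {F : Set (ℤ → ℝ)} {A B : ℕ} (H : Hyp F A B) {ε : ℝ} (hε : 0 < ε) (hε1 : ε ≤ 1) :
    ∃ X0 : ℕ, ∀ X : ℕ, X0 ≤ X → ∀ f ∈ F, ∀ M N : ℕ, M ≤ N → N ≤ X → U3 (win M N f) X ≤ ε * X ^ 4 := by
  obtain ⟨σ, hσd⟩ : ∃ σ : ℝ, σ = ε / 12 := ⟨_, rfl⟩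
  have hσ : 0 < σ := by rw [hσd]; positivity
  obtain ⟨C0, hC0⟩ := exists_nat_ge (160 / σ)
  obtain ⟨C, hCd⟩ : ∃ C : ℕ, C = C0 + 4 := ⟨_, rfl⟩
  have hC : 160 ≤ σ * C := by
    rw [div_le_iff₀ hσ] at hC0
    rw [hCd]
    push_cast
    nlinarith
  have hCpos : (0 : ℝ) < C := by rw [hCd]; push_cast; positivity
  obtain ⟨K, hKd⟩ : ∃ K : ℝ, K = 10 * C / (ε * σ ^ 8) := ⟨_, rfl⟩
  have hK0 : 0 < K := by rw [hKd]; positivity
  have hK : K * (ε * σ ^ 8) = 10 * C := by rw [hKd]; field_simp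
  obtain ⟨L0, hL0⟩ := exists_nat_ge (384 * C * K / (ε * σ ^ 2))
  obtain ⟨L, hLd⟩ : ∃ L : ℕ, L = L0 + 1 := ⟨_, rfl⟩
  have hLL : 384 * C * K ≤ L * ε * σ ^ 2 := by
    rw [div_le_iff₀ (by positivity)] at hL0
    rw [hLd]
    push_cast
    have : 0 < ε * σ ^ 2 := by positivity
    linarith
  obtain ⟨k, j, hk, hj, hkj⟩ := ratios H.two_leA H.two_leB H.ind L (show 0 < σ / 200 by positivity)
  have hA1 : 1 ≤ A ^ k := Nat.one_le_pow _ _ (by have := H.two_leA; omega)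
  have hB1 : 1 ≤ B ^ j := Nat.one_le_pow _ _ (by have := H.two_leB; omega)
  obtain ⟨U, hU⟩ : ∃ U : ℕ, U = max (A ^ k) (B ^ j) := ⟨_, rfl⟩
  obtain ⟨V, hV⟩ : ∃ V : ℕ, V = min (A ^ k) (B ^ j) := ⟨_, rfl⟩
  rw [← hU, ← hV] at hkj
  have hne : A ^ k ≠ B ^ j := H.ind k j hk hj
  have hV1 : 1 ≤ V := by rw [hV]; exact le_min hA1 hB1
  have hVU : V < U := by
    rw [hU, hV]
    rcases lt_or_gt_of_ne hne with h | h
    · rw [min_eq_left h.le, max_eq_right h.le]; exact h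
    · rw [min_eq_right h.le, max_eq_left h.le]; exact h
  have hU1 : 1 ≤ U := by omega
  obtain ⟨R, hR⟩ : ∃ R : ℕ, R = U ^ L := ⟨_, rfl⟩
  obtain ⟨Q, hQ⟩ : ∃ Q : ℕ, Q = V ^ L := ⟨_, rfl⟩
  have hR1 : 1 ≤ R := by rw [hR]; exact Nat.one_le_pow _ _ hU1
  have hQ1 : 1 ≤ Q := by rw [hQ]; exact Nat.one_le_pow _ _ hV1
  have hRR : (1 : ℝ) ≤ R := by exact_mod_cast hR1
  obtain ⟨J0, hJ0⟩ := exists_nat_ge (200 * R / σ)
  obtain ⟨J, hJd⟩ : ∃ J : ℕ, J = J0 + R ^ 2 + 1 := ⟨_, rfl⟩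
  have hJ : 200 * (R : ℝ) ≤ σ * J := by
    rw [div_le_iff₀ hσ] at hJ0
    rw [hJd]
    push_cast
    have : 0 ≤ σ * ((R : ℝ) ^ 2 + 1) := by positivity
    linarith
  obtain ⟨κ, hκd⟩ : ∃ κ : ℝ, κ = σ / (400 * R) := ⟨_, rfl⟩
  have hκ : 0 < κ := by rw [hκd]; positivity
  have hκR : κ * (400 * R) ≤ σ := by rw [hκd]; exact (div_mul_cancel₀ σ (by positivity)).le
  obtain ⟨T, hT⟩ : ∃ T : ℝ, T = 16 * K * Q * L * ((2 * (R : ℝ) ^ 2 + 1) * (2 ^ 22 * K ^ 10) ^ (2 * R ^ 2 + 1) * (2 * (R : ℝ) ^ 4 + 1)) :=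
    ⟨_, rfl⟩
  have hL1 : (1 : ℝ) ≤ L := by rw [hLd]; push_cast; linarith [show (0 : ℝ) ≤ L0 from Nat.cast_nonneg _]
  have hQQ : (1 : ℝ) ≤ Q := by exact_mod_cast hQ1
  have hT0 : 0 < T := by rw [hT]; positivity
  obtain ⟨κ', hκ'⟩ : ∃ κ' : ℝ, κ' = min 1 (σ ^ 2 * ε / (2 * T)) := ⟨_, rfl⟩
  have hκ'0 : 0 < κ' := by rw [hκ']; exact lt_min one_pos (by positivity)
  have hfin : T * κ' ^ 2 < σ ^ 2 * ε := by
    have h1 : κ' ≤ 1 := by rw [hκ']; exact min_le_left _ _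
    have h2 : κ' ≤ σ ^ 2 * ε / (2 * T) := by rw [hκ']; exact min_le_right _ _
    have h3 : κ' ^ 2 ≤ σ ^ 2 * ε / (2 * T) := by
      calc κ' ^ 2 = κ' * κ' := by ring
        _ ≤ κ' * 1 := mul_le_mul_of_nonneg_left h1 hκ'0.le
        _ ≤ _ := by rw [mul_one]; exact h2
    have h4 := mul_le_mul_of_nonneg_left h3 hT0.le
    have h5 : T * (σ ^ 2 * ε / (2 * T)) = σ ^ 2 * ε / 2 := by field_simp
    rw [h5] at h4
    have : 0 < σ ^ 2 * ε := by positivity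
    linarith
  obtain ⟨X1, hX1⟩ := H.loc_all hκ J
  obtain ⟨X2, hX2⟩ := (Dil.pow (by have := H.two_leA; omega) H.dilA k).all hA1 hκ L
  obtain ⟨X3, hX3⟩ := (Dil.pow (by have := H.two_leB; omega) H.dilB j).all hB1 hκ L
  obtain ⟨X4, hX4⟩ := H.fou κ' hκ'0
  obtain ⟨X5, hX5⟩ := exists_nat_ge (700 * (R : ℝ) ^ 2 / σ + 8 * J / σ)
  refine ⟨X1 + X2 + X3 + X4 + X5 + J + 2, fun X hX f hf M N hMN hN => ?_⟩
  have hp1 : C * X ≠ 0 := by
    have : 0 < C := by omega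
    have : 0 < X := by omega
    positivity
  have : NeZero (C * X) := ⟨hp1⟩
  have hXX : 700 * (R : ℝ) ^ 2 + 8 * J ≤ σ * X := by
    have h1 : 700 * (R : ℝ) ^ 2 / σ + 8 * J / σ ≤ X := by
      refine hX5.trans ?_
      exact_mod_cast (by omega : X5 ≤ X)
    rw [← add_div, div_le_iff₀ hσ] at h1
    linarith
  have hJn : (0 : ℝ) ≤ J := Nat.cast_nonneg _
  refine core (p := C * X) (H.abs f hf) hMN hN (by omega) (κ := κ) (κ' := κ') (K := K) (C := C) (L := L) (Q := Q) (R := R) (J := J)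
    hσ (by rw [hσd]; ring) hε1 hκ.le hC (by omega) rfl (by omega) (fun i => U ^ i) (fun i => V ^ i) ?_ ?_ ?_ ?_ ?_ ?_ hQ1 ?_ ?_ ?_ ?_ ?_
    hκR hJ ?_ ?_ ?_ ?_ hK hLL ?_
  · intro i _; exact Nat.one_le_pow _ _ hV1
  · intro i _; exact Nat.pow_le_pow_left hVU.le _
  · intro i hi; rw [hR]; exact Nat.pow_le_pow_right hU1 hi.le
  · intro i hi; rw [hQ]; exact pow_dvd_pow _ hi.le
  · intro i hi
    exact hkj i hi.le
  · have key : ∀ i j : ℕ, i < j → U ^ i * V ^ j < U ^ j * V ^ i := by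
      intro i j hij
      obtain ⟨t, rfl⟩ := Nat.exists_eq_add_of_lt hij
      have e1 : U ^ i * V ^ (i + t + 1) = (U ^ i * V ^ i) * V ^ (t + 1) := by ring
      have e2 : U ^ (i + t + 1) * V ^ i = (U ^ i * V ^ i) * U ^ (t + 1) := by ring
      rw [e1, e2]
      apply Nat.mul_lt_mul_of_pos_left (Nat.pow_lt_pow_left hVU (by omega))
      positivity
    intro i _ j _ hij
    rcases lt_or_gt_of_ne hij with h | h
    · exact (key i j h).ne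
    · have := key j i h
      intro h2
      omega
  · rw [hQ, hR]; exact Nat.pow_le_pow_left hVU.le _
  · intro t ht; exact hX1 X (by omega) f hf t ht
  · intro i hi
    rw [hU]
    rcases max_choice (A ^ k) (B ^ j) with h | h
    · rw [h]; exact hX2 X (by omega) f hf i hi.le
    · rw [h]; exact hX3 X (by omega) f hf i hi.le
  · intro i hi
    rw [hV]
    rcases min_choice (A ^ k) (B ^ j) with h | h
    · rw [h]; exact hX2 X (by omega) f hf i hi.le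
    · rw [h]; exact hX3 X (by omega) f hf i hi.le
  · intro ζ
    exact hX4 X (by omega) f hf M N hMN hN (C * X) ζ
  · omega
  · linarith
  · omega
  · have : 0 ≤ 700 * (R : ℝ) ^ 2 := by positivity
    linarith
  · rw [← hT]; exact hfin

/-- All functions of the class have small Gowers norm of order three on all windows, uniformly. -/
theorem small {F : Set (ℤ → ℝ)} {A B : ℕ} (H : Hyp F A B) {ε : ℝ} (hε : 0 < ε) :
    ∃ X0 : ℕ, ∀ X : ℕ, X0 ≤ X → ∀ f ∈ F, ∀ M N : ℕ, M ≤ N → N ≤ X → U3 (win M N f) X ≤ ε * X ^ 4 := by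
  obtain ⟨X0, h⟩ := small_aux H (lt_min hε one_pos) (min_le_right ε 1)
  refine ⟨X0, fun X hX f hf M N hMN hN => (h X hX f hf M N hMN hN).trans ?_⟩
  exact mul_le_mul_of_nonneg_right (min_le_left _ _) (by positivity)

end Pool.Agent.W36.GU
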