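import Pool.Agent.W36.GU.GU1

/-! The Gowers norm of order three and the large spectrum of the derivatives. -/

set_option autoImplicit false

namespace Pool.Agent.W36.GU

open Finset

/-- the eighth power of the (unnormalised) Gowers norm of order three of a function supported in `[1, X]` -/
noncomputable def U3 (g : ℤ → ℝ) (X : ℕ) : ℝ :=
  ∑ x ∈ Icc (1 : ℤ) X, ∑ a ∈ Icc (-(X : ℤ)) X, ∑ b ∈ Icc (-(X : ℤ)) X, ∑ c ∈ Icc (-(X : ℤ)) X,
    g x * g (x + a) * g (x + b) * g (x + c) * g (x + a + b) * g (x + a + c) * g (x + b + c) * g (x + a + b + c)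

/-- supported in `[1, X]` -/
def Sup (g : ℤ → ℝ) (X : ℕ) : Prop := ∀ n, g n ≠ 0 → 1 ≤ n ∧ n ≤ X

variable {p : ℕ} [NeZero p]

/-- the twisted correlations -/
noncomputable def A (p : ℕ) [NeZero p] (g : ℤ → ℝ) (X : ℕ) (h : ℤ) (ξ : ZMod p) : ℂ :=
  ∑ n ∈ Icc (1 : ℤ) X, ((g n * g (n + h) : ℝ) : ℂ) * psi p (ξ * n)

theorem shift_sum {G : ℤ → ℝ} {X : ℕ} (hG : Sup G X) {x : ℤ} (hx : 1 ≤ x ∧ x ≤ X) :
    ∑ b ∈ Icc (-(X : ℤ)) X, G (x + b) = ∑ n ∈ Icc (1 : ℤ) X, G n := by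
  have h1 : ∑ b ∈ Icc (-(X : ℤ)) X, G (x + b) = ∑ n ∈ (Icc (-(X : ℤ)) X).map (addLeftEmbedding x), G n := by
    rw [sum_map]; rfl
  rw [h1]
  symm
  apply sum_subset
  · intro n hn
    rw [mem_Icc] at hn
    rw [mem_map]
    exact ⟨n - x, by rw [mem_Icc]; omega, by simp⟩
  · intro n _ hn
    by_contra h
    exact hn (by rw [mem_Icc]; exact hG n h)

theorem der_sup {g : ℤ → ℝ} {X : ℕ} (hs : Sup g X) (h : ℤ) : Sup (fun n => g n * g (n + h)) X := by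
  intro n hn
  exact hs n (left_ne_zero_of_mul hn)

theorem der_abs {g : ℤ → ℝ} (hg : ∀ n, |g n| ≤ 1) (h n : ℤ) : |g n * g (n + h)| ≤ 1 := by
  rw [abs_mul]
  exact mul_le_one₀ (hg _) (abs_nonneg _) (hg _)

theorem quad_sum {F : ℤ → ℝ} {X : ℕ} (hF : Sup F X) :
    ∑ x ∈ Icc (1 : ℤ) X, ∑ b ∈ Icc (-(X : ℤ)) X, ∑ c ∈ Icc (-(X : ℤ)) X, F x * F (x + b) * F (x + c) * F (x + b + c)
      = ∑ a ∈ Icc (1 : ℤ) X, ∑ b ∈ Icc (1 : ℤ) X, ∑ c ∈ Icc (1 : ℤ) X, ∑ d ∈ Icc (1 : ℤ) X,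
          if a + b = c + d then F a * F b * (F c * F d) else 0 := by
  apply sum_congr rfl
  intro x hx
  rw [mem_Icc] at hx
  have e1 : ∀ b ∈ Icc (-(X : ℤ)) X, ∑ c ∈ Icc (-(X : ℤ)) X, F x * F (x + b) * F (x + c) * F (x + b + c)
      = (fun m : ℤ => ∑ n ∈ Icc (1 : ℤ) X, F x * F m * F n * F (m + n - x)) (x + b) := by
    intro b _
    have h1 := shift_sum (G := fun n => F x * F (x + b) * F n * F (x + b + n - x)) (X := X) (by
      intro n hn
      exact hF n (right_ne_zero_of_mul (left_ne_zero_of_mul hn))) hx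
    simp only
    rw [← h1]
    apply sum_congr rfl
    intro c _
    congr 2
    ring
  rw [sum_congr rfl e1, shift_sum (G := fun m : ℤ => ∑ n ∈ Icc (1 : ℤ) X, F x * F m * F n * F (m + n - x)) (X := X) (by
    intro m hm
    apply hF m
    intro h0
    apply hm
    apply sum_eq_zero
    intro n _
    rw [h0]; ring) hx]
  have e2 : ∀ c ∈ Icc (1 : ℤ) X, ∀ d ∈ Icc (1 : ℤ) X, F x * F c * F d * F (c + d - x)
      = ∑ b ∈ Icc (1 : ℤ) X, if x + b = c + d then F x * F b * (F c * F d) else 0 := by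
    intro c _ d _
    have e3 : ∀ b ∈ Icc (1 : ℤ) X, (if x + b = c + d then F x * F b * (F c * F d) else 0)
        = if b = c + d - x then F x * F b * (F c * F d) else 0 := by
      intro b _
      by_cases h : x + b = c + d
      · rw [if_pos h, if_pos (by omega)]
      · rw [if_neg h, if_neg (by omega)]
    rw [sum_congr rfl e3, sum_ite_eq']
    split_ifs with h
    · ring
    · have : F (c + d - x) = 0 := by
        by_contra h2
        exact h (by rw [mem_Icc]; exact hF _ h2)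
      rw [this]; ring
  rw [sum_congr rfl fun c hc => sum_congr rfl fun d hd => e2 c hc d hd]
  symm
  rw [sum_comm]
  apply sum_congr rfl
  intro c _
  rw [sum_comm]

/-- the Gowers norm is the mean of the fourth moments of the spectra -/
theorem U3_eq {g : ℤ → ℝ} {X : ℕ} (hs : Sup g X) (hp : 2 * X ≤ p) :
    (p : ℝ) * U3 g X = ∑ h ∈ Icc (-(X : ℤ)) X, ∑ ξ : ZMod p, ‖A p g X h ξ‖ ^ 4 := by
  unfold U3
  rw [sum_comm, mul_sum]
  apply sum_congr rfl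
  intro h _
  have h1 := moment_four (p := p) (Icc (1 : ℤ) X) (fun n => g n * g (n + h)) (L := X)
    (fun n hn => by rw [mem_Icc] at hn; exact hn) (by exact_mod_cast hp)
  have h2 := quad_sum (der_sup hs h)
  unfold A
  rw [h1, ← h2]
  congr 1
  apply sum_congr rfl; intro x _
  apply sum_congr rfl; intro b _
  apply sum_congr rfl; intro c _
  have e1 : x + b + h = x + h + b := by ring
  have e2 : x + c + h = x + h + c := by ring
  have e3 : x + b + c + h = x + h + b + c := by ring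
  rw [e1, e2, e3]
  ring

theorem A_le {g : ℤ → ℝ} (hg : ∀ n, |g n| ≤ 1) (X : ℕ) (h : ℤ) (ξ : ZMod p) : ‖A p g X h ξ‖ ≤ X := by
  unfold A
  refine (norm_sum_le _ _).trans ?_
  have h1 : ∀ n ∈ Icc (1 : ℤ) X, ‖((g n * g (n + h) : ℝ) : ℂ) * psi p (ξ * n)‖ ≤ 1 := by
    intro n _
    rw [norm_mul, psi_norm, mul_one, Complex.norm_real, Real.norm_eq_abs]
    exact der_abs hg h n
  refine (sum_le_sum h1).trans ?_
  simp

theorem cast_inj {X : ℕ} (hp : X ≤ p) : Set.InjOn (fun n : ℤ => (n : ZMod p)) (Icc (1 : ℤ) X : Finset ℤ) := by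
  intro a ha b hb hab
  simp only [coe_Icc, Set.mem_Icc] at ha hb
  simp only at hab
  rw [ZMod.intCast_eq_intCast_iff_dvd_sub] at hab
  obtain ⟨k, hk⟩ := hab
  have hp0 : (0 : ℤ) < p := by exact_mod_cast NeZero.pos p
  have hp1 : (X : ℤ) ≤ p := by exact_mod_cast hp
  have hk0 : k = 0 := by
    by_contra hne
    rcases lt_or_gt_of_ne hne with h5 | h5
    · have : (p : ℤ) * k ≤ (p : ℤ) * (-1) := mul_le_mul_of_nonneg_left (by omega) hp0.le
      omega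
    · have : (p : ℤ) * 1 ≤ (p : ℤ) * k := mul_le_mul_of_nonneg_left (by omega) hp0.le
      omega
  rw [hk0] at hk
  omega

theorem A_sq {g : ℤ → ℝ} (hg : ∀ n, |g n| ≤ 1) {X : ℕ} (hp : X ≤ p) (h : ℤ) :
    ∑ ξ : ZMod p, ‖A p g X h ξ‖ ^ 2 ≤ p * X := by
  unfold A
  rw [parseval_inj (Icc (1 : ℤ) X) (fun n : ℤ => (n : ZMod p)) (cast_inj hp)]
  apply mul_le_mul_of_nonneg_left _ (Nat.cast_nonneg _)
  have h1 : ∀ n ∈ Icc (1 : ℤ) X, ‖((g n * g (n + h) : ℝ) : ℂ)‖ ^ 2 ≤ 1 := by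
    intro n _
    rw [Complex.norm_real, Real.norm_eq_abs]
    exact pow_le_one₀ (abs_nonneg _) (der_abs hg h n)
  refine (sum_le_sum h1).trans ?_
  simp

/-- the fourth moment is bounded by the largest value -/
theorem four_le {g : ℤ → ℝ} (hg : ∀ n, |g n| ≤ 1) {X : ℕ} (hp : X ≤ p) (h : ℤ) {m : ℝ} (hm0 : 0 ≤ m)
    (hm : ∀ ξ : ZMod p, ‖A p g X h ξ‖ ≤ m) : ∑ ξ : ZMod p, ‖A p g X h ξ‖ ^ 4 ≤ m ^ 2 * (p * X) := by
  have h1 : ∀ ξ ∈ (univ : Finset (ZMod p)), ‖A p g X h ξ‖ ^ 4 ≤ m ^ 2 * ‖A p g X h ξ‖ ^ 2 := by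
    intro ξ _
    have h2 : ‖A p g X h ξ‖ ^ 2 ≤ m ^ 2 := pow_le_pow_left₀ (norm_nonneg _) (hm ξ) 2
    have e : ‖A p g X h ξ‖ ^ 4 = ‖A p g X h ξ‖ ^ 2 * ‖A p g X h ξ‖ ^ 2 := by ring
    rw [e]
    exact mul_le_mul_of_nonneg_right h2 (sq_nonneg _)
  refine (sum_le_sum h1).trans ?_
  rw [← mul_sum]
  exact mul_le_mul_of_nonneg_left (A_sq hg hp h) (sq_nonneg _)

open Classical in
/-- a large Gowers norm gives many large correlations -/
theorem many_h {ε τ : ℝ} (hτ0 : 0 < τ) (hτ : 6 * τ ^ 2 ≤ ε) {X : ℕ} (hX : 1 ≤ X) (hp : 2 * X ≤ p)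
    {g : ℤ → ℝ} (hg : ∀ n, |g n| ≤ 1) (hs : Sup g X) (hU : ε * X ^ 4 < U3 g X) :
    ε / 2 * X ≤ (((Icc (-(X : ℤ)) X).filter (fun h => ∃ ξ : ZMod p, τ * X ≤ ‖A p g X h ξ‖)).card : ℝ) := by
  set H := (Icc (-(X : ℤ)) X).filter (fun h => ∃ ξ : ZMod p, τ * X ≤ ‖A p g X h ξ‖) with hH
  have hpX : X ≤ p := by omega
  have hp0 : (0 : ℝ) < p := by exact_mod_cast NeZero.pos p
  have hX0 : (1 : ℝ) ≤ X := by exact_mod_cast hX
  have h1 : (p : ℝ) * U3 g X ≤ H.card * ((X : ℝ) ^ 2 * (p * X)) + (2 * X + 1) * ((τ * X) ^ 2 * (p * X)) := by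
    rw [U3_eq hs hp, ← sum_filter_add_sum_filter_not (Icc (-(X : ℤ)) X) (fun h => ∃ ξ : ZMod p, τ * X ≤ ‖A p g X h ξ‖)]
    apply add_le_add
    · rw [← nsmul_eq_mul]
      apply sum_le_card_nsmul
      intro h _
      exact four_le hg hpX h (Nat.cast_nonneg _) (fun ξ => A_le hg X h ξ)
    · have h2 : ∀ h ∈ (Icc (-(X : ℤ)) X).filter (fun h => ¬ ∃ ξ : ZMod p, τ * X ≤ ‖A p g X h ξ‖),
          ∑ ξ : ZMod p, ‖A p g X h ξ‖ ^ 4 ≤ (τ * X) ^ 2 * (p * X) := by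
        intro h hh
        rw [mem_filter] at hh
        have h3 := hh.2
        push Not at h3
        exact four_le hg hpX h (by positivity) (fun ξ => (h3 ξ).le)
      refine (sum_le_card_nsmul _ _ _ h2).trans ?_
      rw [nsmul_eq_mul]
      apply mul_le_mul_of_nonneg_right _ (by positivity)
      have h4 : ((Icc (-(X : ℤ)) X).filter (fun h => ¬ ∃ ξ : ZMod p, τ * X ≤ ‖A p g X h ξ‖)).card ≤ (Icc (-(X : ℤ)) X).card :=
        card_filter_le _ _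
      have h5 : (Icc (-(X : ℤ)) X).card = 2 * X + 1 := by
        rw [Int.card_Icc]; omega
      rw [h5] at h4
      exact_mod_cast h4
  have h2 : (p : ℝ) * (ε * X ^ 4) < H.card * ((X : ℝ) ^ 2 * (p * X)) + (2 * X + 1) * ((τ * X) ^ 2 * (p * X)) :=
    lt_of_lt_of_le (mul_lt_mul_of_pos_left hU hp0) h1
  have h3 : ε * X < H.card + (2 * X + 1) * τ ^ 2 := by
    have e : (p : ℝ) * X ^ 3 * (ε * X) < p * X ^ 3 * (H.card + (2 * X + 1) * τ ^ 2) := by
      calc (p : ℝ) * X ^ 3 * (ε * X) = p * (ε * X ^ 4) := by ring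
        _ < _ := h2
        _ = _ := by ring
    exact lt_of_mul_lt_mul_left e (by positivity)
  nlinarith [mul_le_mul_of_nonneg_left hτ (show (0 : ℝ) ≤ 2 * X + 1 by positivity), sq_nonneg τ]

end Pool.Agent.W36.GU
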