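import Pool.Agent.W36.GU.GU3

/-! Local constancy and the size of the frequencies. -/

set_option autoImplicit false

namespace Pool.Agent.W36.GU

open Finset

variable {p : ℕ} [NeZero p]

/-- restriction to a window -/
noncomputable def win (M N : ℕ) (f : ℤ → ℝ) (x : ℤ) : ℝ := if (M : ℤ) < x ∧ x ≤ N then f x else 0

theorem win_abs {f : ℤ → ℝ} (hf : ∀ n, |f n| ≤ 1) (M N : ℕ) (x : ℤ) : |win M N f x| ≤ 1 := by
  unfold win
  split_ifs
  · exact hf x
  · simp

theorem win_sup (f : ℤ → ℝ) (M : ℕ) {N X : ℕ} (hN : N ≤ X) : Sup (win M N f) X := by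
  intro n hn
  unfold win at hn
  split_ifs at hn with h
  · have : (N : ℤ) ≤ X := by exact_mod_cast hN
    have : (0 : ℤ) ≤ M := Int.natCast_nonneg _
    omega
  · exact absurd rfl hn

theorem win_local {f : ℤ → ℝ} (hf : ∀ n, |f n| ≤ 1) {M N X : ℕ} (hN : N ≤ X) {κ : ℝ} (j : ℕ)
    (h1 : ∑ n ∈ Icc (1 : ℤ) X, |f (n + j) - f n| ≤ κ * X) (s : Finset ℤ) :
    ∑ m ∈ s, |win M N f (m + j) - win M N f m| ≤ κ * X + 2 * j := by
  have hNX : (N : ℤ) ≤ X := by exact_mod_cast hN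
  have hM0 : (0 : ℤ) ≤ M := Int.natCast_nonneg _
  have hpt : ∀ m ∈ s, |win M N f (m + j) - win M N f m| ≤ (if m ∈ Icc (1 : ℤ) X then |f (m + j) - f m| else 0)
      + (if m ∈ Ioc ((M : ℤ) - j) M then (1 : ℝ) else 0) + (if m ∈ Ioc ((N : ℤ) - j) N then (1 : ℝ) else 0) := by
    intro m _
    have a0 : (0 : ℝ) ≤ (if m ∈ Icc (1 : ℤ) X then |f (m + j) - f m| else 0) := by split_ifs; exacts [abs_nonneg _, le_rfl]
    have b0 : (0 : ℝ) ≤ (if m ∈ Ioc ((M : ℤ) - j) M then (1 : ℝ) else 0) := by split_ifs <;> norm_num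
    have c0 : (0 : ℝ) ≤ (if m ∈ Ioc ((N : ℤ) - j) N then (1 : ℝ) else 0) := by split_ifs <;> norm_num
    unfold win
    by_cases h2 : (M : ℤ) < m + j ∧ m + j ≤ N
    · rw [if_pos h2]
      by_cases h3 : (M : ℤ) < m ∧ m ≤ N
      · rw [if_pos h3, if_pos (show m ∈ Icc (1 : ℤ) X by rw [mem_Icc]; omega)]
        linarith
      · rw [if_neg h3, if_pos (show m ∈ Ioc ((M : ℤ) - j) M by rw [mem_Ioc]; omega), sub_zero]
        have := hf (m + j)
        linarith
    · rw [if_neg h2]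
      by_cases h3 : (M : ℤ) < m ∧ m ≤ N
      · rw [if_pos h3, if_pos (show m ∈ Ioc ((N : ℤ) - j) N by rw [mem_Ioc]; omega), zero_sub, abs_neg]
        have := hf m
        linarith
      · rw [if_neg h3, sub_zero, abs_zero]
        linarith
  refine (sum_le_sum hpt).trans ?_
  rw [sum_add_distrib, sum_add_distrib, sum_ite_mem, sum_ite_mem, sum_ite_mem]
  have e1 : ∑ i ∈ s ∩ Icc (1 : ℤ) X, |f (i + j) - f i| ≤ κ * X :=
    (sum_le_sum_of_subset_of_nonneg inter_subset_right fun _ _ _ => abs_nonneg _).trans h1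
  have e2 : ∑ i ∈ s ∩ Ioc ((M : ℤ) - j) M, (1 : ℝ) ≤ j := by
    rw [sum_const, nsmul_eq_mul, mul_one]
    have : (s ∩ Ioc ((M : ℤ) - j) M).card ≤ j := by
      refine (card_le_card inter_subset_right).trans ?_
      rw [Int.card_Ioc]; omega
    exact_mod_cast this
  have e3 : ∑ i ∈ s ∩ Ioc ((N : ℤ) - j) N, (1 : ℝ) ≤ j := by
    rw [sum_const, nsmul_eq_mul, mul_one]
    have : (s ∩ Ioc ((N : ℤ) - j) N).card ≤ j := by
      refine (card_le_card inter_subset_right).trans ?_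
      rw [Int.card_Ioc]; omega
    exact_mod_cast this
  linarith

/-- sums over translates -/
theorem sum_tr (s : Finset ℤ) (t : ℤ) (G : ℤ → ℝ) : ∑ n ∈ s, G (n + t) = ∑ n ∈ s.map (addRightEmbedding t), G n := by
  rw [sum_map]; rfl

theorem der_local {f : ℤ → ℝ} (hf : ∀ n, |f n| ≤ 1) {M N X : ℕ} (hN : N ≤ X) {κ : ℝ} (j : ℕ)
    (h1 : ∑ n ∈ Icc (1 : ℤ) X, |f (n + j) - f n| ≤ κ * X) (h : ℤ) (s : Finset ℤ) :
    ∑ m ∈ s, |win M N f (m + j) * win M N f (m + j + h) - win M N f m * win M N f (m + h)| ≤ 2 * (κ * X + 2 * j) := by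
  have hpt : ∀ m ∈ s, |win M N f (m + j) * win M N f (m + j + h) - win M N f m * win M N f (m + h)|
      ≤ |win M N f ((m + h) + j) - win M N f (m + h)| + |win M N f (m + j) - win M N f m| := by
    intro m _
    have e : win M N f (m + j) * win M N f (m + j + h) - win M N f m * win M N f (m + h)
        = win M N f (m + j) * (win M N f ((m + h) + j) - win M N f (m + h))
          + (win M N f (m + j) - win M N f m) * win M N f (m + h) := by
      have e2 : m + j + h = m + h + j := by ring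
      rw [e2]; ring
    rw [e]
    refine (abs_add_le _ _).trans ?_
    rw [abs_mul, abs_mul]
    exact add_le_add (mul_le_of_le_one_left (abs_nonneg _) (win_abs hf _ _ _))
      (mul_le_of_le_one_right (abs_nonneg _) (win_abs hf _ _ _))
  refine (sum_le_sum hpt).trans ?_
  rw [sum_add_distrib, sum_tr s h (fun n => |win M N f (n + j) - win M N f n|)]
  have a1 := win_local hf (M := M) hN j h1 (s.map (addRightEmbedding h))
  have a2 := win_local hf (M := M) hN j h1 s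
  linarith

/-- the correlations change slowly with the shift -/
theorem A_shift {f : ℤ → ℝ} (hf : ∀ n, |f n| ≤ 1) {M N X : ℕ} (hN : N ≤ X) {κ : ℝ} (j : ℕ)
    (h1 : ∑ n ∈ Icc (1 : ℤ) X, |f (n + j) - f n| ≤ κ * X) (h : ℤ) (ξ : ZMod p) :
    ‖A p (win M N f) X (h + j) ξ - A p (win M N f) X h ξ‖ ≤ κ * X + 2 * j := by
  unfold A
  rw [← sum_sub_distrib]
  refine (norm_sum_le _ _).trans ?_
  have hpt : ∀ n ∈ Icc (1 : ℤ) X, ‖((win M N f n * win M N f (n + (h + j)) : ℝ) : ℂ) * psi p (ξ * n)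
      - ((win M N f n * win M N f (n + h) : ℝ) : ℂ) * psi p (ξ * n)‖ ≤ |win M N f ((n + h) + j) - win M N f (n + h)| := by
    intro n _
    rw [← sub_mul, norm_mul, psi_norm, mul_one, ← Complex.ofReal_sub, Complex.norm_real, Real.norm_eq_abs, ← mul_sub, abs_mul]
    have e : n + (h + j) = n + h + j := by ring
    rw [e]
    exact mul_le_of_le_one_left (abs_nonneg _) (win_abs hf _ _ _)
  refine (sum_le_sum hpt).trans ?_
  rw [sum_tr (Icc (1 : ℤ) X) h (fun n => |win M N f (n + j) - win M N f n|)]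
  exact win_local hf (M := M) hN j h1 _

theorem A_freq {f : ℤ → ℝ} (hf : ∀ n, |f n| ≤ 1) {M N X : ℕ} (hN : N ≤ X) {κ : ℝ} (j : ℕ) (hj : j ≤ X)
    (h1 : ∑ n ∈ Icc (1 : ℤ) X, |f (n + j) - f n| ≤ κ * X) (h : ℤ) (ξ : ZMod p) :
    ‖A p (win M N f) X h ξ‖ * ‖1 - psi p (ξ * (j : ℤ))‖ ≤ 2 * (κ * X + 2 * j) := by
  have hs := der_sup (win_sup f M hN) h
  have hG : ∀ n : ℤ, ((win M N f n * win M N f (n + h) : ℝ) : ℂ) * psi p (ξ * n) ≠ 0 → 1 ≤ n ∧ n ≤ X := by
    intro n hn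
    apply hs n
    intro h0
    apply hn
    simp only at h0
    rw [h0]; simp
  have hjX : |(j : ℤ)| ≤ X := by rw [abs_of_nonneg (Int.natCast_nonneg _)]; exact_mod_cast hj
  have e1 := shift_big (G := fun n : ℤ => ((win M N f n * win M N f (n + h) : ℝ) : ℂ) * psi p (ξ * n)) hG hjX
  have e2 := shift_big (G := fun n : ℤ => ((win M N f n * win M N f (n + h) : ℝ) : ℂ) * psi p (ξ * n)) hG (t := 0) (by simp)
  have e3 : A p (win M N f) X h ξ * (1 - psi p (ξ * (j : ℤ))) = ∑ n ∈ Icc (-(X : ℤ)) (2 * X),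
      (((win M N f (n + j) * win M N f (n + j + h) - win M N f n * win M N f (n + h) : ℝ) : ℂ) * psi p (ξ * ((n + j : ℤ) : ZMod p))) := by
    rw [mul_sub, mul_one]
    have e4 : A p (win M N f) X h ξ * psi p (ξ * (j : ℤ)) = ∑ n ∈ Icc (-(X : ℤ)) (2 * X),
        ((win M N f n * win M N f (n + h) : ℝ) : ℂ) * psi p (ξ * ((n + j : ℤ) : ZMod p)) := by
      unfold A
      rw [← e2, sum_mul]
      apply sum_congr rfl
      intro n _
      simp only [add_zero]
      rw [mul_assoc, ← psi_add]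
      congr 2
      push_cast; ring
    have e5 : A p (win M N f) X h ξ = ∑ n ∈ Icc (-(X : ℤ)) (2 * X),
        ((win M N f (n + j) * win M N f (n + j + h) : ℝ) : ℂ) * psi p (ξ * ((n + j : ℤ) : ZMod p)) := by
      unfold A
      rw [← e1]
    rw [e4]
    nth_rewrite 1 [e5]
    rw [← sum_sub_distrib]
    apply sum_congr rfl
    intro n _
    push_cast
    ring
  rw [← norm_mul, e3]
  refine (norm_sum_le _ _).trans ?_
  have hpt : ∀ n ∈ Icc (-(X : ℤ)) (2 * X), ‖(((win M N f (n + j) * win M N f (n + j + h) - win M N f n * win M N f (n + h) : ℝ) : ℂ)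
      * psi p (ξ * ((n + j : ℤ) : ZMod p)))‖
      ≤ |win M N f (n + j) * win M N f (n + j + h) - win M N f n * win M N f (n + h)| := by
    intro n _
    rw [norm_mul, psi_norm, mul_one, Complex.norm_real, Real.norm_eq_abs]
  exact (sum_le_sum hpt).trans (der_local hf hN j h1 h _)

/-- distance to one of the character values -/
theorem psi_sub_one (x : ℤ) : ‖psi p (x : ZMod p) - 1‖ ≤ 2 * Real.pi * |(x : ℝ)| / p := by
  rw [psi_int]
  have hp0 : (0 : ℝ) < p := by exact_mod_cast NeZero.pos p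
  have e : Complex.exp (2 * Real.pi * Complex.I * x / p) = Complex.exp (Complex.I * ((2 * Real.pi * x / p : ℝ) : ℂ)) := by
    congr 1; push_cast; ring
  rw [e]
  refine Real.norm_exp_I_mul_ofReal_sub_one_le.trans ?_
  rw [Real.norm_eq_abs, abs_div, abs_mul, abs_of_pos (show (0 : ℝ) < 2 * Real.pi by positivity), abs_of_pos hp0]

theorem one_sub_psi (x : ℤ) : ‖1 - psi p (x : ZMod p)‖ ^ 2 = 2 - 2 * Real.cos (2 * Real.pi * x / p) := by
  rw [psi_int]
  have e : Complex.exp (2 * Real.pi * Complex.I * x / p) = Complex.exp (((2 * Real.pi * x / p : ℝ) : ℂ) * Complex.I) := by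
    congr 1; push_cast; ring
  rw [e, Complex.exp_mul_I, ← Complex.ofReal_cos, ← Complex.ofReal_sin, ← Complex.normSq_eq_norm_sq, Complex.normSq_apply]
  simp only [Complex.sub_re, Complex.one_re, Complex.add_re, Complex.ofReal_re, Complex.mul_re, Complex.I_re, mul_zero,
    Complex.ofReal_im, Complex.I_im, mul_one, sub_self, add_zero, Complex.sub_im, Complex.one_im, Complex.add_im,
    Complex.mul_im, zero_sub, zero_add]
  nlinarith [Real.sin_sq_add_cos_sq (2 * Real.pi * x / p)]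

theorem freq_lem {x : ℤ} (hx : 2 * |x| ≤ p) {J : ℕ} (hJ : 1 ≤ J)
    (h : ∀ j : ℕ, 1 ≤ j → j ≤ J → ‖1 - psi p ((x * j : ℤ) : ZMod p)‖ < 1) : |(x : ℝ)| * (4 * J) < p := by
  have hp0 : (0 : ℝ) < p := by exact_mod_cast NeZero.pos p
  by_contra hcon
  push Not at hcon
  set θ : ℝ := |(x : ℝ)| / p with hθ
  have hθ1 : θ ≤ 1 / 2 := by
    rw [hθ, div_le_iff₀ hp0]
    have : 2 * |(x : ℝ)| ≤ p := by exact_mod_cast hx
    linarith
  have hJ0 : (1 : ℝ) ≤ J := by exact_mod_cast hJ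
  have hθ2 : 1 / (4 * J) ≤ θ := by
    rw [hθ, div_le_div_iff₀ (by positivity) hp0]
    linarith
  have hθ0 : 0 < θ := lt_of_lt_of_le (by positivity) hθ2
  obtain ⟨j, hj1, hjJ, hj2, hj3⟩ : ∃ j : ℕ, 1 ≤ j ∧ j ≤ J ∧ 1 / 4 ≤ θ * j ∧ θ * j ≤ 1 / 2 := by
    rcases le_or_gt (1 / 4) θ with h4 | h4
    · exact ⟨1, le_rfl, hJ, by simpa using h4, by simpa using hθ1⟩
    · refine ⟨⌈1 / (4 * θ)⌉₊, ?_, ?_, ?_, ?_⟩
      · exact Nat.one_le_ceil_iff.2 (by positivity)
      · rw [Nat.ceil_le, div_le_iff₀ (by positivity)]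
        rw [div_le_iff₀ (by positivity)] at hθ2
        linarith
      · have h5 := Nat.le_ceil (1 / (4 * θ))
        have h6 : θ * (1 / (4 * θ)) ≤ θ * ⌈1 / (4 * θ)⌉₊ := mul_le_mul_of_nonneg_left h5 hθ0.le
        have h7 : θ * (1 / (4 * θ)) = 1 / 4 := by field_simp
        linarith
      · have h5 := (Nat.ceil_lt_add_one (show 0 ≤ 1 / (4 * θ) by positivity)).le
        have h6 : θ * ⌈1 / (4 * θ)⌉₊ ≤ θ * (1 / (4 * θ) + 1) := mul_le_mul_of_nonneg_left h5 hθ0.le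
        have h7 : θ * (1 / (4 * θ) + 1) = 1 / 4 + θ := by field_simp
        linarith
  have h1 := h j hj1 hjJ
  have h2 := one_sub_psi (p := p) (x * j)
  have h3 : ‖1 - psi p ((x * j : ℤ) : ZMod p)‖ ^ 2 < 1 := by
    nlinarith [norm_nonneg (1 - psi p ((x * j : ℤ) : ZMod p))]
  rw [h2] at h3
  have hcos : Real.cos (2 * Real.pi * ((x * j : ℤ) : ℝ) / p) ≤ 0 := by
    rw [← Real.cos_abs]
    have e : |2 * Real.pi * ((x * j : ℤ) : ℝ) / p| = 2 * Real.pi * (θ * j) := by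
      rw [abs_div, abs_mul, abs_of_pos (show (0 : ℝ) < 2 * Real.pi by positivity), abs_of_pos hp0, hθ]
      push_cast
      rw [abs_mul, Nat.abs_cast]
      ring
    rw [e]
    apply Real.cos_nonpos_of_pi_div_two_le_of_le
    · nlinarith [Real.pi_pos]
    · nlinarith [Real.pi_pos]
  linarith

/-- the frequencies of large correlations are small -/
theorem freq_small {f : ℤ → ℝ} (hf : ∀ n, |f n| ≤ 1) {M N X : ℕ} (hN : N ≤ X) {κ σ : ℝ} {J : ℕ} (hJ : 1 ≤ J)
    (hJX : J ≤ X) (hκ : 0 ≤ κ) (h1 : ∀ j : ℕ, j ≤ J → ∑ n ∈ Icc (1 : ℤ) X, |f (n + j) - f n| ≤ κ * X)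
    (hnum : 2 * (κ * X + 2 * J) < σ * X) {h : ℤ} {ξ : ZMod p} (hA : σ * X ≤ ‖A p (win M N f) X h ξ‖) :
    |(ξ.valMinAbs : ℝ)| * (4 * J) < p := by
  apply freq_lem _ hJ
  · intro j hj1 hjJ
    have h2 := A_freq (p := p) hf (M := M) hN j (hjJ.trans hJX) (h1 j hjJ) h ξ
    have e : psi p ((ξ.valMinAbs * j : ℤ) : ZMod p) = psi p (ξ * (j : ℤ)) := by
      congr 1
      rw [Int.cast_mul, ZMod.coe_valMinAbs]
    rw [e]
    by_contra hcon
    push Not at hcon
    have hjR : (j : ℝ) ≤ J := by exact_mod_cast hjJ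
    have h3 : ‖A p (win M N f) X h ξ‖ * 1 ≤ ‖A p (win M N f) X h ξ‖ * ‖1 - psi p (ξ * (j : ℤ))‖ :=
      mul_le_mul_of_nonneg_left hcon (norm_nonneg _)
    linarith
  · have h2 := ZMod.natAbs_valMinAbs_le ξ
    have h3 : |ξ.valMinAbs| = (ξ.valMinAbs.natAbs : ℤ) := Int.abs_eq_natAbs _
    rw [h3]
    omega

end Pool.Agent.W36.GU
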