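import Pool.Agent.W36.GU.GU5

/-! Dilations of the large spectrum. -/

set_option autoImplicit false

namespace Pool.Agent.W36.GU

open Finset

variable {p : ℕ} [NeZero p]

theorem split_sum {G : ℤ → ℂ} {X : ℕ} (hG : ∀ n, G n ≠ 0 → 1 ≤ n ∧ n ≤ X) {v : ℕ} (hv : 1 ≤ v) :
    ∑ n ∈ Icc (1 : ℤ) X, G n = ∑ i ∈ range v, ∑ m ∈ Icc (0 : ℤ) X, G (v * m + (i : ℕ)) := by
  have hv0 : (0 : ℤ) < v := by exact_mod_cast hv
  rw [← sum_product']
  have h1 : ∑ q ∈ range v ×ˢ Icc (0 : ℤ) X, G (v * q.2 + (q.1 : ℕ))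
      = ∑ n ∈ (range v ×ˢ Icc (0 : ℤ) X).image (fun q => (v : ℤ) * q.2 + (q.1 : ℕ)), G n := by
    rw [sum_image]
    rintro ⟨i, m⟩ hq ⟨i', m'⟩ hq' h
    rw [mem_coe, mem_product, mem_range] at hq hq'
    simp only at h hq hq'
    have e1 : ((v : ℤ) * m + (i : ℕ)) / v = m := by
      rw [add_comm, Int.add_mul_ediv_left _ _ hv0.ne', Int.ediv_eq_zero_of_lt (by omega) (by omega), zero_add]
    have e2 : ((v : ℤ) * m' + (i' : ℕ)) / v = m' := by
      rw [add_comm, Int.add_mul_ediv_left _ _ hv0.ne', Int.ediv_eq_zero_of_lt (by omega) (by omega), zero_add]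
    have hm : m = m' := by rw [← e1, ← e2, h]
    subst hm
    have : i = i' := by omega
    rw [this]
  rw [h1]
  apply sum_subset
  · intro n hn
    rw [mem_Icc] at hn
    rw [mem_image]
    refine ⟨((n % v).toNat, n / v), ?_, ?_⟩
    · rw [mem_product, mem_range, mem_Icc]
      have a1 := Int.emod_nonneg n hv0.ne'
      have a2 := Int.emod_lt_of_pos n hv0
      refine ⟨by simp only; omega, Int.ediv_nonneg (by omega) hv0.le, ?_⟩
      simp only
      calc n / v ≤ n := Int.ediv_le_self _ (by omega)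
        _ ≤ X := hn.2
    · simp only
      rw [Int.toNat_of_nonneg (Int.emod_nonneg n hv0.ne')]
      exact Int.mul_ediv_add_emod n v
  · intro n _ hn
    by_contra h
    exact hn (by rw [mem_Icc]; exact hG n h)

theorem count_mul {X v : ℕ} (hv : 1 ≤ v) (s : Finset ℤ) :
    ∑ m ∈ s, (if 1 ≤ (v : ℤ) * m ∧ (v : ℤ) * m ≤ X then (1 : ℝ) else 0) ≤ X / v := by
  have hv0 : (0 : ℤ) < v := by exact_mod_cast hv
  have hvR : (0 : ℝ) < v := by exact_mod_cast hv
  rw [sum_boole]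
  have h1 : (s.filter (fun m : ℤ => 1 ≤ (v : ℤ) * m ∧ (v : ℤ) * m ≤ X)).card ≤ X / v := by
    have h2 : s.filter (fun m : ℤ => 1 ≤ (v : ℤ) * m ∧ (v : ℤ) * m ≤ X) ⊆ Icc (1 : ℤ) ((X / v : ℕ) : ℤ) := by
      intro m hm
      rw [mem_filter] at hm
      rw [mem_Icc]
      constructor
      · by_contra h
        have : (v : ℤ) * m ≤ v * 0 := mul_le_mul_of_nonneg_left (by omega) hv0.le
        omega
      · push_cast
        rw [Int.le_ediv_iff_mul_le hv0, mul_comm]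
        exact hm.2.2
    refine (card_le_card h2).trans ?_
    rw [Int.card_Icc, add_sub_cancel_right, Int.toNat_natCast]
  calc ((s.filter (fun m : ℤ => 1 ≤ (v : ℤ) * m ∧ (v : ℤ) * m ≤ X)).card : ℝ) ≤ ((X / v : ℕ) : ℝ) := by exact_mod_cast h1
    _ ≤ X / v := Nat.cast_div_le

/-- passing to a subprogression -/
theorem prog {F : ℤ → ℝ} {X : ℕ} (hF : ∀ n, |F n| ≤ 1) (hs : Sup F X) {v : ℕ} (hv : 1 ≤ v) {D ρ : ℝ} (hρ : 0 ≤ ρ)
    (hD : ∀ i < v, ∀ s : Finset ℤ, ∑ m ∈ s, |F (m + (i : ℕ)) - F m| ≤ D) (ξ : ZMod p)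
    (hψ : ∀ i < v, ‖psi p (ξ * ((i : ℕ) : ℤ)) - 1‖ ≤ ρ) :
    ‖∑ n ∈ Icc (1 : ℤ) X, (F n : ℂ) * psi p (ξ * n) - v * ∑ m ∈ Icc (0 : ℤ) X, (F (v * m) : ℂ) * psi p (ξ * (v * m : ℤ))‖
      ≤ v * D + X * ρ := by
  have hvR : (0 : ℝ) < v := by exact_mod_cast hv
  rw [split_sum (G := fun n : ℤ => (F n : ℂ) * psi p (ξ * n)) (X := X) (by
    intro n hn
    apply hs n
    intro h0
    apply hn
    rw [h0]; simp) hv]
  have e1 : (v : ℂ) * ∑ m ∈ Icc (0 : ℤ) X, (F (v * m) : ℂ) * psi p (ξ * (v * m : ℤ))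
      = ∑ i ∈ range v, ∑ m ∈ Icc (0 : ℤ) X, (F (v * m) : ℂ) * psi p (ξ * (v * m : ℤ)) := by
    rw [sum_const, card_range, nsmul_eq_mul]
  rw [e1, ← sum_sub_distrib]
  refine (norm_sum_le _ _).trans ?_
  have h1 : ∀ i ∈ range v, ‖∑ m ∈ Icc (0 : ℤ) X, (F (v * m + (i : ℕ)) : ℂ) * psi p (ξ * (v * m + (i : ℕ) : ℤ))
      - ∑ m ∈ Icc (0 : ℤ) X, (F (v * m) : ℂ) * psi p (ξ * (v * m : ℤ))‖ ≤ D + X / v * ρ := by
    intro i hi
    rw [mem_range] at hi
    rw [← sum_sub_distrib]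
    refine (norm_sum_le _ _).trans ?_
    have h2 : ∀ m ∈ Icc (0 : ℤ) X, ‖(F (v * m + (i : ℕ)) : ℂ) * psi p (ξ * (v * m + (i : ℕ) : ℤ))
        - (F (v * m) : ℂ) * psi p (ξ * (v * m : ℤ))‖
        ≤ |F (v * m + (i : ℕ)) - F (v * m)| + (if 1 ≤ (v : ℤ) * m ∧ (v : ℤ) * m ≤ X then (1 : ℝ) else 0) * ρ := by
      intro m _
      have e2 : (F (v * m + (i : ℕ)) : ℂ) * psi p (ξ * (v * m + (i : ℕ) : ℤ)) - (F (v * m) : ℂ) * psi p (ξ * (v * m : ℤ))
          = ((F (v * m + (i : ℕ)) - F (v * m) : ℝ) : ℂ) * psi p (ξ * (v * m + (i : ℕ) : ℤ))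
            + (F (v * m) : ℂ) * (psi p (ξ * (v * m : ℤ)) * (psi p (ξ * ((i : ℕ) : ℤ)) - 1)) := by
        have e3 : psi p (ξ * (v * m + (i : ℕ) : ℤ)) = psi p (ξ * (v * m : ℤ)) * psi p (ξ * ((i : ℕ) : ℤ)) := by
          rw [← psi_add]; congr 1; push_cast; ring
        rw [e3]
        push_cast
        ring
      rw [e2]
      refine (norm_add_le _ _).trans ?_
      rw [norm_mul, psi_norm, mul_one, Complex.norm_real, Real.norm_eq_abs, norm_mul, norm_mul, psi_norm, one_mul,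
        Complex.norm_real, Real.norm_eq_abs]
      apply add_le_add le_rfl
      split_ifs with h3
      · exact mul_le_mul (hF _) (hψ i hi) (norm_nonneg _) zero_le_one
      · have : F (v * m) = 0 := by
          by_contra h4
          exact h3 (hs _ h4)
        rw [this]; simp
    refine (sum_le_sum h2).trans ?_
    rw [sum_add_distrib, ← sum_mul]
    apply add_le_add
    · have h3 := hD i hi ((Icc (0 : ℤ) X).image (fun m => (v : ℤ) * m))
      rw [sum_image] at h3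
      · exact h3
      · intro a _ b _ hab
        have hv0 : (v : ℤ) ≠ 0 := by exact_mod_cast (by omega : v ≠ 0)
        exact mul_left_cancel₀ hv0 hab
    · exact mul_le_mul_of_nonneg_right (count_mul hv _) hρ
  refine (sum_le_sum h1).trans ?_
  rw [sum_const, card_range, nsmul_eq_mul]
  have : (v : ℝ) * (D + X / v * ρ) = v * D + X * ρ := by field_simp
  rw [this]

/-- indicator of the window -/
noncomputable def wi (M N : ℕ) (x : ℤ) : ℝ := if (M : ℤ) < x ∧ x ≤ N then 1 else 0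

theorem wi_nonneg (M N : ℕ) (x : ℤ) : 0 ≤ wi M N x := by unfold wi; split_ifs <;> norm_num
theorem wi_le (M N : ℕ) (x : ℤ) : wi M N x ≤ 1 := by unfold wi; split_ifs <;> norm_num
theorem wi_abs (M N : ℕ) (x : ℤ) : |wi M N x| ≤ 1 := by rw [abs_of_nonneg (wi_nonneg _ _ _)]; exact wi_le _ _ _

theorem win_wi (M N : ℕ) (f : ℤ → ℝ) (x : ℤ) : win M N f x = wi M N x * f x := by
  unfold win wi; split_ifs <;> simp

theorem wi_dil {f : ℤ → ℝ} {M N X U : ℕ} (hN : N ≤ X) (hU : 1 ≤ U) {κ : ℝ}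
    (h1 : ∑ n ∈ Icc (1 : ℤ) X, |f (U * n) - f n| ≤ κ * X) (s : Finset ℤ) :
    ∑ m ∈ s, wi M N (U * m) * |f (U * m) - f m| ≤ κ * X := by
  have hU0 : (1 : ℤ) ≤ U := by exact_mod_cast hU
  have hpt : ∀ m ∈ s, wi M N (U * m) * |f (U * m) - f m| ≤ if m ∈ Icc (1 : ℤ) X then |f (U * m) - f m| else 0 := by
    intro m _
    unfold wi
    by_cases h2 : (M : ℤ) < U * m ∧ (U : ℤ) * m ≤ N
    · have hm1 : 1 ≤ m := by
        by_contra h
        have : (U : ℤ) * m ≤ U * 0 := mul_le_mul_of_nonneg_left (by omega) (by omega)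
        omega
      have hm2 : m ≤ U * m := by nlinarith
      have : (N : ℤ) ≤ X := by exact_mod_cast hN
      rw [if_pos h2, if_pos (by rw [mem_Icc]; omega), one_mul]
    · rw [if_neg h2, zero_mul]
      split_ifs; exacts [abs_nonneg _, le_rfl]
  refine (sum_le_sum hpt).trans ?_
  rw [sum_ite_mem]
  exact (sum_le_sum_of_subset_of_nonneg inter_subset_right fun _ _ _ => abs_nonneg _).trans h1

/-- the normalised sum -/
noncomputable def Es (p : ℕ) [NeZero p] (f : ℤ → ℝ) (M N X U : ℕ) (k : ℤ) (ξ : ZMod p) : ℂ :=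
  ∑ m ∈ Icc (0 : ℤ) X, ((wi M N (U * m) * wi M N (U * (m + k)) * (f m * f (m + k)) : ℝ) : ℂ) * psi p (ξ * (U * m : ℤ))

theorem step_norm {f : ℤ → ℝ} (hf : ∀ n, |f n| ≤ 1) {M N X U : ℕ} (hN : N ≤ X) (hU : 1 ≤ U) {κ : ℝ}
    (h1 : ∑ n ∈ Icc (1 : ℤ) X, |f (U * n) - f n| ≤ κ * X) (k : ℤ) (ξ : ZMod p) :
    ‖∑ m ∈ Icc (0 : ℤ) X, ((win M N f (U * m) * win M N f (U * m + U * k) : ℝ) : ℂ) * psi p (ξ * (U * m : ℤ))
      - Es p f M N X U k ξ‖ ≤ 2 * (κ * X) := by
  unfold Es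
  rw [← sum_sub_distrib]
  refine (norm_sum_le _ _).trans ?_
  have hpt : ∀ m ∈ Icc (0 : ℤ) X, ‖((win M N f (U * m) * win M N f (U * m + U * k) : ℝ) : ℂ) * psi p (ξ * (U * m : ℤ))
      - ((wi M N (U * m) * wi M N (U * (m + k)) * (f m * f (m + k)) : ℝ) : ℂ) * psi p (ξ * (U * m : ℤ))‖
      ≤ wi M N (U * m) * |f (U * m) - f m| + wi M N (U * (m + k)) * |f (U * (m + k)) - f (m + k)| := by
    intro m _
    rw [← sub_mul, norm_mul, psi_norm, mul_one, ← Complex.ofReal_sub, Complex.norm_real, Real.norm_eq_abs, win_wi, win_wi]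
    have e1 : (U : ℤ) * m + U * k = U * (m + k) := by ring
    rw [e1]
    have e2 : wi M N (U * m) * f (U * m) * (wi M N (U * (m + k)) * f (U * (m + k)))
        - wi M N (U * m) * wi M N (U * (m + k)) * (f m * f (m + k))
        = wi M N (U * m) * (f (U * m) - f m) * (wi M N (U * (m + k)) * f (U * (m + k)))
          + wi M N (U * (m + k)) * (f (U * (m + k)) - f (m + k)) * (wi M N (U * m) * f m) := by ring
    rw [e2]
    have w1 := wi_nonneg M N (U * m)
    have w2 := wi_nonneg M N (U * (m + k))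
    refine (abs_add_le _ _).trans (add_le_add ?_ ?_)
    · rw [abs_mul, abs_mul, abs_of_nonneg w1]
      apply mul_le_of_le_one_right (mul_nonneg w1 (abs_nonneg _))
      rw [abs_mul]
      exact mul_le_one₀ (wi_abs _ _ _) (abs_nonneg _) (hf _)
    · rw [abs_mul, abs_mul, abs_of_nonneg w2]
      apply mul_le_of_le_one_right (mul_nonneg w2 (abs_nonneg _))
      rw [abs_mul]
      exact mul_le_one₀ (wi_abs _ _ _) (abs_nonneg _) (hf _)
  refine (sum_le_sum hpt).trans ?_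
  rw [sum_add_distrib, sum_tr (Icc (0 : ℤ) X) k (fun m => wi M N (U * m) * |f (U * m) - f m|)]
  have a1 := wi_dil (M := M) hN hU h1 (Icc (0 : ℤ) X)
  have a2 := wi_dil (M := M) hN hU h1 ((Icc (0 : ℤ) X).map (addRightEmbedding k))
  linarith

theorem wi_diff {M N X u v : ℕ} (hMN : M ≤ N) (hN : N ≤ X) (hv : 1 ≤ v) (hvu : v ≤ u) (s : Finset ℤ) :
    ∑ m ∈ s, |wi M N (v * m) - wi M N (u * m)| ≤ 2 * (X * (1 / v - 1 / u) + 1) := by
  have hv0 : (1 : ℤ) ≤ v := by exact_mod_cast hv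
  have hvu0 : (v : ℤ) ≤ u := by exact_mod_cast hvu
  have hMN0 : (M : ℤ) ≤ N := by exact_mod_cast hMN
  have hM0 : (0 : ℤ) ≤ M := Int.natCast_nonneg _
  have hpt : ∀ m ∈ s, |wi M N (v * m) - wi M N (u * m)| ≤ (if m ∈ Ioc ((N / u : ℕ) : ℤ) ((N / v : ℕ) : ℤ) then (1 : ℝ) else 0)
      + (if m ∈ Ioc ((M / u : ℕ) : ℤ) ((M / v : ℕ) : ℤ) then (1 : ℝ) else 0) := by
    intro m _
    have b0 : (0 : ℝ) ≤ (if m ∈ Ioc ((N / u : ℕ) : ℤ) ((N / v : ℕ) : ℤ) then (1 : ℝ) else 0) := by split_ifs <;> norm_num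
    have c0 : (0 : ℝ) ≤ (if m ∈ Ioc ((M / u : ℕ) : ℤ) ((M / v : ℕ) : ℤ) then (1 : ℝ) else 0) := by split_ifs <;> norm_num
    have key : ∀ T : ℕ, (v : ℤ) * m ≤ T → (T : ℤ) < u * m → m ∈ Ioc ((T / u : ℕ) : ℤ) ((T / v : ℕ) : ℤ) := by
      intro T h1 h2
      rw [mem_Ioc]
      push_cast
      constructor
      · exact Int.ediv_lt_of_lt_mul (by omega) (by rw [mul_comm]; exact h2)
      · rw [Int.le_ediv_iff_mul_le (by omega), mul_comm]; exact h1
    unfold wi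
    by_cases h1 : (M : ℤ) < v * m ∧ (v : ℤ) * m ≤ N
    · have hm : 0 ≤ m := by
        by_contra h
        have : (v : ℤ) * m ≤ v * 0 := mul_le_mul_of_nonneg_left (by omega) (by omega)
        omega
      have hle : (v : ℤ) * m ≤ u * m := mul_le_mul_of_nonneg_right hvu0 hm
      rw [if_pos h1]
      by_cases h2 : (M : ℤ) < u * m ∧ (u : ℤ) * m ≤ N
      · rw [if_pos h2, sub_self, abs_zero]; linarith
      · rw [if_neg h2, if_pos (key N h1.2 (by omega)), sub_zero, abs_one]; linarith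
    · rw [if_neg h1]
      by_cases h2 : (M : ℤ) < u * m ∧ (u : ℤ) * m ≤ N
      · have hm : 0 ≤ m := by
          by_contra h
          have : (u : ℤ) * m ≤ u * 0 := mul_le_mul_of_nonneg_left (by omega) (by omega)
          omega
        have hle : (v : ℤ) * m ≤ u * m := mul_le_mul_of_nonneg_right hvu0 hm
        rw [if_pos h2, if_pos (key M (by omega) h2.1), zero_sub, abs_neg, abs_one]; linarith
      · rw [if_neg h2, sub_self, abs_zero]; linarith
  refine (sum_le_sum hpt).trans ?_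
  rw [sum_add_distrib, sum_ite_mem, sum_ite_mem]
  have hc : ∀ T : ℕ, T ≤ X → ∑ i ∈ s ∩ Ioc ((T / u : ℕ) : ℤ) ((T / v : ℕ) : ℤ), (1 : ℝ) ≤ X * (1 / v - 1 / u) + 1 := by
    intro T hT
    have hv1 : (0 : ℝ) < v := by exact_mod_cast hv
    have hu1 : (0 : ℝ) < u := by exact_mod_cast (by omega : 0 < u)
    have hvu1 : (v : ℝ) ≤ u := by exact_mod_cast hvu
    rw [sum_const, nsmul_eq_mul, mul_one]
    have h3 : (s ∩ Ioc ((T / u : ℕ) : ℤ) ((T / v : ℕ) : ℤ)).card ≤ T / v - T / u := by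
      refine (card_le_card inter_subset_right).trans ?_
      rw [Int.card_Ioc]
      generalize T / v = a1
      generalize T / u = a2
      omega
    have h4 : T / u ≤ T / v := Nat.div_le_div_left hvu (by omega)
    have h5 : (((s ∩ Ioc ((T / u : ℕ) : ℤ) ((T / v : ℕ) : ℤ)).card : ℕ) : ℝ) ≤ ((T / v : ℕ) : ℝ) - ((T / u : ℕ) : ℝ) := by
      rw [← Nat.cast_sub h4]; exact_mod_cast h3
    have h6 : ((T / v : ℕ) : ℝ) ≤ T / v := Nat.cast_div_le
    have h7 : (T : ℝ) / u < ((T / u : ℕ) : ℝ) + 1 := by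
      rw [div_lt_iff₀ hu1]
      have := Nat.lt_div_mul_add (a := T) (b := u) (by omega)
      have h8 : (T : ℝ) < ((T / u : ℕ) : ℝ) * u + u := by exact_mod_cast this
      nlinarith
    have h9 : (0 : ℝ) ≤ 1 / v - 1 / u := by
      rw [sub_nonneg]; exact one_div_le_one_div_of_le hv1 hvu1
    have h10 : (T : ℝ) * (1 / v - 1 / u) ≤ X * (1 / v - 1 / u) := mul_le_mul_of_nonneg_right (by exact_mod_cast hT) h9
    have h11 : (T : ℝ) * (1 / v - 1 / u) = T / v - T / u := by ring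
    linarith
  have a1 := hc N hN
  have a2 := hc M (hMN.trans hN)
  linarith

theorem Es_diff {f : ℤ → ℝ} (hf : ∀ n, |f n| ≤ 1) {M N X u v : ℕ} (hMN : M ≤ N) (hN : N ≤ X) (hv : 1 ≤ v) (hvu : v ≤ u)
    (k x x' : ℤ) (hx : 2 * |x * v - x' * u| ≤ u) :
    ‖Es p f M N X v k (x : ZMod p) - Es p f M N X u k (x' : ZMod p)‖
      ≤ 4 * (X * (1 / v - 1 / u) + 1) + X / u * (Real.pi * X / p) := by
  have hp0 : (0 : ℝ) < p := by exact_mod_cast NeZero.pos p
  have hu1 : (0 : ℝ) < u := by exact_mod_cast (by omega : 0 < u)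
  have hu0 : (0 : ℤ) < u := by exact_mod_cast (by omega : 0 < u)
  unfold Es
  rw [← sum_sub_distrib]
  refine (norm_sum_le _ _).trans ?_
  have hpt : ∀ m ∈ Icc (0 : ℤ) X, ‖((wi M N (v * m) * wi M N (v * (m + k)) * (f m * f (m + k)) : ℝ) : ℂ) * psi p (x * (v * m : ℤ))
      - ((wi M N (u * m) * wi M N (u * (m + k)) * (f m * f (m + k)) : ℝ) : ℂ) * psi p (x' * (u * m : ℤ))‖
      ≤ |wi M N (v * m) - wi M N (u * m)| + |wi M N (v * (m + k)) - wi M N (u * (m + k))|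
        + (if 1 ≤ (u : ℤ) * m ∧ (u : ℤ) * m ≤ X then (1 : ℝ) else 0) * (Real.pi * X / p) := by
    intro m _
    set w1 := wi M N (v * m) with hw1
    set w2 := wi M N (v * (m + k)) with hw2
    set w3 := wi M N (u * m) with hw3
    set w4 := wi M N (u * (m + k)) with hw4
    set c := f m * f (m + k) with hc
    have hc1 : |c| ≤ 1 := by rw [hc, abs_mul]; exact mul_le_one₀ (hf _) (abs_nonneg _) (hf _)
    have hw1a : |w1| ≤ 1 := wi_abs _ _ _
    have hw2a : |w2| ≤ 1 := wi_abs _ _ _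
    have hw3a : |w3| ≤ 1 := wi_abs _ _ _
    have hw4a : |w4| ≤ 1 := wi_abs _ _ _
    have e1 : ((w1 * w2 * c : ℝ) : ℂ) * psi p (x * (v * m : ℤ)) - ((w3 * w4 * c : ℝ) : ℂ) * psi p (x' * (u * m : ℤ))
        = (((w1 - w3) * (w2 * c) : ℝ) : ℂ) * psi p (x * (v * m : ℤ)) + (((w2 - w4) * (w3 * c) : ℝ) : ℂ) * psi p (x * (v * m : ℤ))
          + (((w3 * (w4 * c) : ℝ) : ℂ) * (psi p (x * (v * m : ℤ)) - psi p (x' * (u * m : ℤ)))) := by
      push_cast; ring
    rw [e1]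
    refine (norm_add_le _ _).trans ?_
    apply add_le_add
    · refine (norm_add_le _ _).trans ?_
      rw [norm_mul, psi_norm, mul_one, Complex.norm_real, Real.norm_eq_abs, norm_mul, psi_norm, mul_one, Complex.norm_real,
        Real.norm_eq_abs, abs_mul, abs_mul (w2 - w4)]
      apply add_le_add
      · apply mul_le_of_le_one_right (abs_nonneg _)
        rw [abs_mul]; exact mul_le_one₀ hw2a (abs_nonneg _) hc1
      · apply mul_le_of_le_one_right (abs_nonneg _)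
        rw [abs_mul]; exact mul_le_one₀ hw3a (abs_nonneg _) hc1
    · rw [norm_mul, Complex.norm_real, Real.norm_eq_abs, abs_mul]
      have hw4c : |w4 * c| ≤ 1 := by rw [abs_mul]; exact mul_le_one₀ hw4a (abs_nonneg _) hc1
      by_cases h3 : 1 ≤ (u : ℤ) * m ∧ (u : ℤ) * m ≤ X
      · rw [if_pos h3, one_mul]
        have e2 : psi p (x * (v * m : ℤ)) - psi p (x' * (u * m : ℤ))
            = psi p (x' * (u * m : ℤ)) * (psi p (((x * v - x' * u) * m : ℤ) : ZMod p) - 1) := by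
          have e3 : psi p (x * (v * m : ℤ)) = psi p (x' * (u * m : ℤ)) * psi p (((x * v - x' * u) * m : ℤ) : ZMod p) := by
            rw [← psi_add]; congr 1; push_cast; ring
          rw [e3]; ring
        rw [e2, norm_mul, psi_norm, one_mul]
        have h4 := psi_sub_one (p := p) ((x * v - x' * u) * m)
        have h5 : 2 * Real.pi * |(((x * v - x' * u) * m : ℤ) : ℝ)| / p ≤ Real.pi * X / p := by
          apply div_le_div_of_nonneg_right _ hp0.le
          have hm0 : 0 ≤ m := by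
            by_contra h
            have : (u : ℤ) * m ≤ u * 0 := mul_le_mul_of_nonneg_left (by omega) hu0.le
            omega
          have h6 : 2 * (|x * v - x' * u| * m) ≤ X := by
            calc 2 * (|x * v - x' * u| * m) = (2 * |x * v - x' * u|) * m := by ring
              _ ≤ u * m := mul_le_mul_of_nonneg_right hx hm0
              _ ≤ X := h3.2
          have h7 : |(((x * v - x' * u) * m : ℤ) : ℝ)| = ((|x * v - x' * u| * m : ℤ) : ℝ) := by
            push_cast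
            rw [abs_mul, abs_of_nonneg (show (0 : ℝ) ≤ m by exact_mod_cast hm0)]
          rw [h7]
          have h8 : 2 * ((|x * v - x' * u| * m : ℤ) : ℝ) ≤ X := by exact_mod_cast h6
          nlinarith [Real.pi_pos]
        have h9 : |w3| * |w4 * c| ≤ 1 := mul_le_one₀ hw3a (abs_nonneg _) hw4c
        calc |w3| * |w4 * c| * ‖psi p (((x * v - x' * u) * m : ℤ) : ZMod p) - 1‖
            ≤ 1 * ‖psi p (((x * v - x' * u) * m : ℤ) : ZMod p) - 1‖ := mul_le_mul_of_nonneg_right h9 (norm_nonneg _)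
          _ ≤ Real.pi * X / p := by rw [one_mul]; exact h4.trans h5
      · have : w3 = 0 := by
          rw [hw3]; unfold wi
          rw [if_neg]
          intro h4
          apply h3
          have hNX : (N : ℤ) ≤ X := by exact_mod_cast hN
          have hM0 : (0 : ℤ) ≤ M := Int.natCast_nonneg _
          omega
        rw [this, if_neg h3]
        simp
  refine (sum_le_sum hpt).trans ?_
  rw [sum_add_distrib, sum_add_distrib, ← sum_mul,
    sum_tr (Icc (0 : ℤ) X) k (fun m => |wi M N (v * m) - wi M N (u * m)|)]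
  have a1 := wi_diff hMN hN hv hvu (Icc (0 : ℤ) X)
  have a2 := wi_diff hMN hN hv hvu ((Icc (0 : ℤ) X).map (addRightEmbedding k))
  have a3 := mul_le_mul_of_nonneg_right (count_mul (X := X) (v := u) (by omega) (Icc (0 : ℤ) X))
    (show 0 ≤ Real.pi * X / p by positivity)
  linarith

/-- DILATION of the spectrum -/
theorem dil {f : ℤ → ℝ} (hf : ∀ n, |f n| ≤ 1) {M N X u v : ℕ} (hMN : M ≤ N) (hN : N ≤ X) (hv : 1 ≤ v) (hvu : v ≤ u)
    {κ ρ : ℝ} (hκ : 0 ≤ κ) (hρ : 0 ≤ ρ) (hloc : ∀ j : ℕ, j < u → ∑ n ∈ Icc (1 : ℤ) X, |f (n + j) - f n| ≤ κ * X)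
    (hdu : ∑ n ∈ Icc (1 : ℤ) X, |f (u * n) - f n| ≤ κ * X) (hdv : ∑ n ∈ Icc (1 : ℤ) X, |f (v * n) - f n| ≤ κ * X)
    (k x x' : ℤ) (hx : 2 * |x * v - x' * u| ≤ u)
    (hr : ∀ i < v, ‖psi p ((x * (i : ℕ) : ℤ) : ZMod p) - 1‖ ≤ ρ) (hr' : ∀ i < u, ‖psi p ((x' * (i : ℕ) : ℤ) : ZMod p) - 1‖ ≤ ρ) :
    ‖A p (win M N f) X (v * k) (x : ZMod p)‖ ≤ ‖A p (win M N f) X (u * k) (x' : ZMod p)‖
      + (8 * u * (κ * X) + 12 * (u : ℝ) ^ 2 + 2 * (X * ρ) + 4 * (X * (1 - v / u)) + Real.pi * X ^ 2 / p) := by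
  have hp0 : (0 : ℝ) < p := by exact_mod_cast NeZero.pos p
  have hu1 : (0 : ℝ) < u := by exact_mod_cast (by omega : 0 < u)
  have hv1 : (0 : ℝ) < v := by exact_mod_cast hv
  have hvu1 : (v : ℝ) ≤ u := by exact_mod_cast hvu
  have hX0 : (0 : ℝ) ≤ X := Nat.cast_nonneg _
  have hU1 : (1 : ℝ) ≤ u := by exact_mod_cast (by omega : 1 ≤ u)
  have gen : ∀ U : ℕ, 1 ≤ U → U ≤ u → (∑ n ∈ Icc (1 : ℤ) X, |f (U * n) - f n| ≤ κ * X) → ∀ y : ℤ,
      (∀ i < U, ‖psi p ((y * (i : ℕ) : ℤ) : ZMod p) - 1‖ ≤ ρ) →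
      ‖A p (win M N f) X (U * k) (y : ZMod p) - U * Es p f M N X U k (y : ZMod p)‖
        ≤ U * (2 * (κ * X + 2 * U)) + X * ρ + U * (2 * (κ * X)) := by
    intro U hU hUu hd y hy
    have h1 := prog (p := p) (F := fun n => win M N f n * win M N f (n + U * k)) (X := X)
      (fun n => der_abs (win_abs hf M N) _ n) (der_sup (win_sup f M hN) _) hU (D := 2 * (κ * X + 2 * U)) hρ (by
        intro i hi s
        have h2 := der_local hf (M := M) hN i (hloc i (by omega)) (U * k) s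
        refine h2.trans ?_
        have : (i : ℝ) ≤ U := by exact_mod_cast hi.le
        linarith) (y : ZMod p) (by
        intro i hi
        have e : (y : ZMod p) * (((i : ℕ) : ℤ) : ZMod p) = ((y * (i : ℕ) : ℤ) : ZMod p) := by push_cast; ring
        rw [e]
        exact hy i hi)
    have h2 := step_norm (p := p) hf (M := M) hN hU hd k (y : ZMod p)
    have e1 : A p (win M N f) X (U * k) (y : ZMod p) - U * Es p f M N X U k (y : ZMod p)
        = (∑ n ∈ Icc (1 : ℤ) X, ((win M N f n * win M N f (n + U * k) : ℝ) : ℂ) * psi p ((y : ZMod p) * n)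
          - U * ∑ m ∈ Icc (0 : ℤ) X, ((win M N f (U * m) * win M N f (U * m + U * k) : ℝ) : ℂ) * psi p ((y : ZMod p) * (U * m : ℤ)))
          + U * (∑ m ∈ Icc (0 : ℤ) X, ((win M N f (U * m) * win M N f (U * m + U * k) : ℝ) : ℂ) * psi p ((y : ZMod p) * (U * m : ℤ))
            - Es p f M N X U k (y : ZMod p)) := by
      unfold A; ring
    rw [e1]
    refine (norm_add_le _ _).trans ?_
    apply add_le_add
    · exact h1
    · rw [norm_mul, Complex.norm_natCast]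
      exact mul_le_mul_of_nonneg_left h2 (Nat.cast_nonneg _)
  have g1 := gen v hv hvu hdv x hr
  have g2 := gen u (by omega) le_rfl hdu x' hr'
  have g3 := Es_diff (p := p) hf hMN hN hv hvu k x x' hx
  set a1 := A p (win M N f) X (v * k) (x : ZMod p)
  set a2 := A p (win M N f) X (u * k) (x' : ZMod p)
  set b1 := Es p f M N X v k (x : ZMod p)
  set b2 := Es p f M N X u k (x' : ZMod p)
  have n1 : ‖a1‖ ≤ v * ‖b1‖ + (v * (2 * (κ * X + 2 * v)) + X * ρ + v * (2 * (κ * X))) := by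
    have : a1 = v * b1 + (a1 - v * b1) := by ring
    rw [this]
    refine (norm_add_le _ _).trans ?_
    rw [norm_mul, Complex.norm_natCast]
    have e : v * b1 + (a1 - v * b1) - v * b1 = a1 - v * b1 := by ring
    linarith [g1]
  have n2 : ‖b1‖ ≤ ‖b2‖ + (4 * (X * (1 / v - 1 / u) + 1) + X / u * (Real.pi * X / p)) := by
    have : b1 = b2 + (b1 - b2) := by ring
    rw [this]
    refine (norm_add_le _ _).trans ?_
    linarith [g3]
  have n3 : u * ‖b2‖ ≤ ‖a2‖ + (u * (2 * (κ * X + 2 * u)) + X * ρ + u * (2 * (κ * X))) := by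
    have e : (u : ℂ) * b2 = a2 - (a2 - u * b2) := by ring
    have e2 : (u : ℝ) * ‖b2‖ = ‖(u : ℂ) * b2‖ := by rw [norm_mul, Complex.norm_natCast]
    rw [e2, e]
    refine (norm_sub_le _ _).trans ?_
    linarith [g2]
  have n4 : (v : ℝ) * ‖b2‖ ≤ ‖a2‖ + (u * (2 * (κ * X + 2 * u)) + X * ρ + u * (2 * (κ * X))) :=
    (mul_le_mul_of_nonneg_right hvu1 (norm_nonneg _)).trans n3
  have n5 : (v : ℝ) * ‖b1‖ ≤ v * ‖b2‖ + (4 * (X * (1 - v / u) + v) + Real.pi * X ^ 2 / p) := by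
    have h1 := mul_le_mul_of_nonneg_left n2 hv1.le
    have e1 : (v : ℝ) * (‖b2‖ + (4 * (X * (1 / v - 1 / u) + 1) + X / u * (Real.pi * X / p)))
        = v * ‖b2‖ + (4 * (X * (1 - v / u) + v) + v / u * (Real.pi * X ^ 2 / p)) := by
      field_simp
    rw [e1] at h1
    have h2 : (v : ℝ) / u * (Real.pi * X ^ 2 / p) ≤ Real.pi * X ^ 2 / p :=
      mul_le_of_le_one_left (by positivity) (by rw [div_le_one hu1]; exact hvu1)
    linarith
  have hκX : 0 ≤ κ * X := mul_nonneg hκ hX0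
  have f1 : (v : ℝ) * (κ * X) ≤ u * (κ * X) := mul_le_mul_of_nonneg_right hvu1 hκX
  have f2 : (v : ℝ) * v ≤ u * u := mul_le_mul hvu1 hvu1 hv1.le hu1.le
  have f3 : (v : ℝ) ≤ u * u := by nlinarith
  nlinarith

end Pool.Agent.W36.GU
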