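import Pool.Agent.W36.GU.GU8

/-! Dilations of the universe, collisions. -/

set_option autoImplicit false

namespace Pool.Agent.W36.GU

open Finset
open scoped Pointwise

/-- the dilated frequency -/
def dfr (u v : ℕ) (x : ℤ) : ℤ := (2 * x * v + u) / (2 * u)

theorem dfr_spec {u : ℕ} (hu : 1 ≤ u) (v : ℕ) (x : ℤ) : 2 * |x * v - dfr u v x * u| ≤ u := by
  have hu0 : (0 : ℤ) < u := by exact_mod_cast hu
  have h1 := Int.emod_add_mul_ediv (2 * x * v + u) (2 * u)
  have h2 := Int.emod_nonneg (2 * x * v + u) (show (2 * (u : ℤ)) ≠ 0 by omega)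
  have h3 := Int.emod_lt_of_pos (2 * x * v + u) (show (0 : ℤ) < 2 * u by omega)
  unfold dfr
  set q := (2 * x * v + u) / (2 * u) with hq
  set r := (2 * x * v + u) % (2 * u) with hr
  rw [← abs_two, ← abs_mul, abs_le]
  constructor
  · nlinarith
  · nlinarith

theorem dfr_abs {u v : ℕ} (hu : 1 ≤ u) (hvu : v ≤ u) (x : ℤ) : |dfr u v x| ≤ |x| + 1 := by
  have h1 := dfr_spec hu v x
  have hu0 : (0 : ℤ) < u := by exact_mod_cast hu
  have hvu0 : (v : ℤ) ≤ u := by exact_mod_cast hvu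
  have h2 : |dfr u v x * u| ≤ |x * v| + |x * v - dfr u v x * u| := by
    have : dfr u v x * u = x * v - (x * v - dfr u v x * u) := by ring
    rw [this]
    refine (abs_sub _ _).trans ?_
    rw [← this]
  rw [abs_mul, abs_mul, abs_of_pos hu0, abs_of_nonneg (show (0 : ℤ) ≤ v from Int.natCast_nonneg _)] at h2
  have h3 : |x| * (v : ℤ) ≤ |x| * u := mul_le_mul_of_nonneg_left hvu0 (abs_nonneg _)
  by_contra hcon
  push Not at hcon
  have h4 : (|x| + 2) * u ≤ |dfr u v x| * u := mul_le_mul_of_nonneg_right (by omega) hu0.le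
  nlinarith

/-- the dilation map -/
def Dm (p u v : ℕ) (b : ℤ × ZMod p) : ℤ × ZMod p := ((u * b.1) / v, ((dfr u v b.2.valMinAbs : ℤ) : ZMod p))

theorem collide {a b c d : ℕ} (hb : 1 ≤ b) (hba : b ≤ a) (hd : 1 ≤ d) (hdc : d ≤ c) {α β x y : ℤ}
    (h1 : (a * α) / (b : ℤ) = (c * β) / d) (h2 : dfr a b x = dfr c d y) :
    |(a * d) * α - (c * b) * β| < b * d ∧ |(c * b) * x - (a * d) * y| ≤ a * c := by
  have hb0 : (0 : ℤ) < b := by exact_mod_cast hb
  have hd0 : (0 : ℤ) < d := by exact_mod_cast hd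
  have ha0 : (0 : ℤ) < a := by exact_mod_cast (by omega : 0 < a)
  have hc0 : (0 : ℤ) < c := by exact_mod_cast (by omega : 0 < c)
  constructor
  · have e1 := Int.emod_add_mul_ediv (a * α) (b : ℤ)
    have e2 := Int.emod_nonneg (a * α) (show (b : ℤ) ≠ 0 by omega)
    have e3 := Int.emod_lt_of_pos (a * α) hb0
    have e4 := Int.emod_add_mul_ediv (c * β) (d : ℤ)
    have e5 := Int.emod_nonneg (c * β) (show (d : ℤ) ≠ 0 by omega)
    have e6 := Int.emod_lt_of_pos (c * β) hd0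
    rw [← h1] at e4
    set q := (a * α) / (b : ℤ)
    set r := (a * α) % (b : ℤ)
    set s := (c * β) % (d : ℤ)
    have e7 : (a * d) * α - (c * b) * β = d * r - b * s := by
      have f1 : (a * d) * α = d * (r + b * q) := by rw [e1]; ring
      have f2 : (c * b) * β = b * (s + d * q) := by rw [e4]; ring
      rw [f1, f2]; ring
    rw [e7, abs_lt]
    constructor
    · nlinarith
    · nlinarith
  · have e1 := dfr_spec (by omega : 1 ≤ a) b x
    have e2 := dfr_spec (by omega : 1 ≤ c) d y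
    rw [← h2] at e2
    set z := dfr a b x
    have e3 : (c * b) * x - (a * d) * y = c * (x * b - z * a) - a * (y * d - z * c) := by ring
    rw [e3]
    have e4 : |(c : ℤ) * (x * b - z * a) - a * (y * d - z * c)| ≤ c * |x * b - z * a| + a * |y * d - z * c| := by
      refine (abs_sub _ _).trans ?_
      rw [abs_mul, abs_mul, abs_of_pos hc0, abs_of_pos ha0]
    nlinarith [mul_le_mul_of_nonneg_left e1 hc0.le, mul_le_mul_of_nonneg_left e2 ha0.le]

variable {p : ℕ} [NeZero p]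

open Classical in
/-- few frequencies are involved in collisions -/
theorem few {B : Finset (ℤ × ZMod p)} {K1 : ℝ} (hK1 : 1 ≤ K1) (hB : ∀ (m n : ℕ) (e : ℤ),
      ((univ.filter (fun w : ZMod p => (e, w) ∈ m • B - n • B)).card : ℝ) ≤ K1 ^ (m + n + 1))
    {R J : ℕ} (hRJ : R ^ 2 < J) (hJ : 8 ≤ p) {a b c d : ℕ} (hb : 1 ≤ b) (hba : b ≤ a) (haR : a ≤ R) (hd : 1 ≤ d) (hdc : d ≤ c) (hcR : c ≤ R)
    (hne : a * d ≠ c * b) {B' : Finset (ℤ × ZMod p)} (hB'B : B' ⊆ B) (hB' : ∀ q ∈ B', ∃ q' ∈ B, Dm p a b q = Dm p c d q')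
    (hsm : ∀ q ∈ B, |((q.2.valMinAbs : ℤ) : ℝ)| * (4 * J) < p) :
    ((B'.image Prod.snd).card : ℝ) ≤ (2 * (R : ℝ) ^ 2 + 1) * K1 ^ (2 * R ^ 2 + 1) * (2 * (R : ℝ) ^ 4 + 1) := by
  set m := a * d with hm
  set n := c * b with hn
  have hmR : m ≤ R ^ 2 := by rw [sq]; exact Nat.mul_le_mul haR (by omega)
  have hnR : n ≤ R ^ 2 := by rw [sq]; exact Nat.mul_le_mul hcR (by omega)
  set V := (Icc (-((R ^ 2 : ℕ) : ℤ)) ((R ^ 2 : ℕ) : ℤ)).biUnion (fun e => univ.filter (fun w : ZMod p => (e, w) ∈ m • B - n • B)) with hV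
  set W : ZMod p → Finset (ZMod p) := fun ω => univ.filter (fun ξ : ZMod p =>
    |(m : ℤ) * ω.valMinAbs - ((m : ℤ) ^ 2 - (n : ℤ) ^ 2) * ξ.valMinAbs| ≤ ((R ^ 4 : ℕ) : ℤ)) with hW
  have hVc : (V.card : ℝ) ≤ (2 * (R : ℝ) ^ 2 + 1) * K1 ^ (2 * R ^ 2 + 1) := by
    have h1 : V.card ≤ ∑ e ∈ Icc (-((R ^ 2 : ℕ) : ℤ)) ((R ^ 2 : ℕ) : ℤ), (univ.filter (fun w : ZMod p => (e, w) ∈ m • B - n • B)).card :=
      card_biUnion_le
    have h2 : (V.card : ℝ) ≤ ∑ e ∈ Icc (-((R ^ 2 : ℕ) : ℤ)) ((R ^ 2 : ℕ) : ℤ),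
        ((univ.filter (fun w : ZMod p => (e, w) ∈ m • B - n • B)).card : ℝ) := by exact_mod_cast h1
    refine h2.trans ((sum_le_card_nsmul _ _ _ (fun e _ => hB m n e)).trans ?_)
    rw [nsmul_eq_mul, Int.card_Icc]
    have h3 : (((R ^ 2 : ℕ) : ℤ) + 1 - -((R ^ 2 : ℕ) : ℤ)).toNat = 2 * R ^ 2 + 1 := by
      generalize R ^ 2 = Y
      omega
    rw [h3]
    push_cast
    apply mul_le_mul_of_nonneg_left _ (by positivity)
    exact pow_le_pow_right₀ hK1 (by omega)
  have hD : ((m : ℤ) ^ 2 - (n : ℤ) ^ 2) ≠ 0 := by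
    intro h
    apply hne
    have h1 : (m : ℤ) ^ 2 = (n : ℤ) ^ 2 := by linarith
    have h2 : (m : ℤ) = n := by
      rcases sq_eq_sq_iff_eq_or_eq_neg.1 h1 with h3 | h3
      · exact h3
      · have : (0 : ℤ) ≤ m := Int.natCast_nonneg _
        have : (0 : ℤ) ≤ n := Int.natCast_nonneg _
        omega
    exact_mod_cast h2
  have hWc : ∀ ω : ZMod p, (W ω).card ≤ 2 * R ^ 4 + 1 := by
    intro ω
    have h1 : (W ω).card ≤ (Icc ((m : ℤ) * ω.valMinAbs - ((R ^ 4 : ℕ) : ℤ)) ((m : ℤ) * ω.valMinAbs + ((R ^ 4 : ℕ) : ℤ))).card := by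
      apply card_le_card_of_injOn (fun ξ : ZMod p => ((m : ℤ) ^ 2 - (n : ℤ) ^ 2) * ξ.valMinAbs)
      · intro ξ hξ
        rw [hW, mem_coe, mem_filter, abs_le] at hξ
        rw [mem_coe, mem_Icc]
        constructor <;> linarith [hξ.2.1, hξ.2.2]
      · intro ξ _ ξ' _ h
        have h2 := mul_left_cancel₀ hD h
        exact ZMod.valMinAbs_inj.1 h2
    refine h1.trans ?_
    rw [Int.card_Icc]
    generalize R ^ 4 = Y
    omega
  have hsub : B'.image Prod.snd ⊆ V.biUnion W := by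
    intro ξ hξ
    rw [mem_image] at hξ
    obtain ⟨⟨α, ξ1⟩, hq, rfl⟩ := hξ
    obtain ⟨⟨β, η⟩, hq', hDD⟩ := hB' _ hq
    have hx := hsm _ (hB'B hq)
    have hy := hsm _ hq'
    simp only at hx hy ⊢
    unfold Dm at hDD
    rw [Prod.mk.injEq] at hDD
    simp only at hDD
    obtain ⟨h1, h2⟩ := hDD
    set x := ξ1.valMinAbs with hxd
    set y := η.valMinAbs with hyd
    have hJ1 : 1 ≤ J := by omega
    have hxi : |x| * (4 * J) < p := by exact_mod_cast hx
    have hyi : |y| * (4 * J) < p := by exact_mod_cast hy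
    have hp0 : (8 : ℤ) ≤ p := by exact_mod_cast hJ
    have hJ0 : (1 : ℤ) ≤ J := by exact_mod_cast hJ1
    have hRJ0 : ((R : ℤ)) ^ 2 < J := by exact_mod_cast hRJ
    have hx4 : 4 * |x| < p := by nlinarith [abs_nonneg x]
    have hy4 : 4 * |y| < p := by nlinarith [abs_nonneg y]
    have h3 : dfr a b x = dfr c d y := by
      have g1 := dfr_abs (by omega : 1 ≤ a) hba x
      have g2 := dfr_abs (by omega : 1 ≤ c) hdc y
      rw [ZMod.intCast_eq_intCast_iff_dvd_sub] at h2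
      obtain ⟨k, hk⟩ := h2
      rw [abs_le] at g1 g2
      have hk0 : k = 0 := by
        by_contra hne
        rcases lt_or_gt_of_ne hne with h5 | h5
        · have : (p : ℤ) * k ≤ (p : ℤ) * (-1) := mul_le_mul_of_nonneg_left (by omega) (by omega)
          omega
        · have : (p : ℤ) * 1 ≤ (p : ℤ) * k := mul_le_mul_of_nonneg_left (by omega) (by omega)
          omega
      rw [hk0] at hk
      omega
    obtain ⟨h4, h5⟩ := collide hb hba hd hdc h1 h3
    set w : ℤ := m * x - n * y with hw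
    have hmR0 : (m : ℤ) ≤ R ^ 2 := by exact_mod_cast hmR
    have hnR0 : (n : ℤ) ≤ R ^ 2 := by exact_mod_cast hnR
    have hm0 : (0 : ℤ) ≤ m := Int.natCast_nonneg _
    have hn0 : (0 : ℤ) ≤ n := Int.natCast_nonneg _
    have hw1 : |w| ≤ m * |x| + n * |y| := by
      rw [hw]
      refine (abs_sub _ _).trans ?_
      rw [abs_mul, abs_mul, abs_of_nonneg hm0, abs_of_nonneg hn0]
    have hw2 : |w| * 2 < p := by
      have g1 : (m : ℤ) * |x| ≤ J * |x| := mul_le_mul_of_nonneg_right (by omega) (abs_nonneg _)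
      have g2 : (n : ℤ) * |y| ≤ J * |y| := mul_le_mul_of_nonneg_right (by omega) (abs_nonneg _)
      nlinarith
    rw [mem_biUnion]
    refine ⟨(w : ZMod p), ?_, ?_⟩
    · rw [hV, mem_biUnion]
      refine ⟨(m : ℤ) * α - n * β, ?_, ?_⟩
      · rw [mem_Icc]
        have g1 : (m : ℤ) * α - n * β = (a * d) * α - (c * b) * β := by rw [hm, hn]; push_cast; ring
        have g2 : ((b * d : ℕ) : ℤ) ≤ ((R ^ 2 : ℕ) : ℤ) := by
          have : b * d ≤ R ^ 2 := by rw [sq]; exact Nat.mul_le_mul (by omega) (by omega)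
          exact_mod_cast this
        rw [g1]
        rw [abs_lt] at h4
        push_cast at g2 ⊢
        constructor <;> linarith [h4.1, h4.2]
      · rw [mem_filter]
        refine ⟨mem_univ _, ?_⟩
        have g1 : (((m : ℤ) * α - n * β, (w : ZMod p)) : ℤ × ZMod p) = m • (α, ξ1) - n • (β, η) := by
          rw [Prod.smul_mk, Prod.smul_mk, Prod.mk_sub_mk, Prod.mk.injEq]
          constructor
          · simp
          · rw [hw]
            push_cast
            rw [hxd, hyd, ZMod.coe_valMinAbs, ZMod.coe_valMinAbs]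
            simp
        rw [g1]
        exact sub_mem_sub (nsmul_mem_nsmul (hB'B hq)) (nsmul_mem_nsmul hq')
    · rw [hW]
      simp only
      rw [mem_filter]
      refine ⟨mem_univ _, ?_⟩
      have g1 : ((w : ZMod p)).valMinAbs = w := by
        rw [ZMod.valMinAbs_spec]
        refine ⟨rfl, ?_⟩
        rw [Set.mem_Ioc]
        have := neg_abs_le w
        have := le_abs_self w
        constructor <;> linarith
      rw [g1]
      have g2 : (m : ℤ) * w - ((m : ℤ) ^ 2 - (n : ℤ) ^ 2) * x = n * (n * x - m * y) := by rw [hw]; ring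
      rw [← hxd, g2, abs_mul, abs_of_nonneg hn0]
      have g3 : |(n : ℤ) * x - m * y| ≤ a * c := by
        have : (n : ℤ) * x - m * y = (c * b) * x - (a * d) * y := by rw [hm, hn]; push_cast; ring
        rw [this]; exact h5
      have g4 : ((a : ℤ)) * c ≤ R ^ 2 := by
        have : a * c ≤ R ^ 2 := by rw [sq]; exact Nat.mul_le_mul haR hcR
        exact_mod_cast this
      push_cast
      calc (n : ℤ) * |(n : ℤ) * x - m * y| ≤ R ^ 2 * R ^ 2 := by
            apply mul_le_mul hnR0 (g3.trans g4) (abs_nonneg _) (by positivity)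
        _ = (R : ℤ) ^ 4 := by ring
  have h1 : (B'.image Prod.snd).card ≤ V.card * (2 * R ^ 4 + 1) :=
    (card_le_card hsub).trans (card_biUnion_le_card_mul _ _ _ (fun ω _ => hWc ω))
  have h2 : ((B'.image Prod.snd).card : ℝ) ≤ V.card * (2 * (R : ℝ) ^ 4 + 1) := by
    calc ((B'.image Prod.snd).card : ℝ) ≤ ((V.card * (2 * R ^ 4 + 1) : ℕ) : ℝ) := by exact_mod_cast h1
      _ = _ := by push_cast; ring
  exact h2.trans (mul_le_mul_of_nonneg_right hVc (by positivity))

end Pool.Agent.W36.GU
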